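import Mathlib

/-!
# Idempotents of finite dimensional semisimple rational algebras
-/

set_option autoImplicit false

namespace Pool.Agent.R941.OH

open Module

section homs

variable {E : Type} [Ring E] [Algebra ℚ E]

instance homFin (A S : Type) [AddCommGroup A] [Module E A] [Module ℚ A] [IsScalarTower ℚ E A]
    [FiniteDimensional ℚ A] [AddCommGroup S] [Module E S] [Module ℚ S] [IsScalarTower ℚ E S]
    [FiniteDimensional ℚ S] : FiniteDimensional ℚ (A →ₗ[E] S) := by
  let f : (A →ₗ[E] S) →ₗ[ℚ] (A →ₗ[ℚ] S) :=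
    { toFun := fun g => g.restrictScalars ℚ
      map_add' := fun _ _ => rfl
      map_smul' := fun _ _ => rfl }
  refine FiniteDimensional.of_injective f ?_
  intro g h hgh
  ext x
  exact congrArg (fun k : A →ₗ[ℚ] S => k x) hgh

instance subFin (A : Type) [AddCommGroup A] [Module E A] [Module ℚ A] [IsScalarTower ℚ E A]
    [FiniteDimensional ℚ A] (C : Submodule E A) : FiniteDimensional ℚ C :=
  inferInstanceAs (FiniteDimensional ℚ (C.restrictScalars ℚ))

theorem hom_congr {A B S : Type} [AddCommGroup A] [Module E A] [AddCommGroup B] [Module E B]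
    [AddCommGroup S] [Module E S] [Module ℚ S] [IsScalarTower ℚ E S] (e : A ≃ₗ[E] B) :
    finrank ℚ (A →ₗ[E] S) = finrank ℚ (B →ₗ[E] S) :=
  LinearEquiv.finrank_eq
    { toFun := fun f => f ∘ₗ e.symm.toLinearMap
      invFun := fun f => f ∘ₗ e.toLinearMap
      map_add' := fun _ _ => rfl
      map_smul' := fun _ _ => rfl
      left_inv := fun f => by ext x; simp
      right_inv := fun f => by ext x; simp }

theorem hom_prod {A B S : Type} [AddCommGroup A] [Module E A] [Module ℚ A] [IsScalarTower ℚ E A]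
    [FiniteDimensional ℚ A] [AddCommGroup B] [Module E B] [Module ℚ B] [IsScalarTower ℚ E B]
    [FiniteDimensional ℚ B] [AddCommGroup S] [Module E S] [Module ℚ S] [IsScalarTower ℚ E S]
    [FiniteDimensional ℚ S] :
    finrank ℚ (A × B →ₗ[E] S) = finrank ℚ (A →ₗ[E] S) + finrank ℚ (B →ₗ[E] S) := by
  rw [← Module.finrank_prod]
  refine LinearEquiv.finrank_eq
    { toFun := fun f => (f ∘ₗ LinearMap.inl E A B, f ∘ₗ LinearMap.inr E A B)
      invFun := fun f => f.1.coprod f.2
      map_add' := fun _ _ => rfl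
      map_smul' := fun _ _ => rfl
      left_inv := fun f => by ext x <;> simp
      right_inv := fun f => by
        apply Prod.ext
        · ext x; simp
        · ext x; simp }

theorem mod_equiv [IsSemisimpleRing E] [FiniteDimensional ℚ E] : ∀ (N : ℕ) (A B : Type)
    [AddCommGroup A] [Module E A] [Module ℚ A] [IsScalarTower ℚ E A] [FiniteDimensional ℚ A]
    [AddCommGroup B] [Module E B] [Module ℚ B] [IsScalarTower ℚ E B] [FiniteDimensional ℚ B],
    finrank ℚ A ≤ N →
    (∀ (S : Submodule E E), IsSimpleModule E S →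
      finrank ℚ (A →ₗ[E] S) = finrank ℚ (B →ₗ[E] S)) → Nonempty (A ≃ₗ[E] B) := by
  intro N
  induction N with
  | zero =>
    intro A B _ _ _ _ _ _ _ _ _ _ hN h
    have hA : Subsingleton A := finrank_zero_iff.1 (Nat.le_zero.1 hN)
    have hB : Subsingleton B := by
      by_contra hB
      rw [not_subsingleton_iff_nontrivial] at hB
      obtain ⟨m, hm⟩ := IsSemisimpleModule.exists_simple_submodule E B
      obtain ⟨S, ⟨e⟩⟩ := IsSemisimpleRing.exists_linearEquiv_ideal_of_isSimpleModule E m
      have : IsSimpleModule E S := IsSimpleModule.congr e.symm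
      obtain ⟨C, hC⟩ := exists_isCompl m
      have h1 := h S inferInstance
      have h2 : finrank ℚ (A →ₗ[E] S) = 0 := by
        have : Subsingleton (A →ₗ[E] S) := ⟨fun f g => by
          ext x
          rw [Subsingleton.elim x 0, map_zero, map_zero]⟩
        exact finrank_zero_of_subsingleton
      rw [h2] at h1
      have h3 : Subsingleton (B →ₗ[E] S) := finrank_zero_iff.1 h1.symm
      have h4 : e.toLinearMap ∘ₗ (Submodule.projectionOnto m C hC) = 0 :=
        Subsingleton.elim _ _
      have _ := IsSimpleModule.nontrivial E m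
      obtain ⟨x, hx⟩ := exists_ne (0 : m)
      apply hx
      have h5 : e (Submodule.projectionOnto m C hC (x : B)) = 0 :=
        congrArg (fun g : B →ₗ[E] S => g x) h4
      rw [Submodule.projectionOnto_apply_left] at h5
      exact e.map_eq_zero_iff.1 h5
    exact ⟨{ toFun := fun _ => 0, invFun := fun _ => 0, map_add' := fun _ _ => by simp,
             map_smul' := fun _ _ => by simp, left_inv := fun _ => Subsingleton.elim _ _,
             right_inv := fun _ => Subsingleton.elim _ _ }⟩
  | succ N ih =>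
    intro A B _ _ _ _ _ _ _ _ _ _ hN h
    by_cases hA : Subsingleton A
    · refine ih A B ?_ h
      rw [finrank_zero_of_subsingleton]
      exact Nat.zero_le _
    rw [not_subsingleton_iff_nontrivial] at hA
    obtain ⟨m, hm⟩ := IsSemisimpleModule.exists_simple_submodule E A
    obtain ⟨C, hC⟩ := exists_isCompl m
    obtain ⟨S, ⟨e⟩⟩ := IsSemisimpleRing.exists_linearEquiv_ideal_of_isSimpleModule E m
    have hS : IsSimpleModule E S := IsSimpleModule.congr e.symm
    have _ := IsSimpleModule.nontrivial E m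
    -- a surjection from `A` to `S`
    have h1 : e.toLinearMap ∘ₗ (Submodule.projectionOnto m C hC) ≠ 0 := by
      intro h4
      obtain ⟨x, hx⟩ := exists_ne (0 : m)
      apply hx
      have h5 : e (Submodule.projectionOnto m C hC (x : A)) = 0 :=
        congrArg (fun g : A →ₗ[E] S => g x) h4
      rw [Submodule.projectionOnto_apply_left] at h5
      exact e.map_eq_zero_iff.1 h5
    have h2 : 0 < finrank ℚ (A →ₗ[E] S) := by
      rw [Module.finrank_pos_iff_exists_ne_zero]
      exact ⟨_, h1⟩
    rw [h S hS, Module.finrank_pos_iff_exists_ne_zero] at h2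
    obtain ⟨g, hg⟩ := h2
    have hgs := LinearMap.surjective_of_ne_zero hg
    obtain ⟨D, hD⟩ := exists_isCompl (LinearMap.ker g)
    -- `B = S × ker g`
    have eD : D ≃ₗ[E] S :=
      (Submodule.quotientEquivOfIsCompl _ D hD).symm.trans (g.quotKerEquivOfSurjective hgs)
    have eB : (LinearMap.ker g × S) ≃ₗ[E] B :=
      (LinearEquiv.prodCongr (LinearEquiv.refl E _) eD.symm).trans
        (Submodule.prodEquivOfIsCompl _ D hD)
    have eA : (C × S) ≃ₗ[E] A :=
      (LinearEquiv.prodCongr (LinearEquiv.refl E _) e.symm).trans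
        (Submodule.prodEquivOfIsCompl C m hC.symm)
    have hfin : finrank ℚ C ≤ N := by
      have h3 : finrank ℚ (C × S) = finrank ℚ A :=
        (eA.restrictScalars ℚ).finrank_eq
      rw [Module.finrank_prod] at h3
      have h4 : 0 < finrank ℚ S := by
        have _ := IsSimpleModule.nontrivial E S
        exact finrank_pos
      omega
    obtain ⟨f⟩ := ih C (LinearMap.ker g) hfin (by
      intro T hT
      have h5 := h T hT
      rw [← hom_congr eA, ← hom_congr eB, hom_prod, hom_prod] at h5
      omega)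
    exact ⟨eA.symm.trans ((LinearEquiv.prodCongr f (LinearEquiv.refl E _)).trans eB)⟩

/-- the trace of the action on a left ideal -/
noncomputable def tS [FiniteDimensional ℚ E] (S : Submodule E E) : E →+ ℚ :=
  ((LinearMap.trace ℚ S).comp ((Algebra.lsmul ℚ ℚ S).toLinearMap)).toAddMonoidHom

theorem tS_mul [FiniteDimensional ℚ E] (S : Submodule E E) (a b : E) :
    tS S (a * b) = tS S (b * a) := by
  show LinearMap.trace ℚ S (Algebra.lsmul ℚ ℚ S (a * b)) =
    LinearMap.trace ℚ S (Algebra.lsmul ℚ ℚ S (b * a))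
  rw [map_mul (Algebra.lsmul ℚ ℚ S) a b, map_mul (Algebra.lsmul ℚ ℚ S) b a,
    LinearMap.trace_mul_comm]

theorem tS_idem [FiniteDimensional ℚ E] (S : Submodule E E) {e : E} (he : e * e = e) :
    tS S e = finrank ℚ (LinearMap.range (Algebra.lsmul ℚ ℚ S e)) := by
  have hp : LinearMap.IsProj (LinearMap.range (Algebra.lsmul ℚ ℚ S e)) (Algebra.lsmul ℚ ℚ S e) := by
    constructor
    · intro x
      exact ⟨x, rfl⟩
    · rintro _ ⟨x, rfl⟩
      show (Algebra.lsmul ℚ ℚ S e * Algebra.lsmul ℚ ℚ S e) x = _
      rw [← map_mul, he]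
  exact hp.trace

/-- the left ideal `E e` -/
def lid (e : E) : Submodule E E where
  carrier := {x | x * e = x}
  add_mem' := fun {a b} ha hb => by
    simp only [Set.mem_ofPred_eq] at *
    rw [add_mul, ha, hb]
  zero_mem' := zero_mul e
  smul_mem' := fun c x hx => by
    simp only [Set.mem_ofPred_eq] at *
    rw [smul_eq_mul, mul_assoc, hx]

theorem hom_lid [FiniteDimensional ℚ E] (S : Submodule E E) {e : E} (he : e * e = e) :
    (finrank ℚ (lid e →ₗ[E] S) : ℚ) = tS S e := by
  rw [tS_idem S he]
  let f : (lid e →ₗ[E] S) →ₗ[ℚ] S :=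
    { toFun := fun g => g ⟨e, he⟩
      map_add' := fun _ _ => rfl
      map_smul' := fun _ _ => rfl }
  have hval : ∀ (g : lid e →ₗ[E] S) (x : lid e), g x = (x : E) • f g := by
    intro g x
    show g x = (x : E) • g ⟨e, he⟩
    rw [← map_smul]
    congr 1
    exact Subtype.ext x.2.symm
  have hinj : Function.Injective f := by
    intro g h hgh
    ext x
    rw [hval g, hval h, hgh]
  have hr : LinearMap.range f = LinearMap.range (Algebra.lsmul ℚ ℚ S e) := by
    apply le_antisymm
    · rintro _ ⟨g, rfl⟩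
      refine ⟨f g, ?_⟩
      show e • f g = f g
      exact (hval g ⟨e, he⟩).symm
    · rintro _ ⟨s, rfl⟩
      refine ⟨{ toFun := fun x => (x : E) • s, map_add' := fun x y => ?_,
                map_smul' := fun c x => ?_ }, rfl⟩
      · rw [Submodule.coe_add, add_smul]
      · rw [Submodule.coe_smul, smul_eq_mul, mul_smul, RingHom.id_apply]
  rw [← LinearMap.finrank_range_of_inj hinj, hr]

/-- Two idempotents with the same multiplicities are equivalent. -/
theorem idem_equiv [IsSemisimpleRing E] [FiniteDimensional ℚ E] {e f : E} (he : e * e = e)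
    (hf : f * f = f) (h : ∀ S : Submodule E E, tS S e = tS S f) :
    ∃ a b : E, a * b = e ∧ b * a = f := by
  obtain ⟨φ⟩ := mod_equiv (E := E) (finrank ℚ (lid e)) (lid e) (lid f) le_rfl (fun S _ => by
    have := (hom_lid S he).trans ((h S).trans (hom_lid S hf).symm)
    exact_mod_cast this)
  have key : ∀ x : lid e, ((φ x : lid f) : E) = (x : E) * (φ ⟨e, he⟩ : lid f) := by
    intro x
    have : x = (x : E) • (⟨e, he⟩ : lid e) := Subtype.ext x.2.symm
    conv_lhs => rw [this, map_smul, Submodule.coe_smul]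
    rfl
  have key2 : ∀ x : lid f, ((φ.symm x : lid e) : E) = (x : E) * (φ.symm ⟨f, hf⟩ : lid e) := by
    intro x
    have : x = (x : E) • (⟨f, hf⟩ : lid f) := Subtype.ext x.2.symm
    conv_lhs => rw [this, map_smul, Submodule.coe_smul]
    rfl
  refine ⟨(φ ⟨e, he⟩ : lid f), (φ.symm ⟨f, hf⟩ : lid e), ?_, ?_⟩
  · rw [← key2, φ.symm_apply_apply]
  · rw [← key, φ.apply_symm_apply]

theorem equiv_tS [FiniteDimensional ℚ E] {e f a b : E} (h1 : a * b = e) (h2 : b * a = f)
    (S : Submodule E E) : tS S e = tS S f := by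
  rw [← h1, ← h2, tS_mul]

/-- The inertia inequality. -/
theorem tS_le [FiniteDimensional ℚ E] {R : Type*} [AddCommGroup R] [Module ℂ R]
    (ρ : E →+* Module.End ℂ R) (hρ : Function.Injective ρ) {e f : E} (he : e * e = e)
    (hf : f * f = f) (h : ∀ z : R, ρ e z = z → ρ f z = 0 → z = 0) (S : Submodule E E) :
    tS S e ≤ tS S f := by
  rw [tS_idem S he, tS_idem S hf]
  have h1 : ∀ x : S, e • x = x → f • x = 0 → x = 0 := by
    intro x hx1 hx2
    apply Subtype.ext
    apply hρ
    have e1 : e * (x : E) = x := congrArg Subtype.val hx1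
    have e2 : f * (x : E) = 0 := congrArg Subtype.val hx2
    rw [Submodule.coe_zero, map_zero]
    ext z
    refine h _ ?_ ?_
    · rw [← Module.End.mul_apply, ← map_mul, e1]
    · rw [← Module.End.mul_apply, ← map_mul, e2, map_zero]
      rfl
  let g : LinearMap.range (Algebra.lsmul ℚ ℚ S e) →ₗ[ℚ] LinearMap.range (Algebra.lsmul ℚ ℚ S f) :=
    ((Algebra.lsmul ℚ ℚ S f).rangeRestrict).comp
      (LinearMap.range (Algebra.lsmul ℚ ℚ S e)).subtype
  have hg : Function.Injective g := by
    rw [injective_iff_map_eq_zero]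
    rintro ⟨_, ⟨x, rfl⟩⟩ hx
    apply Subtype.ext
    refine h1 _ ?_ ?_
    · show (Algebra.lsmul ℚ ℚ S e * Algebra.lsmul ℚ ℚ S e) x = _
      rw [← map_mul, he]
    · exact congrArg Subtype.val hx
  exact_mod_cast LinearMap.finrank_le_finrank_of_injective hg

/-- Semisimplicity from positivity. -/
theorem semisimple [FiniteDimensional ℚ E] (h : ∀ a : E, a ≠ 0 → ∃ b : E, ¬ IsNilpotent (b * a)) :
    IsSemisimpleRing E := by
  have : IsArtinianRing E := by
    have h1 : IsArtinian ℚ E := inferInstance
    exact isArtinian_of_tower ℚ h1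
  rw [IsArtinianRing.isSemisimpleRing_iff_jacobson]
  obtain ⟨k, hk⟩ := IsArtinianRing.isNilpotent_jacobson_bot (R := E)
  rw [eq_bot_iff]
  intro a ha
  by_contra hne
  obtain ⟨b, hb⟩ := h a hne
  apply hb
  rw [Ideal.jacobson_bot] at hk
  have hba : b * a ∈ Ring.jacobson E := Ideal.mul_mem_left _ b ha
  refine ⟨k, ?_⟩
  have h1 : (b * a) ^ k ∈ (Ring.jacobson E) ^ k := Ideal.pow_mem_pow hba k
  rw [hk] at h1
  exact h1

end homs

end Pool.Agent.R941.OH
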