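import Pool.Agent.R941.OH.Form
import Pool.Agent.R941.OH.Semi

/-!
# Rings of correspondences acting on the cohomology
-/

set_option autoImplicit false

open scoped ComplexConjugate
open Module Pool.Agent.W539.DI

namespace Pool.Agent.R941.OH

/-- A rational algebra `E` of operators on the cohomology of `X` which respect `p - q`, containing
the standard operators, and closed under adjoints. -/
structure Act (E : Type) [Ring E] [Algebra ℚ E] {n : ℕ} (X : KRing n) where
  ρ : E →+* Module.End ℂ X.R
  inj : Function.Injective ρ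
  typ_mem : ∀ (a : E) (p q : ℤ) (x : X.R), x ∈ X.H (p, q) → ρ a x ∈ typ X p q
  L : Lef E n
  hL : L.map ρ = lef X
  c : E
  hc : ρ c = mu X X.c
  adj : ∀ a, ∃ b, ∀ x y, F X (ρ a x) y = F X x (ρ b y)

theorem rho_smul {E : Type} [Ring E] [Algebra ℚ E] {R : Type} [AddCommGroup R] [Module ℂ R]
    (ρ : E →+* Module.End ℂ R) (q : ℚ) (a : E) (x : R) : ρ (q • a) x = (q : ℂ) • ρ a x := by
  have h1 : ρ.comp (algebraMap ℚ E) =
      (algebraMap ℂ (Module.End ℂ R)).comp (algebraMap ℚ ℂ) := Subsingleton.elim _ _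
  have h2 := congrArg (fun f : ℚ →+* Module.End ℂ R => f q) h1
  simp only [RingHom.comp_apply] at h2
  rw [Algebra.smul_def, map_mul, h2]
  rfl

theorem typ_shift {n : ℕ} (X : KRing n) (a b k : ℤ) : typ X (a + k) (b + k) = typ X a b := by
  unfold typ
  apply le_antisymm
  · refine iSup_le fun j => ?_
    have h := le_iSup (fun l : ℤ => X.H (a + l, b + l)) (k + j)
    simpa [add_assoc] using h
  · refine iSup_le fun j => ?_
    have h := le_iSup (fun l : ℤ => X.H (a + k + l, b + k + l)) (j - k)
    have e1 : a + k + (j - k) = a + j := by ring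
    have e2 : b + k + (j - k) = b + j := by ring
    simp only [e1, e2] at h
    exact h

theorem mem_typ' {n : ℕ} (X : KRing n) {a b p q : ℤ} (h : a - b = p - q) {x : X.R}
    (hx : x ∈ X.H (p, q)) : x ∈ typ X a b := by
  have h1 := typ_shift X a b (p - a)
  rw [← h1]
  have e1 : a + (p - a) = p := by ring
  have e2 : b + (p - a) = q := by linarith
  rw [e1, e2]
  exact mem_typ X hx

/-- the projector to the type `d = p - q` -/
noncomputable def ty {n : ℕ} (X : KRing n) (d : ℤ) : Module.End ℂ X.R :=
  diag X (fun pq => if pq.1 - pq.2 = d then 1 else 0)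

theorem ty_of {n : ℕ} (X : KRing n) {p q : ℤ} {x : X.R} (hx : x ∈ typ X p q) (d : ℤ) :
    ty X d x = if p - q = d then x else 0 := by
  unfold typ at hx
  refine Submodule.iSup_induction (p := fun k : ℤ => X.H (p + k, q + k))
    (motive := fun x => ty X d x = if p - q = d then x else 0) hx ?_ ?_ ?_
  · intro k x hx
    unfold ty
    rw [diag_of X _ hx]
    have e : (p + k - (q + k) : ℤ) = p - q := by ring
    simp only [e]
    split_ifs
    · rw [one_smul]
    · rw [zero_smul]
  · simp
  · intro x y hx hy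
    rw [map_add, hx, hy]
    split_ifs
    · rfl
    · simp

theorem ty_mem {n : ℕ} (X : KRing n) (d : ℤ) (x : X.R) : ty X d x ∈ typ X d 0 := by
  refine X.ind (P := fun x => ty X d x ∈ typ X d 0) ?_ ?_ ?_ x
  · rw [map_zero]; exact Submodule.zero_mem _
  · intro x y hx hy
    rw [map_add]; exact Submodule.add_mem _ hx hy
  · intro p q x hx
    rw [ty_of X (mem_typ X hx)]
    split_ifs with h
    · exact mem_typ' X (by omega) hx
    · exact Submodule.zero_mem _

theorem eq_zero_of_ty {n : ℕ} (X : KRing n) {x : X.R} (h : ∀ d, ty X d x = 0) : x = 0 := by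
  refine eq_zero_of_pr X fun p q => ?_
  have h1 : pr X p q = pr X p q * ty X (p - q) := by
    refine hom_ext X fun a b y hy => ?_
    rw [Module.End.mul_apply, ty_of X (mem_typ X hy)]
    by_cases h2 : (a, b) = (p, q)
    · have ha : a = p := congrArg Prod.fst h2
      have hb : b = q := congrArg Prod.snd h2
      subst ha; subst hb
      rw [if_pos rfl]
    · unfold pr
      rw [diag_of X _ hy, if_neg h2, zero_smul]
      split_ifs
      · rw [diag_of X _ hy, if_neg h2, zero_smul]
      · rw [map_zero]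
  rw [h1, Module.End.mul_apply, h, map_zero]

namespace Act

variable {E : Type} [Ring E] [Algebra ℚ E] {n : ℕ} {X : KRing n} (A : Act E X)

theorem typ_mem' (a : E) {p q : ℤ} {x : X.R} (hx : x ∈ typ X p q) : A.ρ a x ∈ typ X p q := by
  have hx' := hx
  unfold typ at hx'
  refine Submodule.iSup_induction (p := fun k : ℤ => X.H (p + k, q + k))
    (motive := fun x => A.ρ a x ∈ typ X p q) hx' ?_ ?_ ?_
  · intro k x hx
    rw [← typ_shift X p q k]
    exact A.typ_mem a _ _ x hx
  · rw [map_zero]; exact Submodule.zero_mem _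
  · intro x y hx hy
    rw [map_add]; exact Submodule.add_mem _ hx hy

theorem ty_comm (a : E) (d : ℤ) (x : X.R) : ty X d (A.ρ a x) = A.ρ a (ty X d x) := by
  refine X.ind (P := fun x => ty X d (A.ρ a x) = A.ρ a (ty X d x)) ?_ ?_ ?_ x
  · simp
  · intro x y hx hy
    rw [map_add, map_add, map_add, map_add, hx, hy]
  · intro p q x hx
    rw [ty_of X (mem_typ X hx), ty_of X (A.typ_mem a p q x hx)]
    split_ifs
    · rfl
    · rw [map_zero]

theorem rho_W : A.ρ A.L.W = (lef X).W := by
  rw [← A.L.map_W, A.hL]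

theorem rho_p (m : ℕ) : A.ρ (A.L.p m) = dg X m := by
  have := congrArg (fun l : Lef (Module.End ℂ X.R) n => l.p m) A.hL
  exact this

/-- the form with the star operator -/
noncomputable def h (x y : X.R) : ℂ := F X x (A.ρ A.L.W y)

theorem h_pos {a b : ℤ} {x : X.R} (hx : x ∈ typ X a b) (h0 : A.h x x = 0) : x = 0 := by
  obtain ⟨r, _, hr, he⟩ := F_typ X hx
  by_contra hne
  have h1 := hr hne
  unfold h at h0
  rw [A.rho_W, he] at h0
  rcases mul_eq_zero.1 h0 with h2 | h2
  · exact eps_ne _ h2
  · have : r = 0 := by exact_mod_cast h2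
    linarith

theorem h_herm {a b : ℤ} {x y : X.R} (hx : x ∈ typ X a b) (hy : y ∈ typ X a b) :
    A.h y x = conj (A.h x y) := by
  unfold h
  rw [A.rho_W]
  exact F_herm X hx hy

theorem zero_of_typ {a : E} (h : ∀ (p q : ℤ) (x : X.R), x ∈ typ X p q → A.ρ a x = 0) : a = 0 := by
  apply A.inj
  rw [map_zero]
  refine hom_ext X fun p q x hx => ?_
  rw [h p q x (mem_typ X hx)]
  rfl

include A in
/-- Polarisability implies semisimplicity. -/
theorem semisimple [FiniteDimensional ℚ E] : IsSemisimpleRing E := by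
  refine OH.semisimple fun a ha => ?_
  obtain ⟨b, hb⟩ := A.adj a
  set w := A.L.W with hw
  have hw4 : w * (w * (w * w)) = 1 := A.L.W_four
  refine ⟨w * (w * w) * b * w, ?_⟩
  set c := w * (w * w) * b * w * a with hc
  have hwc : w * c = b * (w * a) := by
    rw [hc]
    calc w * (w * (w * w) * b * w * a) = (w * (w * (w * w))) * (b * (w * a)) := by
          simp only [mul_assoc]
      _ = _ := by rw [hw4, one_mul]
  have hxc : ∀ x y, A.h x (A.ρ c y) = A.h (A.ρ a x) (A.ρ a y) := by
    intro x y
    unfold h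
    rw [← hw, ← Module.End.mul_apply, ← map_mul, hwc, map_mul, Module.End.mul_apply, ← hb, map_mul,
      Module.End.mul_apply]
  have hself : ∀ (p q : ℤ) (x y : X.R), x ∈ typ X p q → y ∈ typ X p q →
      A.h (A.ρ c x) y = A.h x (A.ρ c y) := by
    intro p q x y hx hy
    rw [hxc, A.h_herm hy (A.typ_mem' c hx), hxc, A.h_herm (A.typ_mem' a hx) (A.typ_mem' a hy),
      Complex.conj_conj]
  have hpow : ∀ (j : ℕ) (p q : ℤ) (x y : X.R), x ∈ typ X p q → y ∈ typ X p q →
      A.h (A.ρ (c ^ j) x) y = A.h x (A.ρ (c ^ j) y) := by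
    intro j
    induction j with
    | zero => intro p q x y _ _; simp
    | succ j ih =>
      intro p q x y hx hy
      rw [pow_succ, map_mul, Module.End.mul_apply, ih p q _ y (A.typ_mem' c hx) hy,
        hself p q x _ hx (A.typ_mem' _ hy), ← Module.End.mul_apply, ← map_mul, ← pow_succ',
        pow_succ, map_mul]
  intro hnil
  obtain ⟨N, hN⟩ := hnil
  have h2 : ∀ j : ℕ, c ^ (2 ^ j) = 0 → c = 0 := by
    intro j
    induction j with
    | zero => intro h; simpa using h
    | succ j ih =>
      intro h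
      refine ih (A.zero_of_typ fun p q x hx => ?_)
      refine A.h_pos (A.typ_mem' _ hx) ?_
      rw [hpow _ p q x _ hx (A.typ_mem' _ hx), ← Module.End.mul_apply, ← map_mul, ← pow_add,
        ← two_mul, ← pow_succ', h, map_zero]
      show F X x (A.ρ A.L.W ((0 : Module.End ℂ X.R) x)) = 0
      rw [LinearMap.zero_apply, map_zero, F_zero_right]
  have hc0 : c = 0 := by
    refine h2 N ?_
    exact pow_eq_zero_of_le (Nat.lt_two_pow_self (n := N)).le hN
  apply ha
  refine A.zero_of_typ fun p q x hx => ?_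
  refine A.h_pos (A.typ_mem' _ hx) ?_
  rw [← hxc, hc0, map_zero]
  show F X x (A.ρ A.L.W ((0 : Module.End ℂ X.R) x)) = 0
  rw [LinearMap.zero_apply, map_zero, F_zero_right]

end Act

end Pool.Agent.R941.OH
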