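import Mathlib

/-!
# Cancellation for hermitian forms over finite dimensional algebras

`St E`: an involution `σ` on the part `P E` of a ring, `P` a central idempotent.
-/

set_option autoImplicit false

namespace Pool.Agent.R941.OH

open Module

structure St (E : Type) [Ring E] where
  P : E
  σ : E → E
  PP : P * P = P
  Pc : ∀ a, a * P = P * a
  σ_add : ∀ a b, σ (a + b) = σ a + σ b
  σ_mul : ∀ a b, σ (a * b) = σ b * σ a
  σσ : ∀ a, σ (σ a) = P * a
  P_σ : ∀ a, P * σ a = σ a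

namespace St

variable {E : Type} [Ring E] (H : St E)

theorem σ_zero : H.σ 0 = 0 := by
  have := H.σ_add 0 0
  rw [add_zero] at this
  exact left_eq_add.1 this

theorem σ_neg (a : E) : H.σ (-a) = -H.σ a := by
  have := H.σ_add (-a) a
  rw [neg_add_cancel, H.σ_zero] at this
  exact (neg_eq_of_add_eq_zero_left this.symm).symm

theorem σ_sub (a b : E) : H.σ (a - b) = H.σ a - H.σ b := by
  rw [sub_eq_add_neg, H.σ_add, H.σ_neg, ← sub_eq_add_neg]

theorem σ_one : H.σ 1 = H.P := by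
  have h1 := H.σ_mul (H.σ 1) 1
  rw [mul_one, H.σσ, mul_one] at h1
  -- P = σ 1 * P = P * σ 1 = σ 1
  rw [H.Pc, H.P_σ] at h1
  exact h1.symm

theorem σ_P : H.σ H.P = H.P := by
  have h1 := H.σσ 1
  rw [H.σ_one, mul_one] at h1
  exact h1

/-- self-adjoint idempotents -/
structure Pr (g : E) : Prop where
  idem : g * g = g
  self : H.σ g = g

variable {H}

theorem Pr.P_mul {g : E} (h : H.Pr g) : H.P * g = g := by
  have := H.P_σ g
  rwa [h.self] at this

variable (H)

def Ani (g : E) : Prop := ∀ y, g * y = y → H.σ y * y = 0 → y = 0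

def Inj (g a : E) : Prop := ∀ y, g * y = y → a * y = 0 → y = 0

def Cay (g : E) : Prop := ∀ d, g * d * g = d → ∃ τ, g * τ * g = τ ∧ H.σ τ * τ = g ∧ τ * H.σ τ = g ∧
  Inj g (τ - d)

variable {H}

theorem left_of {g a : E} (hg : g * g = g) (ha : g * a * g = a) : g * a = a := by
  rw [← ha]; simp only [← mul_assoc, hg]

theorem right_of {g a : E} (hg : g * g = g) (ha : g * a * g = a) : a * g = a := by
  rw [← ha]; simp only [mul_assoc, hg]

section fin

variable [Algebra ℚ E] [FiniteDimensional ℚ E]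

/-- the right ideal -/
def rid (g : E) : Submodule ℚ E := LinearMap.ker (LinearMap.mulLeft ℚ g - LinearMap.id)

omit [FiniteDimensional ℚ E] in
theorem mem_rid {g y : E} : y ∈ rid g ↔ g * y = y := by
  unfold rid
  rw [LinearMap.mem_ker, LinearMap.sub_apply, LinearMap.mulLeft_apply, LinearMap.id_apply,
    sub_eq_zero]

theorem inv_of {g a : E} (hg : g * g = g) (ha : g * a * g = a) (h : Inj g a) :
    ∃ c, g * c * g = c ∧ a * c = g ∧ c * a = g := by
  let L : rid g →ₗ[ℚ] rid g := ((LinearMap.mulLeft ℚ a).restrict (p := rid g) (q := rid g) (by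
    intro y _
    rw [mem_rid, LinearMap.mulLeft_apply, ← mul_assoc, left_of hg ha]))
  have hL : Function.Injective L := by
    rw [injective_iff_map_eq_zero]
    rintro ⟨y, hy⟩ hy0
    apply Subtype.ext
    exact h y (mem_rid.1 hy) (congrArg Subtype.val hy0)
  obtain ⟨⟨c0, hc0⟩, hc⟩ := (LinearMap.injective_iff_surjective.1 hL) ⟨g, mem_rid.2 hg⟩
  have hc' : a * c0 = g := congrArg Subtype.val hc
  have hc0 := mem_rid.1 hc0
  have h1 : g * (c0 * g) * g = c0 * g := by
    rw [← mul_assoc, hc0, mul_assoc, hg]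
  have h2 : a * (c0 * g) = g := by rw [← mul_assoc, hc', hg]
  refine ⟨c0 * g, h1, h2, ?_⟩
  rw [← sub_eq_zero]
  refine h _ ?_ ?_
  · rw [mul_sub, ← mul_assoc, left_of hg h1, hg]
  · rw [mul_sub, ← mul_assoc, h2, left_of hg ha, right_of hg ha, sub_self]

theorem cay_add {g₁ g₂ : E} (p1 : H.Pr g₁) (p2 : H.Pr g₂) (h1 : H.Cay g₁) (h2 : H.Cay g₂)
    (h12 : g₁ * g₂ = 0) (h21 : g₂ * g₁ = 0) : H.Cay (g₁ + g₂) := by
  intro d hd
  have hgg : (g₁ + g₂) * (g₁ + g₂) = g₁ + g₂ := by
    rw [add_mul, mul_add, mul_add, p1.idem, p2.idem, h12, h21]; abel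
  have dl := left_of hgg hd
  have dr := right_of hgg hd
  obtain ⟨τ₁, a1, a2, a3, a4⟩ := h1 (g₁ * d * g₁) (by
    simp only [← mul_assoc, p1.idem]; simp only [mul_assoc, p1.idem])
  have q1 : g₁ * (τ₁ - g₁ * d * g₁) * g₁ = τ₁ - g₁ * d * g₁ := by
    rw [mul_sub, sub_mul, a1]
    simp only [← mul_assoc, p1.idem]; simp only [mul_assoc, p1.idem]
  obtain ⟨c, c1, c2, c3⟩ := inv_of p1.idem q1 a4
  obtain ⟨τ₂, b1, b2, b3, b4⟩ := h2 (g₂ * (d + d * g₁ * c * g₁ * d) * g₂) (by
    simp only [← mul_assoc, p2.idem]; simp only [mul_assoc, p2.idem])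
  have l1 := left_of p1.idem a1
  have r1 := right_of p1.idem a1
  have l2 := left_of p2.idem b1
  have r2 := right_of p2.idem b1
  have s1 : H.σ τ₁ * g₁ = H.σ τ₁ := by
    conv_rhs => rw [← l1, H.σ_mul, p1.self]
  have s1' : g₁ * H.σ τ₁ = H.σ τ₁ := by
    conv_rhs => rw [← r1, H.σ_mul, p1.self]
  have s2 : H.σ τ₂ * g₂ = H.σ τ₂ := by
    conv_rhs => rw [← l2, H.σ_mul, p2.self]
  have s2' : g₂ * H.σ τ₂ = H.σ τ₂ := by
    conv_rhs => rw [← r2, H.σ_mul, p2.self]
  have z1 : g₁ * τ₂ = 0 := by rw [← l2, ← mul_assoc, h12, zero_mul]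
  have z2 : g₂ * τ₁ = 0 := by rw [← l1, ← mul_assoc, h21, zero_mul]
  have z3 : τ₂ * g₁ = 0 := by rw [← r2, mul_assoc, h21, mul_zero]
  have z4 : τ₁ * g₂ = 0 := by rw [← r1, mul_assoc, h12, mul_zero]
  refine ⟨τ₁ + τ₂, ?_, ?_, ?_, ?_⟩
  · have e1 : (g₁ + g₂) * (τ₁ + τ₂) = τ₁ + τ₂ := by
      rw [add_mul, mul_add, mul_add, l1, l2, z1, z2]; abel
    rw [e1, add_mul, mul_add, mul_add, r1, r2, z3, z4]; abel
  · have e1 : H.σ τ₁ * τ₂ = 0 := by rw [← s1, mul_assoc, z1, mul_zero]
    have e2 : H.σ τ₂ * τ₁ = 0 := by rw [← s2, mul_assoc, z2, mul_zero]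
    rw [H.σ_add, add_mul, mul_add, mul_add, a2, b2, e1, e2]; abel
  · have e1 : τ₁ * H.σ τ₂ = 0 := by rw [← s2', ← mul_assoc, z4, zero_mul]
    have e2 : τ₂ * H.σ τ₁ = 0 := by rw [← s1', ← mul_assoc, z3, zero_mul]
    rw [H.σ_add, add_mul, mul_add, mul_add, a3, b3, e1, e2]; abel
  · intro y hy h0
    have hy1 : τ₁ * y = τ₁ * (g₁ * y) := by rw [← mul_assoc, r1]
    have hy2 : τ₂ * y = τ₂ * (g₂ * y) := by rw [← mul_assoc, r2]
    -- components
    have hd : d * y = d * (g₁ * y) + d * (g₂ * y) := by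
      conv_lhs => rw [← hy]
      rw [add_mul, mul_add]
    have k1 : τ₁ * (g₁ * y) - g₁ * d * g₁ * (g₁ * y) = g₁ * d * (g₂ * y) := by
      have := congrArg (fun z => g₁ * z) h0
      simp only [mul_zero] at this
      rw [sub_mul, add_mul, hd, mul_sub, mul_add, mul_add, hy1, hy2, ← mul_assoc g₁ τ₁, l1,
        ← mul_assoc g₁ τ₂, z1, zero_mul, add_zero, sub_eq_zero] at this
      have e3 : g₁ * d * g₁ * (g₁ * y) = g₁ * (d * (g₁ * y)) := by
        simp only [mul_assoc]; rw [← mul_assoc g₁ g₁, p1.idem]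
      rw [this, e3, add_sub_cancel_left, mul_assoc]
    have k2 : g₁ * y = c * (g₁ * d * (g₂ * y)) := by
      rw [← k1, ← sub_mul, ← mul_assoc, c3, ← mul_assoc, p1.idem]
    have k3 : g₂ * y = 0 := by
      refine b4 _ (by rw [← mul_assoc, p2.idem]) ?_
      have := congrArg (fun z => g₂ * z) h0
      simp only [mul_zero] at this
      rw [sub_mul, add_mul, hd, mul_sub, mul_add, mul_add, hy1, hy2, ← mul_assoc g₂ τ₁, z2,
        ← mul_assoc g₂ τ₂, l2, zero_mul, zero_add, k2] at this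
      rw [sub_mul]
      have e4 : g₂ * (d + d * g₁ * c * g₁ * d) * g₂ * (g₂ * y) =
          g₂ * (d * (c * (g₁ * d * (g₂ * y)))) + g₂ * (d * (g₂ * y)) := by
        have e5 : g₁ * c = c := left_of p1.idem c1
        have e6 : g₂ * (g₂ * y) = g₂ * y := by rw [← mul_assoc, p2.idem]
        have e7 : d * g₁ * c * g₁ * d = d * c * (g₁ * d) := by
          rw [mul_assoc d, e5]; simp only [mul_assoc]
        rw [e7, mul_assoc _ g₂, e6, mul_add, add_mul, add_comm]
        simp only [mul_assoc]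
      rw [e4]
      exact this
    rw [k3] at k2
    have k4 : g₁ * y = 0 := by rw [k2]; simp
    rw [← hy, add_mul, k3, k4, add_zero]

omit [FiniteDimensional ℚ E] in
theorem cay_div {g : E} (p : H.Pr g) (h : ∀ a, g * a * g = a → a ≠ 0 → Inj g a) : H.Cay g := by
  intro d hd
  by_cases h0 : g - d = 0
  · have hdg : d = g := (sub_eq_zero.1 h0).symm
    subst hdg
    refine ⟨-d, by simp [p.idem], by simp [H.σ_neg, p.self, p.idem],
      by simp [H.σ_neg, p.self, p.idem], ?_⟩
    intro y hy hy0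
    rw [sub_mul, neg_mul, hy, ← neg_add', neg_eq_zero, ← two_smul ℚ y] at hy0
    exact (smul_eq_zero.1 hy0).resolve_left (by norm_num)
  · refine ⟨g, by simp [p.idem], by simp [p.self, p.idem], by simp [p.self, p.idem], ?_⟩
    refine h _ ?_ h0
    rw [mul_sub, sub_mul, hd, p.idem, p.idem]

/-- a self-adjoint element `b` of an anisotropic corner is a multiple of its square -/
theorem sq_of {g b : E} (hb : H.σ b = b) (hgb : g * b = b) (ha : H.Ani g) : ∃ x, b = b * (b * x) := by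
  let R : Submodule ℚ E := LinearMap.range (LinearMap.mulLeft ℚ b)
  let L : R →ₗ[ℚ] R := ((LinearMap.mulLeft ℚ b).restrict (p := R) (q := R) (by
    intro y _
    exact ⟨y, rfl⟩))
  have hL : Function.Injective L := by
    rw [injective_iff_map_eq_zero]
    rintro ⟨_, ⟨z, rfl⟩⟩ hy0
    apply Subtype.ext
    have h1 : b * (b * z) = 0 := congrArg Subtype.val hy0
    show b * z = 0
    refine ha _ (by rw [← mul_assoc, hgb]) ?_
    rw [H.σ_mul, hb, mul_assoc, h1, mul_zero]
  obtain ⟨⟨_, ⟨x, rfl⟩⟩, hc⟩ := (LinearMap.injective_iff_surjective.1 hL) ⟨b, ⟨1, mul_one b⟩⟩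
  exact ⟨x, (congrArg Subtype.val hc).symm⟩

theorem split {g : E} (p : H.Pr g) (ha : H.Ani g) : (∀ a, g * a * g = a → a ≠ 0 → Inj g a) ∨
    ∃ g₁ g₂, H.Pr g₁ ∧ H.Pr g₂ ∧ g₁ * g₂ = 0 ∧ g₂ * g₁ = 0 ∧ g₁ + g₂ = g ∧ g₁ ≠ 0 ∧ g₂ ≠ 0 := by
  by_contra hcon
  push Not at hcon
  obtain ⟨⟨a, h1, h2, h3⟩, h4⟩ := hcon
  unfold Inj at h3
  push Not at h3
  obtain ⟨y, hy1, hy2, hy3⟩ := h3
  have al := left_of p.idem h1
  have ar := right_of p.idem h1
  have hsa : g * H.σ a = H.σ a := by
    conv_rhs => rw [← ar, H.σ_mul, p.self]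
  have hPa : H.P * a = a := by rw [← al, ← mul_assoc, p.P_mul]
  set b := H.σ a * a with hb
  have bs : H.σ b = b := by rw [hb, H.σ_mul, H.σσ, hPa]
  have bg : g * b = b := by rw [hb, ← mul_assoc, hsa]
  have gb : b * g = b := by rw [hb, mul_assoc, ar]
  have b0 : b ≠ 0 := fun h => h2 (ha a al h)
  have hby : b * y = 0 := by rw [hb, mul_assoc, hy2, mul_zero]
  obtain ⟨x, hx⟩ := sq_of bs bg ha
  have hPb : H.P * b = b := by rw [← bg, ← mul_assoc, p.P_mul]
  set q := H.σ (b * x) with hq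
  have hq2 : q = H.σ x * b := by rw [hq, H.σ_mul, bs]
  have hb2 : b = q * b := by
    have := congrArg H.σ hx
    rwa [H.σ_mul b (b * x), bs] at this
  have hqp : q * (b * x) = b * x := by rw [← mul_assoc, ← hb2]
  have hPp : H.P * (b * x) = b * x := by rw [← mul_assoc, hPb]
  have hself : q = b * x := by
    have h5 := congrArg H.σ hqp
    rw [H.σ_mul, hq, H.σσ, hPp] at h5
    rw [← hq, hqp] at h5
    rw [hq]
    exact h5.symm
  have hidem : b * x * (b * x) = b * x := by
    conv_lhs => rw [← hself]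
    rw [hself]
    rw [← hself] at hqp
    rw [← hself]
    exact hqp
  have hpr : H.Pr (b * x) := ⟨hidem, by rw [← hq, hself]⟩
  have gl : g * (b * x) = b * x := by rw [← mul_assoc, bg]
  have gr : b * x * g = b * x := by rw [← hself, hq2, mul_assoc, gb]
  have h := h4 (b * x) (g - b * x) hpr
    ⟨by rw [mul_sub, sub_mul, sub_mul, p.idem, gl, gr, hidem]; abel, by rw [H.σ_sub, p.self, hpr.self]⟩
    (by rw [mul_sub, gr, hidem, sub_self]) (by rw [sub_mul, gl, hidem, sub_self]) (by abel) (by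
      intro h
      apply b0
      rw [hx, h, mul_zero])
  apply hy3
  have h6 : g * y = b * x * y := by rw [← sub_eq_zero, ← sub_mul, h, zero_mul]
  rw [← hy1, h6, ← hself, hq2, mul_assoc, hby, mul_zero]

theorem cay_of_ani : ∀ (N : ℕ) (g : E), H.Pr g → H.Ani g → finrank ℚ (rid g) ≤ N → H.Cay g := by
  intro N
  induction N with
  | zero =>
    intro g p _ hN
    have h1 : Subsingleton (rid g) := finrank_zero_iff.1 (Nat.le_zero.1 hN)
    have h2 : g = 0 := congrArg Subtype.val (Subsingleton.elim (⟨g, mem_rid.2 p.idem⟩ : rid g) 0)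
    refine cay_div p fun a ha hne => (hne ?_).elim
    rw [← ha, h2, zero_mul, zero_mul]
  | succ N ih =>
    intro g p ha hN
    rcases split p ha with h | ⟨g₁, g₂, p1, p2, h12, h21, hs, hn1, hn2⟩
    · exact cay_div p h
    · have key : ∀ g₁ g₂ : E, H.Pr g₁ → H.Pr g₂ → g₁ * g₂ = 0 → g₂ * g₁ = 0 → g₁ + g₂ = g → g₂ ≠ 0 →
          H.Cay g₁ := by
        intro g₁ g₂ p1 p2 h12 h21 hs hn2
        have e1 : ∀ y, g₁ * y = y → g * y = y := by
          intro y hy
          rw [← hs, add_mul, hy, ← hy, ← mul_assoc, h21, zero_mul, add_zero]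
        refine ih g₁ p1 (fun y hy h0 => ha y (e1 y hy) h0) ?_
        have hlt : rid g₁ < rid g := by
          refine lt_of_le_of_ne (fun y hy => mem_rid.2 (e1 y (mem_rid.1 hy))) ?_
          intro he
          have h5 : g₂ ∈ rid g := mem_rid.2 (by rw [← hs, add_mul, h12, p2.idem, zero_add])
          rw [← he, mem_rid, h12] at h5
          exact hn2 h5.symm
        have := Submodule.finrank_lt_finrank_of_lt hlt
        omega
      rw [← hs]
      exact cay_add p1 p2 (key g₁ g₂ p1 p2 h12 h21 hs hn2)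
        (key g₂ g₁ p2 p1 h21 h12 (by rw [add_comm, hs]) hn1) h12 h21

/-- **Cancellation.** -/
theorem cancel {e g f k w : E} (pe : H.Pr e) (pg : H.Pr g) (pk : H.Pr k)
    (heg : e + g = H.P) (hfk : f + k = H.P) (hw : k * w * g = w) (w1 : H.σ w * w = g)
    (w2 : w * H.σ w = k) (hc : H.Cay g) : ∃ φ, f * φ * e = φ ∧ H.σ φ * φ = e := by
  have hPe := pe.P_mul
  have hPg := pg.P_mul
  have hPk := pk.P_mul
  have eg : e * g = 0 := by
    have this : e * (e + g) = e * H.P := by rw [heg]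
    rw [mul_add, pe.idem, H.Pc, hPe] at this
    simpa using this
  have ge : g * e = 0 := by
    have this : (e + g) * e = H.P * e := by rw [heg]
    rw [add_mul, pe.idem, hPe] at this
    simpa using this
  have kk := pk.idem
  have ff : f * f = f := by
    have h1 : f = H.P - k := by rw [← hfk]; abel
    rw [h1, mul_sub, sub_mul, sub_mul, H.PP, hPk, H.Pc, hPk, kk]; abel
  have fs : H.σ f = f := by
    have h1 : f = H.P - k := by rw [← hfk]; abel
    rw [h1, H.σ_sub, H.σ_P, pk.self]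
  have wg : w * g = w := by rw [← hw]; simp only [mul_assoc, pg.idem]
  have kw : k * w = w := by rw [← hw]; simp only [← mul_assoc, kk]
  have w'k : H.σ w * k = H.σ w := by conv_rhs => rw [← kw, H.σ_mul, pk.self]
  have gw' : g * H.σ w = H.σ w := by conv_rhs => rw [← wg, H.σ_mul, pg.self]
  obtain ⟨τ, t1, t2, t3, t4⟩ := hc (H.σ w * g) (by
    rw [← mul_assoc, gw']; simp only [mul_assoc, pg.idem])
  have gt := left_of pg.idem t1
  have tg := right_of pg.idem t1
  have gt' : g * H.σ τ = H.σ τ := by conv_rhs => rw [← tg, H.σ_mul, pg.self]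
  have t'g : H.σ τ * g = H.σ τ := by conv_rhs => rw [← gt, H.σ_mul, pg.self]
  have hPτ : H.P * τ = τ := by rw [← gt, ← mul_assoc, hPg]
  have hPw : H.P * w = w := by rw [← kw, ← mul_assoc, hPk]
  -- the modified isometry
  set v := w * τ with hv
  have v' : H.σ v = H.σ τ * H.σ w := by rw [hv, H.σ_mul]
  have v1 : H.σ v * v = g := by
    rw [v', hv]
    calc H.σ τ * H.σ w * (w * τ) = H.σ τ * (H.σ w * w) * τ := by simp only [mul_assoc]
      _ = g := by rw [w1, t'g, t2]
  have v2 : v * H.σ v = k := by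
    rw [v', hv]
    calc w * τ * (H.σ τ * H.σ w) = w * (τ * H.σ τ) * H.σ w := by simp only [mul_assoc]
      _ = k := by rw [t3, wg, w2]
  have vg : v * g = v := by rw [hv, mul_assoc, tg]
  have gv' : g * H.σ v = H.σ v := by conv_rhs => rw [← vg, H.σ_mul, pg.self]
  have hPv : H.P * v = v := by rw [hv, ← mul_assoc, hPw]
  have q1 : g * (g - H.σ v * g) * g = g - H.σ v * g := by
    rw [mul_sub, sub_mul, pg.idem, pg.idem, ← mul_assoc, gv', mul_assoc, pg.idem]
  have q2 : Inj g (g - H.σ v * g) := by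
    intro y hy h0
    refine t4 y hy ?_
    have h1 : τ * ((g - H.σ v * g) * y) = 0 := by rw [h0, mul_zero]
    rw [← mul_assoc, mul_sub, tg, ← mul_assoc, v', ← mul_assoc, t3, gw'] at h1
    exact h1
  obtain ⟨c, c1, c2, c3⟩ := inv_of pg.idem q1 q2
  have gc := left_of pg.idem c1
  set X := e + c * H.σ v * e with hX
  have ec : e * c = 0 := by rw [← gc, ← mul_assoc, eg, zero_mul]
  have gX : g * X = c * H.σ v * e := by
    rw [hX, mul_add, ge, zero_add, ← mul_assoc, ← mul_assoc, gc]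
  have eX : e * X = e := by
    rw [hX, mul_add, pe.idem, ← mul_assoc, ← mul_assoc, ec, zero_mul, zero_mul, add_zero]
  have c4 : H.σ v * c = c - g := by
    have h1 : (g - H.σ v * g) * c = g := c2
    rw [sub_mul, gc, mul_assoc, gc] at h1
    rw [← h1]; abel
  have vX : H.σ v * X = g * X := by
    rw [gX, hX, mul_add, ← mul_assoc, ← mul_assoc, c4, sub_mul, sub_mul, gv']
    abel
  have hPX : H.P * X = X := by
    have hPc : H.P * c = c := by rw [← gc, ← mul_assoc, hPg]
    rw [hX, mul_add, hPe, ← mul_assoc, ← mul_assoc, hPc]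
  have Xe : X * e = X := by
    rw [hX, add_mul, pe.idem, mul_assoc _ e e, pe.idem]
  have d1 : H.σ X * (k * X) = H.σ X * (g * X) := by
    have h1 : H.σ X * (k * X) = H.σ (H.σ v * X) * (H.σ v * X) := by
      rw [H.σ_mul, H.σσ, hPv, ← v2]
      simp only [mul_assoc]
    have h2 : H.σ X * (g * X) = H.σ (g * X) * (g * X) := by
      rw [H.σ_mul, pg.self]
      calc H.σ X * (g * X) = H.σ X * (g * g * X) := by rw [pg.idem]
        _ = _ := by simp only [mul_assoc]
    rw [h1, h2, vX]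
  have d2 : H.σ X * (e * X) = e := by
    have h2 : H.σ X * (e * X) = H.σ (e * X) * (e * X) := by
      rw [H.σ_mul, pe.self]
      calc H.σ X * (e * X) = H.σ X * (e * e * X) := by rw [pe.idem]
        _ = _ := by simp only [mul_assoc]
    rw [h2, eX, pe.self, pe.idem]
  have d3 : H.σ X * (e * X) + H.σ X * (g * X) = H.σ X * (f * X) + H.σ X * (k * X) := by
    rw [← mul_add, ← mul_add, ← add_mul, ← add_mul, heg, hfk]
  refine ⟨f * X, ?_, ?_⟩
  · rw [← mul_assoc, ff, mul_assoc, Xe]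
  · rw [H.σ_mul, fs]
    have h3 : H.σ X * f * (f * X) = H.σ X * (f * X) := by
      calc H.σ X * f * (f * X) = H.σ X * (f * f * X) := by simp only [mul_assoc]
        _ = _ := by rw [ff]
    rw [h3]
    rw [d1, d2] at d3
    exact (add_right_cancel d3).symm

end fin

end St

end Pool.Agent.R941.OH
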