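import Pool.Agent.R941.OH.Twist

/-!
# Inertia
-/

set_option autoImplicit false

open scoped ComplexConjugate
open Module Pool.Agent.W539.DI Polynomial

namespace Pool.Agent.R941.OH

theorem mem_typ_phi {n : ℕ} {X Y : KRing n} (Φ : FM X Y) {p q : ℤ} {x : X.R}
    (hx : x ∈ typ X p q) : Φ.φ x ∈ typ Y p q := by
  have h := Φ.hodge p q
  unfold typ at *
  rw [← h]
  exact ⟨x, hx, rfl⟩

namespace Act

variable {E : Type} [Ring E] [Algebra ℚ E] {n : ℕ} {X : KRing n} (A : Act E X)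

noncomputable def s : E := aeval (A.c * A.c) A.exists_s.choose

noncomputable def s' : E := aeval (A.c * A.c) A.exists_s.choose_spec.choose

theorem s_s : A.s * A.s = aeval (A.c * A.c) (Ch n) := A.exists_s.choose_spec.choose_spec.1

theorem s_s' : A.s * A.s' = 1 := A.exists_s.choose_spec.choose_spec.2.1

theorem s'_s : A.s' * A.s = 1 := A.exists_s.choose_spec.choose_spec.2.2

theorem F_s (x y : X.R) : F X (A.ρ A.s x) y = F X x (A.ρ A.s y) := A.F_poly _ x y

theorem rho_PT {p q : ℤ} {x : X.R} (hx : x ∈ typ X p q) :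
    A.ρ A.L.PT x = if Even (p - q + n) then x else 0 := by
  classical
  have hx' := hx
  unfold typ at hx'
  refine Submodule.iSup_induction (p := fun k : ℤ => X.H (p + k, q + k))
    (motive := fun x => A.ρ A.L.PT x = if Even (p - q + n) then x else 0) hx' ?_ ?_ ?_
  · intro k x hx
    by_cases hne : x = 0
    · rw [hne, map_zero]
      split_ifs <;> rfl
    have hr : ¬ (p + k < 0 ∨ q + k < 0 ∨ (n : ℤ) < p + k ∨ (n : ℤ) < q + k) :=
      fun h => hne (zero_of X h hx)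
    obtain ⟨m, hm⟩ : ∃ m : ℕ, p + k + (q + k) = m := ⟨(p + k + (q + k)).toNat, by omega⟩
    have h1 : A.ρ (A.L.p m) x = x := by rw [A.rho_p, dg_of X hx, if_pos hm]
    have h2 := A.L.PT_p (show m ≤ 2 * n by omega)
    have h3 : A.ρ A.L.PT x = A.ρ (A.L.PT * A.L.p m) x := by
      rw [map_mul, Module.End.mul_apply, h1]
    rw [h3, h2]
    by_cases h4 : Even (p - q + n)
    · rw [if_pos h4, if_pos, h1]
      rw [Int.even_iff] at h4
      omega
    · rw [if_neg h4, if_neg]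
      · rw [map_zero]
        rfl
      · rw [Int.even_iff] at h4
        omega
  · rw [map_zero]
    split_ifs <;> rfl
  · intro x y hx hy
    rw [map_add, hx, hy]
    split_ifs
    · rfl
    · simp

theorem PT_comm (a : E) : a * A.L.PT = A.L.PT * a := by
  classical
  apply A.inj
  refine hom_ext X fun p q x hx => ?_
  rw [map_mul, map_mul, Module.End.mul_apply, Module.End.mul_apply, A.rho_PT (mem_typ X hx),
    A.rho_PT (A.typ_mem a p q x hx)]
  split_ifs
  · rfl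
  · rw [map_zero]

noncomputable def K : E := A.L.W * A.L.PT

theorem PT_K : A.L.PT * A.K = A.K := A.L.PT_W

theorem K_PT : A.K * A.L.PT = A.K := by
  unfold K
  rw [mul_assoc, A.L.PT_self]

theorem W_K : A.L.W * A.K = A.L.PT := A.L.W_W_PT

theorem K_K : A.K * A.K = A.L.PT := by
  show (A.L.W * A.L.PT) * A.K = A.L.PT
  rw [mul_assoc, A.PT_K, A.W_K]

noncomputable def up : E := (1 / 2 : ℚ) • (A.L.PT + A.K)

noncomputable def um : E := (1 / 2 : ℚ) • (A.L.PT - A.K)

theorem up_up : A.up * A.up = A.up := by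
  unfold up
  rw [smul_mul_smul_comm, add_mul, mul_add, mul_add, A.L.PT_self, A.PT_K, A.K_PT, A.K_K]
  have : A.L.PT + A.K + (A.K + A.L.PT) = (2 : ℚ) • (A.L.PT + A.K) := by
    rw [two_smul]; abel
  rw [this, smul_smul]
  norm_num

theorem um_um : A.um * A.um = A.um := by
  unfold um
  rw [smul_mul_smul_comm, sub_mul, mul_sub, mul_sub, A.L.PT_self, A.PT_K, A.K_PT, A.K_K]
  have : A.L.PT - A.K - (A.K - A.L.PT) = (2 : ℚ) • (A.L.PT - A.K) := by
    rw [two_smul]; abel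
  rw [this, smul_smul]
  norm_num

theorem up_um : A.up + A.um = A.L.PT := by
  unfold up um
  rw [← smul_add]
  have : A.L.PT + A.K + (A.L.PT - A.K) = (2 : ℚ) • A.L.PT := by
    rw [two_smul]; abel
  rw [this, smul_smul]
  norm_num

theorem W_up : A.L.W * A.up = A.up := by
  unfold up
  rw [mul_smul_comm, mul_add, A.W_K, add_comm]
  rfl

theorem W_um : A.L.W * A.um = -A.um := by
  unfold um
  rw [mul_smul_comm, mul_sub, A.W_K, ← smul_neg, neg_sub]
  rfl

noncomputable def ep : E := A.s' * A.up * A.s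

noncomputable def em : E := A.s' * A.um * A.s

theorem conj_mul (u v : E) : A.s' * u * A.s * (A.s' * v * A.s) = A.s' * (u * v) * A.s := by
  calc A.s' * u * A.s * (A.s' * v * A.s) = A.s' * u * (A.s * A.s') * v * A.s := by
        simp only [mul_assoc]
    _ = _ := by rw [A.s_s', mul_one, mul_assoc A.s' u v]

theorem ep_ep : A.ep * A.ep = A.ep := by
  unfold ep
  rw [A.conj_mul, A.up_up]

theorem em_em : A.em * A.em = A.em := by
  unfold em
  rw [A.conj_mul, A.um_um]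

theorem ep_em : A.ep + A.em = A.L.PT := by
  unfold ep em
  rw [← add_mul, ← mul_add, A.up_um, A.PT_comm, mul_assoc, A.s'_s, mul_one]

theorem ep_PT : A.ep * A.L.PT = A.ep := by
  unfold ep
  rw [mul_assoc, A.PT_comm, ← mul_assoc, mul_assoc A.s', ]
  congr 2
  unfold up
  rw [smul_mul_assoc, add_mul, A.L.PT_self, A.K_PT]

theorem em_PT : A.em * A.L.PT = A.em := by
  unfold em
  rw [mul_assoc, A.PT_comm, ← mul_assoc, mul_assoc A.s', ]
  congr 2
  unfold um
  rw [smul_mul_assoc, sub_mul, A.L.PT_self, A.K_PT]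

theorem sign_aux {a b : ℤ} (hab : Even (a - b + n)) {z : X.R} (hz : z ∈ typ X a b) (σ : ℝ)
    (hW : A.ρ A.L.W (A.ρ A.s z) = (σ : ℂ) • A.ρ A.s z) (hσ2 : σ = 1 ∨ σ = -1) :
    ∃ r : ℝ, 0 ≤ r ∧ (z ≠ 0 → 0 < r) ∧ X.beta z z = 2 * (σ * ((eps (a - b)).re * r)) := by
  set y := A.ρ A.s z with hy
  have hym : y ∈ typ X a b := A.typ_mem' _ hz
  have hzy : z = A.ρ A.s' y := by
    rw [hy, ← Module.End.mul_apply, ← map_mul, A.s'_s, map_one]
    rfl
  obtain ⟨r, hr, hr', he⟩ := F_typ X hym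
  refine ⟨r, hr, fun h => hr' fun h0 => h ?_, ?_⟩
  · rw [hzy, h0, map_zero]
  · rw [A.beta_eq hab hz, ← A.s_s, map_mul, Module.End.mul_apply, A.F_s, ← hy]
    have h1 : F X y y = (σ : ℂ) * (eps (a - b) * r) := by
      rw [← he, ← A.rho_W, hW, F_smul_right, Complex.conj_ofReal, ← mul_assoc]
      rcases hσ2 with h | h <;> rw [h] <;> norm_num
    rw [h1]
    congr 1
    rcases eps_cases (a - b) with h | h <;> rw [h] <;> simp

theorem sign_p {a b : ℤ} (hab : Even (a - b + n)) {z : X.R} (hz : z ∈ typ X a b)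
    (hu : A.ρ A.ep z = z) :
    ∃ r : ℝ, 0 ≤ r ∧ (z ≠ 0 → 0 < r) ∧ X.beta z z = 2 * ((eps (a - b)).re * r) := by
  have hW : A.ρ A.L.W (A.ρ A.s z) = ((1 : ℝ) : ℂ) • A.ρ A.s z := by
    have h1 : A.s * A.ep = A.up * A.s := by
      unfold ep
      rw [← mul_assoc, ← mul_assoc, A.s_s', one_mul]
    conv_lhs => rw [← hu]
    conv_rhs => rw [← hu]
    rw [← Module.End.mul_apply (A.ρ A.s), ← map_mul, h1, ← Module.End.mul_apply, ← map_mul,
      ← mul_assoc, A.W_up]
    simp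
  obtain ⟨r, h1, h2, h3⟩ := A.sign_aux hab hz 1 hW (Or.inl rfl)
  exact ⟨r, h1, h2, by rw [h3, one_mul]⟩

theorem sign_m {a b : ℤ} (hab : Even (a - b + n)) {z : X.R} (hz : z ∈ typ X a b)
    (hu : A.ρ A.em z = z) :
    ∃ r : ℝ, 0 ≤ r ∧ (z ≠ 0 → 0 < r) ∧ X.beta z z = -(2 * ((eps (a - b)).re * r)) := by
  have hW : A.ρ A.L.W (A.ρ A.s z) = ((-1 : ℝ) : ℂ) • A.ρ A.s z := by
    have h1 : A.s * A.em = A.um * A.s := by
      unfold em
      rw [← mul_assoc, ← mul_assoc, A.s_s', one_mul]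
    conv_lhs => rw [← hu]
    conv_rhs => rw [← hu]
    rw [← Module.End.mul_apply (A.ρ A.s), ← map_mul, h1, ← Module.End.mul_apply, ← map_mul,
      ← mul_assoc, A.W_um]
    simp
  obtain ⟨r, h1, h2, h3⟩ := A.sign_aux hab hz (-1) hW (Or.inr rfl)
  exact ⟨r, h1, h2, by rw [h3]; ring⟩

end Act

section two

variable {E : Type} [Ring E] [Algebra ℚ E] {n : ℕ} {X Y : KRing n} (A : Act E X) (B : Act E Y)
  (Φ : FM X Y) (hΦ : ∀ a x, Φ.φ (A.ρ a x) = B.ρ a (Φ.φ x))

include hΦ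

theorem PT_eq : A.L.PT = B.L.PT := by
  classical
  apply A.inj
  refine hom_ext X fun p q x hx => ?_
  apply Φ.φ.injective
  rw [hΦ B.L.PT, B.rho_PT (mem_typ_phi Φ (mem_typ X hx)), A.rho_PT (mem_typ X hx)]
  split_ifs
  · rfl
  · rw [map_zero]

theorem clash {a b : ℤ} (hab : Even (a - b + n)) {z : X.R} (hz : z ∈ typ X a b)
    (h : (A.ρ A.ep z = z ∧ A.ρ B.em z = z) ∨ (A.ρ A.em z = z ∧ A.ρ B.ep z = z)) : z = 0 := by
  by_contra hne
  have hw := mem_typ_phi Φ hz
  have hw0 : Φ.φ z ≠ 0 := fun h0 => hne ((LinearEquiv.map_eq_zero_iff _).1 h0)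
  have hε : (eps (a - b)).re = 1 ∨ (eps (a - b)).re = -1 := by
    rcases eps_cases (a - b) with h | h <;> rw [h] <;> simp
  have hb := Φ.beta z z
  rcases h with ⟨h1, h2⟩ | ⟨h1, h2⟩
  · have h3 : B.ρ B.em (Φ.φ z) = Φ.φ z := by rw [← hΦ, h2]
    obtain ⟨r, hr, hr', he⟩ := A.sign_p hab hz h1
    obtain ⟨t, ht, ht', hf⟩ := B.sign_m hab hw h3
    have g1 := hr' hne
    have g2 := ht' hw0
    rw [he, hf] at hb
    rcases hε with h | h <;> rw [h] at hb <;> linarith
  · have h3 : B.ρ B.ep (Φ.φ z) = Φ.φ z := by rw [← hΦ, h2]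
    obtain ⟨r, hr, hr', he⟩ := A.sign_m hab hz h1
    obtain ⟨t, ht, ht', hf⟩ := B.sign_p hab hw h3
    have g1 := hr' hne
    have g2 := ht' hw0
    rw [he, hf] at hb
    rcases hε with h | h <;> rw [h] at hb <;> linarith

theorem inertia1 (z : X.R) (h1 : A.ρ A.ep z = z) (h2 : A.ρ B.ep z = 0) : z = 0 := by
  classical
  have hPT := PT_eq A B Φ hΦ
  refine eq_zero_of_ty X fun d => ?_
  have hz := ty_mem X d z
  have g1 : A.ρ A.ep (ty X d z) = ty X d z := by rw [← A.ty_comm, h1]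
  have g2 : A.ρ B.ep (ty X d z) = 0 := by rw [← A.ty_comm, h2, map_zero]
  have g3 := A.rho_PT hz
  by_cases hd : Even (d - 0 + n)
  · rw [if_pos hd] at g3
    refine clash A B Φ hΦ hd hz (Or.inl ⟨g1, ?_⟩)
    have h3 : B.em = A.L.PT - B.ep := by rw [hPT, ← B.ep_em]; abel
    rw [h3, map_sub, LinearMap.sub_apply, g2, g3, sub_zero]
  · rw [if_neg hd] at g3
    rw [← g1, ← A.ep_PT, map_mul, Module.End.mul_apply, g3, map_zero]

theorem inertia2 (z : X.R) (h1 : A.ρ B.ep z = z) (h2 : A.ρ A.ep z = 0) : z = 0 := by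
  classical
  have hPT := PT_eq A B Φ hΦ
  refine eq_zero_of_ty X fun d => ?_
  have hz := ty_mem X d z
  have g1 : A.ρ B.ep (ty X d z) = ty X d z := by rw [← A.ty_comm, h1]
  have g2 : A.ρ A.ep (ty X d z) = 0 := by rw [← A.ty_comm, h2, map_zero]
  have g3 := A.rho_PT hz
  by_cases hd : Even (d - 0 + n)
  · rw [if_pos hd] at g3
    refine clash A B Φ hΦ hd hz (Or.inr ⟨?_, g1⟩)
    have h3 : A.em = A.L.PT - A.ep := by rw [← A.ep_em]; abel
    rw [h3, map_sub, LinearMap.sub_apply, g2, g3, sub_zero]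
  · rw [if_neg hd] at g3
    rw [← g1, ← B.ep_PT, ← hPT, map_mul, Module.End.mul_apply, g3, map_zero]

variable [FiniteDimensional ℚ E]

theorem t_ep_eq (S : Submodule E E) : tS S A.ep = tS S B.ep :=
  le_antisymm (tS_le A.ρ A.inj A.ep_ep B.ep_ep (inertia1 A B Φ hΦ) S)
    (tS_le A.ρ A.inj B.ep_ep A.ep_ep (inertia2 A B Φ hΦ) S)

omit hΦ in
theorem t_ep (S : Submodule E E) : tS S A.ep = tS S (A.L.p n) + 2 * A.L.mM (tS S) n := by
  have h1 : tS S A.ep = tS S A.up := by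
    unfold Act.ep
    rw [tS_mul, ← mul_assoc, A.s_s', one_mul]
  rw [h1]
  unfold Act.up
  rw [map_rat_smul, map_add]
  unfold Act.K
  have h2 := A.L.t_W (tS S) (tS_mul S)
  have h3 := A.L.t_even (tS S) (tS_mul S)
  have h4 := A.L.t_v_eq (tS S) (tS_mul S) n le_rfl
  show (1 / 2 : ℚ) • (tS S (A.L.pD (fun m => (m + n) % 2 = 0)) +
    tS S (A.L.W * A.L.pD (fun m => (m + n) % 2 = 0))) = _
  rw [h2, h3, h4, smul_eq_mul]
  ring

theorem core2 (S : Submodule E E) : tS S (A.L.p n) + 2 * A.L.mM (tS S) n =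
    tS S (B.L.p n) + 2 * B.L.mM (tS S) n := by
  rw [← t_ep A, ← t_ep B, t_ep_eq A B Φ hΦ]

theorem core1 (S : Submodule E E) : A.L.nN (tS S) n = B.L.nN (tS S) n := by
  have h1 := A.L.t_even (tS S) (tS_mul S)
  have h2 := B.L.t_even (tS S) (tS_mul S)
  have h3 := core2 A B Φ hΦ S
  have h4 : tS S (A.L.pD (fun m => (m + n) % 2 = 0)) = tS S (B.L.pD (fun m => (m + n) % 2 = 0)) :=
    congrArg _ (PT_eq A B Φ hΦ)
  rw [h1, h2] at h4
  linarith

omit hΦ in
theorem t_odd' (S : Submodule E E) :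
    2 * ∑ j ∈ (Finset.range n).filter (fun j => (n - j) % 2 = 1), tS S (A.L.p j) =
      tS S 1 - tS S A.L.PT := by
  rw [← A.L.t_odd (tS S) (tS_mul S), ← map_sub]
  congr 1
  rw [eq_sub_iff_add_eq]
  show A.L.pD _ + A.L.pD _ = 1
  unfold Lef.pD
  rw [← A.L.sum, ← Finset.sum_union]
  · refine Finset.sum_congr ?_ fun _ _ => rfl
    ext m
    simp only [Finset.mem_union, Finset.mem_filter, Finset.mem_range]
    omega
  · rw [Finset.disjoint_left]
    intro j hj hj2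
    rw [Finset.mem_filter] at hj hj2
    omega

theorem core3 (S : Submodule E E) :
    ∑ j ∈ (Finset.range n).filter (fun j => (n - j) % 2 = 1), tS S (A.L.p j) =
      ∑ j ∈ (Finset.range n).filter (fun j => (n - j) % 2 = 1), tS S (B.L.p j) := by
  have h1 := t_odd' A S
  have h2 := t_odd' B S
  rw [PT_eq A B Φ hΦ] at h1
  linarith

end two

end Pool.Agent.R941.OH
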