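import Pool.Agent.R941.OH.Pos

/-!
# The form `∫ x^∨ bar y` and the star operator
-/

set_option autoImplicit false

open scoped ComplexConjugate
open Module Pool.Agent.W539.DI

namespace Pool.Agent.R941.OH

variable {n : ℕ} (X : KRing n)

/-- the Mukai form without the factor `exp (c₁ / 2)` -/
noncomputable def F (x y : X.R) : ℂ := X.tr (X.dual x * X.bar y)

theorem F_add_left (x y z : X.R) : F X (x + y) z = F X x z + F X y z := by
  unfold F
  rw [map_add, add_mul, map_add]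

theorem F_add_right (x y z : X.R) : F X x (y + z) = F X x y + F X x z := by
  unfold F
  rw [map_add, mul_add, map_add]

theorem F_smul_left (a : ℂ) (x y : X.R) : F X (a • x) y = a * F X x y := by
  unfold F
  rw [map_smul, smul_mul_assoc, map_smul, smul_eq_mul]

theorem F_smul_right (a : ℂ) (x y : X.R) : F X x (a • y) = conj a * F X x y := by
  unfold F
  rw [LinearMap.map_smulₛₗ, mul_smul_comm, map_smul, smul_eq_mul]

theorem F_zero_left (y : X.R) : F X 0 y = 0 := by
  have := F_smul_left X 0 0 y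
  simpa using this

theorem F_zero_right (y : X.R) : F X y 0 = 0 := by
  have := F_smul_right X 0 y 0
  simpa using this

/-- additive map `x ↦ F x y` -/
noncomputable def FL (y : X.R) : X.R →+ ℂ where
  toFun := fun x => F X x y
  map_zero' := F_zero_left X y
  map_add' := fun a b => F_add_left X a b y

/-- additive map `y ↦ F x y` -/
noncomputable def FR (x : X.R) : X.R →+ ℂ where
  toFun := fun y => F X x y
  map_zero' := F_zero_right X x
  map_add' := fun a b => F_add_right X x a b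

theorem F_of {p q : ℤ} {x : X.R} (hx : x ∈ X.H (p, q)) (y : X.R) :
    F X x y = Complex.I ^ (p + q) * X.tr (x * X.bar y) := by
  unfold F
  rw [X.dual_of hx, smul_mul_assoc, map_smul, smul_eq_mul]

/-- the sign -/
noncomputable def eps (d : ℤ) : ℂ := (-1 : ℂ) ^ (d * (d - 1) / 2)

theorem neg_one_sq_zpow (t : ℤ) : (-1 : ℂ) ^ t * (-1 : ℂ) ^ t = 1 := by
  rw [← mul_zpow]
  norm_num

theorem eps_sq (d : ℤ) : eps d * eps d = 1 := neg_one_sq_zpow _

theorem eps_cases (d : ℤ) : eps d = 1 ∨ eps d = -1 := by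
  unfold eps
  rcases Int.even_or_odd (d * (d - 1) / 2) with h | h
  · exact Or.inl (Even.neg_one_zpow h)
  · exact Or.inr (Odd.neg_one_zpow h)

theorem eps_conj (d : ℤ) : conj (eps d) = eps d := by
  rcases eps_cases d with h | h <;> rw [h] <;> simp

theorem eps_ne (d : ℤ) : eps d ≠ 0 := by
  rcases eps_cases d with h | h <;> rw [h] <;> simp

theorem I_two (q : ℤ) : Complex.I ^ (2 * q) = (-1 : ℂ) ^ q := by
  rw [zpow_mul]
  congr 1
  rw [show (2 : ℤ) = ((2 : ℕ) : ℤ) from rfl, zpow_natCast, Complex.I_sq]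

theorem sign_eq (p q : ℤ) : Complex.I ^ (p + q) =
    eps (p - q) * (Complex.I ^ (p - q) * (-1 : ℂ) ^ ((p + q) * (p + q - 1) / 2)) := by
  obtain ⟨t, ht⟩ : ∃ t : ℤ, (p - q) * (p - q - 1) = 2 * t := by
    obtain ⟨t, ht⟩ := Int.even_mul_pred_self (p - q)
    exact ⟨t, by rw [ht]; ring⟩
  have h2 : (p + q) * (p + q - 1) = 2 * (t + 2 * (q * (p - q) + q * q) - q) := by
    have : (p + q) * (p + q - 1) = (p - q) * (p - q - 1) +
      2 * (2 * (q * (p - q) + q * q) - q) := by ring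
    rw [this, ht]
    ring
  unfold eps
  rw [ht, h2, Int.mul_ediv_cancel_left _ (by norm_num), Int.mul_ediv_cancel_left _ (by norm_num),
    show (p + q : ℤ) = (p - q) + 2 * q by ring, zpow_add₀ Complex.I_ne_zero, I_two]
  have h3 : (-1 : ℂ) ^ (t + 2 * (q * (p - q) + q * q) - q) = (-1 : ℂ) ^ t * (-1 : ℂ) ^ q := by
    rw [zpow_sub₀ (by norm_num), zpow_add₀ (by norm_num), zpow_mul]
    have h4 : ((-1 : ℂ) ^ (2 : ℤ)) = 1 := by norm_num
    rw [h4, one_zpow, mul_one]
    have h5 := neg_one_sq_zpow q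
    have h6 : (-1 : ℂ) ^ q ≠ 0 := zpow_ne_zero _ (by norm_num)
    field_simp
    rw [sq, h5]
  rw [h3]
  have h7 := neg_one_sq_zpow t
  linear_combination (-(Complex.I ^ (p - q) * (-1 : ℂ) ^ q)) * h7

theorem W_low {m k : ℕ} (hk : m + k = n) {p q : ℤ} (hpq : p + q = m) {x : X.R}
    (hx : x ∈ X.H (p, q)) : (lef X).W x = X.ω ^ k * (lef X).v m x := by
  have h1 : dg X m x = x := by rw [dg_of X hx, if_pos hpq]
  have h2 : (lef X).W * (lef X).p m = (lef X).o ^ k * (lef X).v m := by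
    rcases Nat.eq_zero_or_pos k with h | h
    · have h3 : m = n := by omega
      rw [h3, (lef X).W_p_mid, h, pow_zero, one_mul]
    · have h3 : m = n - k := by omega
      rw [h3, (lef X).W_p_low h (by omega)]
      rfl
  have h3 := congrArg (fun g : Module.End ℂ X.R => g x) h2
  simp only [Module.End.mul_apply] at h3
  have h4 : (lef X).p m x = x := h1
  rw [h4] at h3
  rw [h3]
  exact mu_pow X X.ω k _

theorem W_high {m k : ℕ} (hk : m + k = n) (h0 : 0 < k) {p q : ℤ} (hpq : p + q = m) {x : X.R}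
    (hx : x ∈ X.H (p + k, q + k)) :
    (lef X).W x = (-1 : ℂ) ^ k • (lef X).v m (kap X k x) := by
  have h1 : dg X (n + k) x = x := by
    rw [dg_of X hx, if_pos (by push_cast; omega)]
  have h2 := (lef X).W_p_high h0 (show k ≤ n by omega)
  have h3 := congrArg (fun g : Module.End ℂ X.R => g x) h2
  simp only [Module.End.mul_apply] at h3
  have h4 : (lef X).p (n + k) x = x := h1
  rw [h4] at h3
  rw [h3]
  have h5 : ∀ (j : ℕ) (z : X.R), ((-1 : Module.End ℂ X.R) ^ j) z = (-1 : ℂ) ^ j • z := by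
    intro j
    induction j with
    | zero => intro z; simp
    | succ j ih =>
      intro z
      rw [pow_succ, Module.End.mul_apply, ih, pow_succ, mul_smul]
      simp
  rw [h5]
  congr 1
  show ((lef X).v (n - k) * kap X k) x = _
  rw [show n - k = m by omega]
  rfl

theorem v_v_of {m : ℕ} (hm : m ≤ n) {p q : ℤ} (hpq : p + q = m) {x : X.R}
    (hx : x ∈ X.H (p, q)) : (lef X).v m ((lef X).v m x) = x := by
  have h := (lef X).v_v m hm
  have h3 := congrArg (fun g : Module.End ℂ X.R => g x) h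
  simp only [Module.End.mul_apply] at h3
  rw [h3]
  show dg X m x = x
  rw [dg_of X hx, if_pos hpq]

theorem F_pos_low {m k : ℕ} (hk : m + k = n) {p q : ℤ} (hpq : p + q = m) {x : X.R}
    (hx : x ∈ X.H (p, q)) (hne : x ≠ 0) :
    ∃ r : ℝ, 0 < r ∧ F X x ((lef X).W x) = eps (p - q) * r := by
  obtain ⟨r, hr, he⟩ := S_pos X m k hk p q hpq x hx hne
  refine ⟨r, hr, ?_⟩
  rw [W_low X hk hpq hx, F_of X hx, X.bar_pow, ← he, sign_eq p q]
  unfold KRing.S
  have : x * (X.ω ^ k * X.bar ((lef X).v m x)) = X.ω ^ k * (x * X.bar ((lef X).v m x)) := by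
    rw [← mul_assoc, ← X.pow_central k x, mul_assoc]
  rw [this]
  ring

theorem F_pos (p q : ℤ) {x : X.R} (hx : x ∈ X.H (p, q)) (hne : x ≠ 0) :
    ∃ r : ℝ, 0 < r ∧ F X x ((lef X).W x) = eps (p - q) * r := by
  have hr : ¬ (p < 0 ∨ q < 0 ∨ (n : ℤ) < p ∨ (n : ℤ) < q) := fun h => hne (zero_of X h hx)
  by_cases hm : p + q ≤ n
  · obtain ⟨m, hm1⟩ : ∃ m : ℕ, p + q = m := ⟨(p + q).toNat, by omega⟩
    exact F_pos_low X (m := m) (k := n - m) (by omega) hm1 hx hne
  obtain ⟨k, hk1⟩ : ∃ k : ℕ, p + q = n + k := ⟨(p + q - n).toNat, by omega⟩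
  have hk0 : 0 < k := by omega
  have hkn : k ≤ n := by omega
  obtain ⟨m, hm1⟩ : ∃ m : ℕ, m + k = n := ⟨n - k, by omega⟩
  have hpq' : (p - k) + (q - k) = m := by omega
  have e : ((p, q) : ℤ × ℤ) = (p - k + k, q - k + k) := by simp
  have hx' : x ∈ X.H (p - k + k, q - k + k) := by rw [← e]; exact hx
  set y := (lef X).v m (kap X k x) with hy
  have hκ : kap X k x ∈ X.H (p - k, q - k) := kap_mem X (by omega) hx'
  have hym : y ∈ X.H (p - k, q - k) := v_mem X m (by omega) _ _ hpq' _ hκ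
  have hWx : (lef X).W x = (-1 : ℂ) ^ k • y := W_high X hm1 hk0 hpq' hx'
  have hWy : (lef X).W y = x := by
    rw [W_low X hm1 hpq' hym, hy, v_v_of X (by omega) hpq' hκ]
    exact om_kap X (by omega) hx'
  have hyne : y ≠ 0 := by
    intro h0
    apply hne
    rw [← hWy, h0, map_zero]
  obtain ⟨r, hr, he⟩ := F_pos_low X hm1 hpq' hym hyne
  refine ⟨r, hr, ?_⟩
  rw [hWx, F_smul_right, F_of X hx]
  rw [hWy, F_of X hym] at he
  have h1 : conj (X.tr (y * X.bar x)) = (-1 : ℂ) ^ ((p - k + (q - k)) * (p + q)) *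
      X.tr (x * X.bar y) := by
    rw [← X.tr_bar, X.bar_mul, X.bar_bar, X.comm _ _ _ _ _ _ (X.bar_mem _ _ _ hym) hx, map_smul,
      smul_eq_mul]
    congr 2
    ring
  have h2 := congrArg conj he
  rw [RingHom.map_mul, RingHom.map_mul, h1, I_zpow_conj, eps_conj, Complex.conj_ofReal] at h2
  have hd : (p - k - (q - k) : ℤ) = p - q := by ring
  rw [hd] at h2
  have hA : (-1 : ℂ) ^ ((k : ℤ)) * Complex.I ^ (p + q) =
      (-1 : ℂ) ^ (p - k + (q - k)) * Complex.I ^ (p - k + (q - k)) *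
        (-1 : ℂ) ^ ((p - k + (q - k)) * (p + q)) := by
    have e1 : (p + q : ℤ) = (p - k + (q - k)) + 2 * k := by ring
    have e2 : Complex.I ^ (p + q) = Complex.I ^ (p - k + (q - k)) * (-1 : ℂ) ^ (k : ℤ) := by
      conv_lhs => rw [e1, zpow_add₀ Complex.I_ne_zero, I_two]
    rw [e2]
    have e3 : (-1 : ℂ) ^ ((p - k + (q - k)) * (p + q)) = (-1 : ℂ) ^ (p - k + (q - k)) := by
      have h5 : Even ((p - k + (q - k)) * (p + q) - (p - k + (q - k))) := by
        have : (p - k + (q - k)) * (p + q) - (p - k + (q - k)) =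
          (p + q) * (p + q - 1) - 2 * (k * (p + q) - k) := by ring
        rw [this]
        exact Even.sub (Int.even_mul_pred_self _) ⟨k * (p + q) - k, by ring⟩
      have h6 := Even.neg_one_zpow (α := ℂ) h5
      rw [zpow_sub₀ (by norm_num)] at h6
      have h7 : (-1 : ℂ) ^ (p - k + (q - k)) ≠ 0 := zpow_ne_zero _ (by norm_num)
      field_simp at h6
      exact h6
    rw [e3]
    have f1 := neg_one_sq_zpow (k : ℤ)
    have f2 := neg_one_sq_zpow (p - k + (q - k))
    linear_combination (Complex.I ^ (p - k + (q - k))) * f1 -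
      (Complex.I ^ (p - k + (q - k))) * f2
  have hconj : conj ((-1 : ℂ) ^ k) = (-1 : ℂ) ^ (k : ℤ) := by
    rw [map_pow, map_neg, map_one, zpow_natCast]
  rw [hconj, ← mul_assoc, hA, ← h2]
  ring

theorem W_mem {p q : ℤ} {x : X.R} (hx : x ∈ X.H (p, q)) :
    (lef X).W x ∈ X.H (n - q, n - p) := by
  by_cases hz : p < 0 ∨ q < 0 ∨ (n : ℤ) < p ∨ (n : ℤ) < q
  · rw [zero_of X hz hx, map_zero]
    exact Submodule.zero_mem _
  by_cases hm : p + q ≤ n
  · obtain ⟨m, hm1⟩ : ∃ m : ℕ, p + q = m := ⟨(p + q).toNat, by omega⟩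
    obtain ⟨k, hk⟩ : ∃ k : ℕ, m + k = n := ⟨n - m, by omega⟩
    rw [W_low X hk hm1 hx]
    have h1 := X.pow_mul_mem X.ω_mem k (v_mem X m (by omega) _ _ hm1 _ hx)
    have e : ((p + (k : ℤ), q + (k : ℤ)) : ℤ × ℤ) = ((n : ℤ) - q, (n : ℤ) - p) := by
      ext <;> simp <;> omega
    rwa [e] at h1
  · obtain ⟨k, hk1⟩ : ∃ k : ℕ, p + q = n + k := ⟨(p + q - n).toNat, by omega⟩
    obtain ⟨m, hm1⟩ : ∃ m : ℕ, m + k = n := ⟨n - k, by omega⟩
    have hpq' : (p - k) + (q - k) = m := by omega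
    have hx' : x ∈ X.H (p - k + k, q - k + k) := by simpa using hx
    have e : (((n : ℤ) - q, (n : ℤ) - p) : ℤ × ℤ) = (p - k, q - k) := by
      ext <;> simp <;> omega
    rw [W_high X hm1 (by omega) hpq' hx', e]
    exact Submodule.smul_mem _ _ (v_mem X m (by omega) _ _ hpq' _ (kap_mem X (by omega) hx'))

/-- classes of type `(a + k, b + k)` for some `k` -/
def typ (a b : ℤ) : Submodule ℂ X.R := ⨆ k : ℤ, X.H (a + k, b + k)

theorem mem_typ {p q : ℤ} {x : X.R} (hx : x ∈ X.H (p, q)) : x ∈ typ X p q := by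
  have h := le_iSup (fun k : ℤ => X.H (p + k, q + k)) 0
  have h1 : x ∈ X.H (p + 0, q + 0) := by simpa using hx
  exact h h1

theorem F_sum_aux (a b : ℤ) (s : Finset ℤ) (f : ℤ → X.R) (hf : ∀ k, f k ∈ X.H (a + k, b + k)) :
    F X (∑ k ∈ s, f k) ((lef X).W (∑ k ∈ s, f k)) = ∑ k ∈ s, F X (f k) ((lef X).W (f k)) := by
  have h1 : F X (∑ k ∈ s, f k) ((lef X).W (∑ k ∈ s, f k)) =
      ∑ k ∈ s, F X (f k) ((lef X).W (∑ l ∈ s, f l)) := map_sum (FL X _) f s
  rw [h1]
  refine Finset.sum_congr rfl fun k hk => ?_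
  rw [map_sum]
  have h2 : F X (f k) (∑ l ∈ s, (lef X).W (f l)) = ∑ l ∈ s, F X (f k) ((lef X).W (f l)) :=
    map_sum (FR X (f k)) _ s
  rw [h2]
  refine Finset.sum_eq_single_of_mem k hk fun l _ hl => ?_
  rw [F_of X (hf k), X.tr_van (a + k + (n - (a + l))) (b + k + (n - (b + l))) _
    (X.mul_mem (hf k) (X.bar_mem _ _ _ (W_mem X (hf l)))) (by omega), mul_zero]

theorem F_typ {a b : ℤ} {x : X.R} (hx : x ∈ typ X a b) : ∃ r : ℝ, 0 ≤ r ∧ (x ≠ 0 → 0 < r) ∧
    F X x ((lef X).W x) = eps (a - b) * r := by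
  classical
  unfold typ at hx
  rw [Submodule.mem_iSup_iff_exists_finsupp] at hx
  obtain ⟨f, hf, rfl⟩ := hx
  have h1 : ∀ k : ℤ, ∃ r : ℝ, 0 ≤ r ∧ (f k ≠ 0 → 0 < r) ∧
      F X (f k) ((lef X).W (f k)) = eps (a - b) * r := by
    intro k
    by_cases h0 : f k = 0
    · refine ⟨0, le_rfl, fun h => absurd h0 h, ?_⟩
      rw [h0, F_zero_left]
      simp
    · obtain ⟨r, hr, he⟩ := F_pos X _ _ (hf k) h0
      refine ⟨r, hr.le, fun _ => hr, ?_⟩
      rw [he]
      congr 2
      ring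
  choose r hr hr' he using h1
  have h2 : F X (f.sum fun _ y => y) ((lef X).W (f.sum fun _ y => y)) =
      ∑ k ∈ f.support, F X (f k) ((lef X).W (f k)) := F_sum_aux X a b f.support f hf
  refine ⟨∑ k ∈ f.support, r k, Finset.sum_nonneg fun k _ => hr k, ?_, ?_⟩
  · intro hne
    have : f.support.Nonempty := by
      rw [Finset.nonempty_iff_ne_empty]
      intro h0
      apply hne
      rw [Finsupp.sum, h0, Finset.sum_empty]
    exact Finset.sum_pos (fun k hk => hr' k (Finsupp.mem_support_iff.1 hk)) this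
  · rw [h2]
    push_cast
    rw [Finset.mul_sum]
    exact Finset.sum_congr rfl fun k _ => he k

theorem F_herm {a b : ℤ} {x y : X.R} (hx : x ∈ typ X a b) (hy : y ∈ typ X a b) :
    F X y ((lef X).W x) = conj (F X x ((lef X).W y)) := by
  obtain ⟨r1, -, -, h1⟩ := F_typ X (Submodule.add_mem _ hx hy)
  obtain ⟨r2, -, -, h2⟩ := F_typ X (Submodule.add_mem _ hx (Submodule.smul_mem _ Complex.I hy))
  obtain ⟨r3, -, -, h3⟩ := F_typ X hx
  obtain ⟨r4, -, -, h4⟩ := F_typ X hy
  rw [map_add, F_add_left, F_add_right, F_add_right, h3, h4] at h1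
  rw [map_add, F_add_left, F_add_right, F_add_right, map_smul, F_smul_left, F_smul_left,
    F_smul_right, F_smul_right, h3, h4, Complex.conj_I] at h2
  set A := F X x ((lef X).W y)
  set B := F X y ((lef X).W x)
  rcases eps_cases (a - b) with he | he
  · rw [he] at h1 h2
    have i1 := congrArg Complex.im h1
    have i2 := congrArg Complex.im h2
    simp at i1 i2
    apply Complex.ext
    · simp
      linarith
    · simp
      linarith
  · rw [he] at h1 h2
    have i1 := congrArg Complex.im h1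
    have i2 := congrArg Complex.im h2
    simp at i1 i2
    apply Complex.ext
    · simp
      linarith
    · simp
      linarith

end Pool.Agent.R941.OH
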