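import Pool.Agent.R941.OH.Rat

/-!
# Rational Hodge structures: the algebra of all rational operators which respect the types
-/

set_option autoImplicit false

open scoped ComplexConjugate
open Module Pool.Agent.W539.DI

namespace Pool.Agent.R941.OH

variable {n : ℕ} (X : KRing n)

/-! ### Poincaré duality and transposes -/

theorem tr_pr (p q : ℤ) {y : X.R} (hy : y ∈ X.H (n - p, n - q)) (x : X.R) :
    X.tr (pr X p q x * y) = X.tr (x * y) := by
  refine X.ind (P := fun x => X.tr (pr X p q x * y) = X.tr (x * y)) ?_ ?_ ?_ x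
  · simp
  · intro x z hx hz
    rw [map_add, add_mul, add_mul, map_add, map_add, hx, hz]
  · intro a b x hx
    unfold pr
    rw [diag_of X _ hx]
    split_ifs with h
    · rw [one_smul]
    · rw [zero_smul, zero_mul, map_zero]
      symm
      refine X.tr_van _ _ _ (X.mul_mem hx hy) ?_
      intro h2
      apply h
      ext <;> simp <;> omega

theorem nd_left {x : X.R} (h : ∀ y, X.tr (x * y) = 0) : x = 0 := by
  refine eq_zero_of_pr X fun p q => ?_
  refine X.pd p q _ (pr_mem X p q x) fun y hy => ?_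
  rw [tr_pr X p q hy, h]

theorem nd_right {y : X.R} (h : ∀ x, X.tr (x * y) = 0) : y = 0 := by
  refine eq_zero_of_pr X fun p q => ?_
  refine X.pd p q _ (pr_mem X p q y) fun x hx => ?_
  rw [X.comm _ _ _ _ _ _ (pr_mem X p q y) hx, map_smul]
  have h1 : X.tr (x * pr X p q y) = X.tr (x * y) := by
    refine X.ind (P := fun y => X.tr (x * pr X p q y) = X.tr (x * y)) ?_ ?_ ?_ y
    · simp
    · intro x z hx hz
      rw [map_add, mul_add, mul_add, map_add, map_add, hx, hz]
    · intro a b z hz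
      unfold pr
      rw [diag_of X _ hz]
      split_ifs with h
      · rw [one_smul]
      · rw [zero_smul, mul_zero, map_zero]
        symm
        refine X.tr_van _ _ _ (X.mul_mem hx hz) ?_
        intro h2
        apply h
        ext <;> simp <;> omega
  rw [h1, h, smul_zero]

/-- `y ↦ (x ↦ ∫ x y)` -/
noncomputable def Br : X.R →ₗ[ℂ] Module.Dual ℂ X.R :=
  ((LinearMap.mul ℂ X.R).compr₂ X.tr).flip

theorem Br_apply (x y : X.R) : Br X y x = X.tr (x * y) := rfl

theorem Br_inj : Function.Injective (Br X) := by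
  rw [injective_iff_map_eq_zero]
  intro y hy
  refine nd_right X fun x => ?_
  rw [← Br_apply, hy]
  rfl

noncomputable def Beq : X.R ≃ₗ[ℂ] Module.Dual ℂ X.R :=
  LinearEquiv.ofInjectiveOfFinrankEq (Br X) (Br_inj X) (Subspace.dual_finrank_eq).symm

theorem Beq_apply (x y : X.R) : Beq X y x = X.tr (x * y) := rfl

/-- the transpose for the intersection pairing -/
noncomputable def tp (a : Module.End ℂ X.R) : Module.End ℂ X.R :=
  (Beq X).symm.toLinearMap ∘ₗ a.dualMap ∘ₗ (Beq X).toLinearMap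

theorem tp_spec (a : Module.End ℂ X.R) (x y : X.R) : X.tr (x * tp X a y) = X.tr (a x * y) := by
  rw [← Beq_apply]
  unfold tp
  simp only [LinearMap.comp_apply, LinearEquiv.coe_coe, LinearEquiv.apply_symm_apply,
    LinearMap.dualMap_apply]
  rfl

theorem ty_adj (d : ℤ) (x y : X.R) : X.tr (x * ty X d y) = X.tr (ty X (-d) x * y) := by
  refine X.ind (P := fun x => X.tr (x * ty X d y) = X.tr (ty X (-d) x * y)) ?_ ?_ ?_ x
  · simp
  · intro x z hx hz
    rw [map_add, add_mul, add_mul, map_add, map_add, hx, hz]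
  · intro a b x hx
    refine X.ind (P := fun y => X.tr (x * ty X d y) = X.tr (ty X (-d) x * y)) ?_ ?_ ?_ y
    · simp
    · intro x z hx hz
      rw [map_add, mul_add, mul_add, map_add, map_add, hx, hz]
    · intro p q y hy
      rw [ty_of X (mem_typ X hx), ty_of X (mem_typ X hy)]
      by_cases h : a + p = n ∧ b + q = n
      · by_cases h2 : p - q = d
        · rw [if_pos h2, if_pos (by omega)]
        · rw [if_neg h2, if_neg (by omega)]
          simp
      · have h3 : X.tr (x * y) = 0 := X.tr_van _ _ _ (X.mul_mem hx hy) h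
        split_ifs <;> simp [h3]

theorem tr_ty {d e : ℤ} (h : d + e ≠ 0) {x y : X.R} (hx : x ∈ typ X d 0) (hy : y ∈ typ X e 0) :
    X.tr (x * y) = 0 := by
  have h1 : ty X e y = y := by rw [ty_of X hy, if_pos (by ring)]
  rw [← h1, ty_adj, ty_of X hx, if_neg (by omega), zero_mul, map_zero]

theorem typ_zero (p q : ℤ) : typ X (p - q) 0 = typ X p q := by
  have h := typ_shift X (p - q) 0 q
  have e1 : p - q + q = p := by ring
  rw [e1, zero_add] at h
  exact h.symm

theorem typeOp_tp {a : Module.End ℂ X.R} (ha : TypeOp (X := X) a) : TypeOp (X := X) (tp X a) := by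
  intro p q y hy
  set w := tp X a y with hw
  have hyt : y ∈ typ X (p - q) 0 := by rw [typ_zero]; exact mem_typ X hy
  have h1 : ∀ d, d ≠ p - q → ty X d w = 0 := by
    intro d hd
    refine nd_right X fun x => ?_
    rw [ty_adj, hw, tp_spec]
    exact tr_ty X (d := -d) (e := p - q) (by omega) (typeOp_mem ha (ty_mem X (-d) x)) hyt
  have h2 : w = ty X (p - q) w := by
    rw [← sub_eq_zero]
    refine eq_zero_of_ty X fun d => ?_
    rw [map_sub, ty_of X (ty_mem X (p - q) w) d]
    by_cases hd : d = p - q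
    · rw [if_pos (by omega), hd, sub_self]
    · rw [if_neg (by omega), h1 d hd, sub_zero]
  rw [h2, ← typ_zero]
  exact ty_mem X _ _

variable {X} (r : RatStr X)

theorem ratOp_tp {a : Module.End ℂ X.R} (ha : RatOp r r a) : RatOp r r (tp X a) := by
  intro y hy
  set w := tp X a y with hw
  have h1 : ret r w = w := by
    have h2 : Br X (ret r w) = Br X w := by
      refine r.e.ext fun i => ?_
      rw [Br_apply, Br_apply]
      have h3 : ∀ j, ∃ q : ℚ, (X.tr ∘ₗ LinearMap.mulLeft ℂ (r.e i)) (r.e j) = q := fun j =>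
        rat_tr r (rat_mul r (rat_e r i) (rat_e r j))
      have h4 := ret_fun r h3 w
      simp only [LinearMap.comp_apply, LinearMap.mulLeft_apply] at h4
      rw [h4, hw, tp_spec]
      obtain ⟨q, hq⟩ := rat_tr r (rat_mul r (ha _ (rat_e r i)) hy)
      rw [hq, retr_rat]
    exact Br_inj X h2
  rw [← h1]
  exact ret_rat r w

theorem bar_op {a : Module.End ℂ X.R} (ha : RatOp r r a) (x : X.R) :
    X.bar (a x) = a (X.bar x) := by
  conv_lhs => rw [← r.e.sum_repr x]
  conv_rhs => rw [← r.e.sum_repr x]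
  rw [map_sum, map_sum, map_sum, map_sum]
  refine Finset.sum_congr rfl fun i _ => ?_
  rw [map_smul, LinearMap.map_smulₛₗ, LinearMap.map_smulₛₗ, r.real, map_smul,
    rat_bar r (ha _ (rat_e r i))]

/-- the sign `(-1) ^ ⌊m / 2⌋` in degree `m` -/
noncomputable def jj (X : KRing n) : Module.End ℂ X.R :=
  diag X (fun pq => (-1 : ℂ) ^ ((pq.1 + pq.2) / 2))

theorem jj_jj (X : KRing n) : jj X * jj X = 1 := by
  unfold jj
  rw [diag_mul, ← diag_one]
  congr 1
  funext pq
  exact neg_one_sq_zpow _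

theorem jj_mem {m : ℤ} {x : X.R} (hx : x ∈ ⨆ p : ℤ, X.H (p, m - p)) :
    jj X x = (-1 : ℂ) ^ (m / 2) • x := by
  refine Submodule.iSup_induction (p := fun p : ℤ => X.H (p, m - p))
    (motive := fun x => jj X x = (-1 : ℂ) ^ (m / 2) • x) hx ?_ ?_ ?_
  · intro p x hx
    unfold jj
    rw [diag_of X _ hx]
    have e : (p + (m - p) : ℤ) = m := by ring
    simp only [e]
  · simp
  · intro x y hx hy
    rw [map_add, hx, hy, smul_add]

theorem ratOp_jj : RatOp r r (jj X) := by
  refine ratOp_of_basis r fun i => ?_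
  obtain ⟨k, hk⟩ := r.homog i
  rw [jj_mem hk]
  have h : (-1 : ℂ) ^ (k / 2) = (((-1 : ℚ) ^ (k / 2) : ℚ) : ℂ) := by push_cast; rfl
  rw [h]
  exact rat_smul r _ (rat_e r i)

theorem typeOp_jj : TypeOp (X := X) (jj X) := by
  intro p q x hx
  unfold jj
  rw [diag_of X _ hx]
  exact Submodule.smul_mem _ _ (mem_typ X hx)

theorem dual_typ {p q : ℤ} {x : X.R} (hx : x ∈ typ X p q) :
    X.dual x = Complex.I ^ ((p + q) % 2) • jj X x := by
  unfold typ at hx
  refine Submodule.iSup_induction (p := fun k : ℤ => X.H (p + k, q + k))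
    (motive := fun x => X.dual x = Complex.I ^ ((p + q) % 2) • jj X x) hx ?_ ?_ ?_
  · intro k x hx
    unfold jj
    rw [X.dual_of hx, diag_of X _ hx, smul_smul]
    congr 1
    rw [← I_two, ← zpow_add₀ Complex.I_ne_zero]
    congr 1
    simp only
    omega
  · simp
  · intro x y hx hy
    rw [map_add, map_add, hx, hy, smul_add]

theorem dual_conj {a : Module.End ℂ X.R} (ha : TypeOp (X := X) a) (x : X.R) :
    X.dual (a x) = (jj X * a * jj X) (X.dual x) := by
  refine X.ind (P := fun x => X.dual (a x) = (jj X * a * jj X) (X.dual x)) ?_ ?_ ?_ x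
  · simp
  · intro x y hx hy
    rw [map_add a, map_add X.dual, hx, hy, map_add X.dual, map_add (jj X * a * jj X)]
  · intro p q x hx
    rw [dual_typ (ha p q x hx), dual_typ (mem_typ X hx), map_smul, Module.End.mul_apply,
      Module.End.mul_apply, ← Module.End.mul_apply (jj X) (jj X), jj_jj]
    rfl

theorem good_adj {a : Module.End ℂ X.R} (ha : RatOp r r a) (ha' : TypeOp (X := X) a) :
    ∃ b : Module.End ℂ X.R, RatOp r r b ∧ TypeOp (X := X) b ∧
      ∀ x y, F X (a x) y = F X x (b y) := by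
  have h1 : RatOp r r (jj X * a * jj X) :=
    ratOp_comp r (ratOp_comp r (ratOp_jj r) ha) (ratOp_jj r)
  have h2 : TypeOp (X := X) (jj X * a * jj X) :=
    typeOp_comp (typeOp_comp typeOp_jj ha') typeOp_jj
  refine ⟨tp X (jj X * a * jj X), ratOp_tp r h1, typeOp_tp X h2, fun x y => ?_⟩
  unfold F
  rw [dual_conj ha', ← tp_spec, bar_op r (ratOp_tp r h1)]

/-! ### The algebra -/

/-- the operator with a rational matrix -/
noncomputable def toOp : Matrix r.ι r.ι ℚ →+* Module.End ℂ X.R :=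
  ((Matrix.toLinAlgEquiv r.e) : Matrix r.ι r.ι ℂ →+* Module.End ℂ X.R).comp
    ((algebraMap ℚ ℂ).mapMatrix)

theorem toOp_e (M : Matrix r.ι r.ι ℚ) (i : r.ι) :
    toOp r M (r.e i) = ∑ j, ((M j i : ℚ) : ℂ) • r.e j := by
  show Matrix.toLinAlgEquiv r.e (M.map (algebraMap ℚ ℂ)) (r.e i) = _
  rw [Matrix.toLinAlgEquiv_self]
  rfl

theorem toOp_inj : Function.Injective (toOp r) := by
  intro M N h
  have h1 : Matrix.toLinAlgEquiv r.e (M.map (algebraMap ℚ ℂ)) =
      Matrix.toLinAlgEquiv r.e (N.map (algebraMap ℚ ℂ)) := h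
  exact Matrix.map_injective (algebraMap ℚ ℂ).injective ((Matrix.toLinAlgEquiv r.e).injective h1)

theorem ratOp_toOp (M : Matrix r.ι r.ι ℚ) : RatOp r r (toOp r M) := by
  refine ratOp_of_basis r fun i => ?_
  rw [toOp_e]
  exact rat_sum r _ _ fun j _ => rat_smul r _ (rat_e r j)

theorem exists_mat {a : Module.End ℂ X.R} (ha : RatOp r r a) : ∃ M, toOp r M = a := by
  have h1 : ∀ i j, ∃ q : ℚ, r.e.repr (a (r.e i)) j = q := fun i => ha _ (rat_e r i)
  choose q hq using h1
  refine ⟨Matrix.of fun j i => q i j, ?_⟩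
  refine r.e.ext fun i => ?_
  rw [toOp_e]
  conv_rhs => rw [← r.e.sum_repr (a (r.e i))]
  exact Finset.sum_congr rfl fun j _ => by rw [hq]; rfl

/-- the algebra of endomorphisms of the rational Hodge structure (of all degrees together) -/
noncomputable def EHS : Subalgebra ℚ (Matrix r.ι r.ι ℚ) where
  carrier := {M | TypeOp (X := X) (toOp r M)}
  mul_mem' := fun {a b} ha hb => by
    simp only [Set.mem_ofPred_eq] at *
    rw [map_mul]
    exact typeOp_comp ha hb
  add_mem' := fun {a b} ha hb => by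
    simp only [Set.mem_ofPred_eq] at *
    rw [map_add]
    intro p q x hx
    exact Submodule.add_mem _ (ha p q x hx) (hb p q x hx)
  algebraMap_mem' := fun c => by
    simp only [Set.mem_ofPred_eq]
    intro p q x hx
    have h : toOp r (algebraMap ℚ (Matrix r.ι r.ι ℚ) c) x = (c : ℂ) • x := by
      have := rho_smul (toOp r) c 1 x
      rw [← Algebra.algebraMap_eq_smul_one] at this
      rw [this, map_one]
      rfl
    rw [h]
    exact Submodule.smul_mem _ _ (mem_typ X hx)

/-- its action on the cohomology -/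
noncomputable def rhoX : EHS r →+* Module.End ℂ X.R :=
  (toOp r).comp ((EHS r).val : EHS r →+* Matrix r.ι r.ι ℚ)

theorem rhoX_inj : Function.Injective (rhoX r) := fun M N h =>
  Subtype.ext (toOp_inj r h)

theorem rhoX_rat (M : EHS r) : RatOp r r (rhoX r M) := ratOp_toOp r _

theorem rhoX_type (M : EHS r) : TypeOp (X := X) (rhoX r M) := M.2

theorem exists_EHS {a : Module.End ℂ X.R} (ha : RatOp r r a) (ha' : TypeOp (X := X) a) :
    ∃ M, rhoX r M = a := by
  obtain ⟨M, hM⟩ := exists_mat r ha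
  refine ⟨⟨M, ?_⟩, hM⟩
  show TypeOp (X := X) (toOp r M)
  rw [hM]
  exact ha'

/-- the action of the endomorphisms of the Hodge structure of `X` on the cohomology of `X` -/
theorem exists_actX : ∃ A : Act (EHS r) X, A.ρ = rhoX r := by
  obtain ⟨L, hL⟩ := (lef X).exists_lift (rhoX r) (rhoX_inj r)
    (fun m => exists_EHS r (ratOp_dg r m) (typeOp_dg m))
    (exists_EHS r (ratOp_mu r r.om_rat) (typeOp_mu X.ω_mem))
    (fun k => exists_EHS r (ratOp_kap r k) (typeOp_kap k))
  obtain ⟨c, hc⟩ := exists_EHS r (ratOp_mu r r.c_rat) (typeOp_mu X.c_mem)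
  refine ⟨{ ρ := rhoX r, inj := rhoX_inj r, typ_mem := fun M => rhoX_type r M, L := L, hL := hL,
            c := c, hc := hc, adj := fun a => ?_ }, rfl⟩
  obtain ⟨b, hb, hb', h⟩ := good_adj r (rhoX_rat r a) (rhoX_type r a)
  obtain ⟨N, rfl⟩ := exists_EHS r hb hb'
  exact ⟨N, h⟩

section transport

variable {Y : KRing n} (t : RatStr Y) (Φ : FM X Y) (h1 : RatOp r t (Φ.φ : X.R →ₗ[ℂ] Y.R))
  (h2 : RatOp t r (Φ.φ.symm : Y.R →ₗ[ℂ] X.R))

theorem typeOp_phi : TypeOp (Φ.φ : X.R →ₗ[ℂ] Y.R) := fun _ _ _ hx =>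
  mem_typ_phi Φ (mem_typ X hx)

theorem typeOp_symm : TypeOp (Φ.φ.symm : Y.R →ₗ[ℂ] X.R) := by
  intro p q y hy
  have h := Φ.hodge p q
  have hy' := mem_typ Y hy
  unfold typ at *
  rw [← h] at hy'
  obtain ⟨x, hx, rfl⟩ := hy'
  show Φ.φ.symm (Φ.φ x) ∈ _
  rw [LinearEquiv.symm_apply_apply]
  exact hx

/-- the action on the cohomology of `Y` -/
noncomputable def rhoY : EHS r →+* Module.End ℂ Y.R where
  toFun := fun M => (Φ.φ : X.R →ₗ[ℂ] Y.R) ∘ₗ rhoX r M ∘ₗ (Φ.φ.symm : Y.R →ₗ[ℂ] X.R)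
  map_one' := by
    ext y
    simp
  map_mul' := fun a b => by
    ext y
    simp
  map_zero' := by
    ext y
    simp
  map_add' := fun a b => by
    ext y
    simp

theorem rhoY_apply (M : EHS r) (y : Y.R) : rhoY r Φ M y = Φ.φ (rhoX r M (Φ.φ.symm y)) := rfl

theorem rhoY_inj : Function.Injective (rhoY r Φ) := by
  intro M N h
  apply rhoX_inj r
  ext x
  have h3 := congrArg (fun g : Module.End ℂ Y.R => g (Φ.φ x)) h
  simp only [rhoY_apply, LinearEquiv.symm_apply_apply] at h3
  exact Φ.φ.injective h3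

theorem rhoY_type (M : EHS r) : TypeOp (X := Y) (rhoY r Φ M) :=
  typeOp_comp (typeOp_phi Φ) (typeOp_comp (rhoX_type r M) (typeOp_symm Φ))

include h1 h2

theorem rhoY_rat (M : EHS r) : RatOp t t (rhoY r Φ M) :=
  ratOp_comp t h1 (ratOp_comp t (rhoX_rat r M) h2)

theorem exists_EHS_Y {b : Module.End ℂ Y.R} (hb : RatOp t t b) (hb' : TypeOp (X := Y) b) :
    ∃ M, rhoY r Φ M = b := by
  obtain ⟨M, hM⟩ := exists_EHS r
    (a := (Φ.φ.symm : Y.R →ₗ[ℂ] X.R) ∘ₗ b ∘ₗ (Φ.φ : X.R →ₗ[ℂ] Y.R))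
    (ratOp_comp r h2 (ratOp_comp r hb h1))
    (typeOp_comp (typeOp_symm Φ) (typeOp_comp hb' (typeOp_phi Φ)))
  refine ⟨M, ?_⟩
  ext y
  rw [rhoY_apply, hM]
  simp

theorem exists_actY : ∃ B : Act (EHS r) Y, B.ρ = rhoY r Φ := by
  obtain ⟨L, hL⟩ := (lef Y).exists_lift (rhoY r Φ) (rhoY_inj r Φ)
    (fun m => exists_EHS_Y r t Φ h1 h2 (ratOp_dg t m) (typeOp_dg m))
    (exists_EHS_Y r t Φ h1 h2 (ratOp_mu t t.om_rat) (typeOp_mu Y.ω_mem))
    (fun k => exists_EHS_Y r t Φ h1 h2 (ratOp_kap t k) (typeOp_kap k))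
  obtain ⟨c, hc⟩ := exists_EHS_Y r t Φ h1 h2 (ratOp_mu t t.c_rat) (typeOp_mu Y.c_mem)
  refine ⟨{ ρ := rhoY r Φ, inj := rhoY_inj r Φ, typ_mem := fun M => rhoY_type r Φ M, L := L,
            hL := hL, c := c, hc := hc, adj := fun a => ?_ }, rfl⟩
  obtain ⟨b, hb, hb', h⟩ := good_adj t (rhoY_rat r t Φ h1 h2 a) (rhoY_type r Φ a)
  obtain ⟨N, rfl⟩ := exists_EHS_Y r t Φ h1 h2 hb hb'
  exact ⟨N, h⟩

end transport

end Pool.Agent.R941.OH
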