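import Pool.Agent.R941.OH.Core
import Pool.Agent.R941.OH.Hs
import Pool.Agent.R941.OH.Cay

/-!
# The hermitian Mukai form and its involution
-/

set_option autoImplicit false

open scoped ComplexConjugate
open Module Pool.Agent.W539.DI Polynomial

namespace Pool.Agent.R941.OH

section form

variable {n : ℕ} (X : KRing n)

theorem F_nd {y : X.R} (h : ∀ x, F X x y = 0) : y = 0 := by
  have h1 : X.bar y = 0 := by
    refine nd_right X fun x => ?_
    refine X.ind (P := fun x => X.tr (x * X.bar y) = 0) ?_ ?_ ?_ x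
    · simp
    · intro a b ha hb
      rw [add_mul, map_add, ha, hb, add_zero]
    · intro p q x hx
      have h2 := h x
      rw [F_of X hx] at h2
      exact (mul_eq_zero.1 h2).resolve_left (zpow_ne_zero _ Complex.I_ne_zero)
  rw [← X.bar_bar y, h1, map_zero]

theorem F_van {a b p q : ℤ} {x y : X.R} (hx : x ∈ X.H (a, b)) (hy : y ∈ X.H (p, q))
    (h : ¬ (a + q = n ∧ b + p = n)) : F X x y = 0 := by
  rw [F_of X hx, X.tr_van _ _ _ (X.mul_mem hx (X.bar_mem _ _ _ hy)) h, mul_zero]

theorem F_van' {a b p q : ℤ} {x y : X.R} (hx : x ∈ typ X a b) (hy : y ∈ typ X p q)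
    (h : a - b ≠ p - q) : F X x y = 0 := by
  unfold typ at hx hy
  refine Submodule.iSup_induction (p := fun k : ℤ => X.H (a + k, b + k))
    (motive := fun x => F X x y = 0) hx ?_ (F_zero_left X y) ?_
  · intro k x hx
    refine Submodule.iSup_induction (p := fun k : ℤ => X.H (p + k, q + k))
      (motive := fun y => F X x y = 0) hy ?_ (F_zero_right X x) ?_
    · intro l y hy
      exact F_van X hx hy (by omega)
    · intro y z hy hz
      rw [F_add_right, hy, hz, add_zero]
  · intro x z hx hz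
    rw [F_add_left, hx, hz, add_zero]

end form

namespace Act

variable {E : Type} [Ring E] [Algebra ℚ E] {n : ℕ} {X : KRing n} (A : Act E X)

theorem F_p {m : ℕ} (hm : m ≤ 2 * n) (x y : X.R) :
    F X (A.ρ (A.L.p m) x) y = F X x (A.ρ (A.L.p (2 * n - m)) y) := by
  rw [A.rho_p, A.rho_p]
  refine X.ind (P := fun x => F X (dg X m x) y = F X x (dg X (2 * n - m) y)) ?_ ?_ ?_ x
  · rw [map_zero, F_zero_left, F_zero_left]
  · intro a b ha hb
    rw [map_add, F_add_left, F_add_left, ha, hb]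
  · intro a b x hx
    refine X.ind (P := fun y => F X (dg X m x) y = F X x (dg X (2 * n - m) y)) ?_ ?_ ?_ y
    · rw [map_zero, F_zero_right, F_zero_right]
    · intro a b ha hb
      rw [map_add, F_add_right, F_add_right, ha, hb]
    · intro p q y hy
      rw [dg_of X hx, dg_of X hy]
      by_cases h : a + q = n ∧ b + p = n
      · by_cases h2 : a + b = m
        · rw [if_pos h2, if_pos (by omega)]
        · rw [if_neg h2, if_neg (by omega), F_zero_left, F_zero_right]
      · split_ifs <;> simp [F_van X hx hy h, F_zero_left, F_zero_right]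

theorem F_PT (x y : X.R) : F X (A.ρ A.L.PT x) y = F X x (A.ρ A.L.PT y) := by
  refine X.ind (P := fun x => F X (A.ρ A.L.PT x) y = F X x (A.ρ A.L.PT y)) ?_ ?_ ?_ x
  · rw [map_zero, F_zero_left, F_zero_left]
  · intro a b ha hb
    rw [map_add, F_add_left, F_add_left, ha, hb]
  · intro a b x hx
    refine X.ind (P := fun y => F X (A.ρ A.L.PT x) y = F X x (A.ρ A.L.PT y)) ?_ ?_ ?_ y
    · rw [map_zero, F_zero_right, F_zero_right]
    · intro a b ha hb
      rw [map_add, F_add_right, F_add_right, ha, hb]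
    · intro p q y hy
      rw [A.rho_PT (mem_typ X hx), A.rho_PT (mem_typ X hy)]
      by_cases h : a + q = n ∧ b + p = n
      · have e : a - b + (n : ℤ) = p - q + n := by omega
        rw [e]
        split_ifs
        · rfl
        · rw [F_zero_left, F_zero_right]
      · split_ifs <;> simp [F_van X hx hy h, F_zero_left, F_zero_right]

theorem F_conj_PT (x y : X.R) :
    F X (A.ρ A.L.PT x) (A.ρ A.L.PT y) = conj (F X (A.ρ A.L.PT y) (A.ρ A.L.PT x)) := by
  refine X.ind (P := fun x => F X (A.ρ A.L.PT x) (A.ρ A.L.PT y) =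
    conj (F X (A.ρ A.L.PT y) (A.ρ A.L.PT x))) ?_ ?_ ?_ x
  · rw [map_zero, F_zero_left, F_zero_right, map_zero]
  · intro a b ha hb
    rw [map_add, F_add_left, F_add_right, map_add, ha, hb]
  · intro a b x hx
    refine X.ind (P := fun y => F X (A.ρ A.L.PT x) (A.ρ A.L.PT y) =
      conj (F X (A.ρ A.L.PT y) (A.ρ A.L.PT x))) ?_ ?_ ?_ y
    · rw [map_zero, F_zero_left, F_zero_right, map_zero]
    · intro a b ha hb
      rw [map_add, F_add_left, F_add_right, map_add, ha, hb]
    · intro p q y hy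
      rw [A.rho_PT (mem_typ X hx), A.rho_PT (mem_typ X hy)]
      by_cases hd : a - b = p - q
      · by_cases he : Even (a - b + n)
        · rw [if_pos he, if_pos (hd ▸ he)]
          have h1 := G_conj he 0 (mem_typ X hx) (mem_typ' X hd hy)
          simp only [pow_zero, one_mul] at h1
          unfold F
          rw [← h1, Complex.conj_conj]
        · rw [if_neg he, F_zero_left, F_zero_right, map_zero]
      · have h1 : F X x y = 0 := F_van X hx hy (by omega)
        have h2 : F X y x = 0 := F_van X hy hx (by omega)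
        split_ifs <;> simp [h1, h2, F_zero_left, F_zero_right]

/-- the hermitian Mukai form -/
noncomputable def Bt (x y : X.R) : ℂ := F X (A.ρ (A.s * A.s) x) y

theorem Bt_eq (x y : X.R) : A.Bt x y = F X (A.ρ A.s x) (A.ρ A.s y) := by
  unfold Bt
  rw [map_mul, Module.End.mul_apply, A.F_s]

theorem ρ_PT_comm (a : E) (x : X.R) : A.ρ a (A.ρ A.L.PT x) = A.ρ A.L.PT (A.ρ a x) := by
  rw [← Module.End.mul_apply, ← map_mul, A.PT_comm, map_mul, Module.End.mul_apply]

theorem Bt_PT (x y : X.R) : A.Bt (A.ρ A.L.PT x) y = A.Bt x (A.ρ A.L.PT y) := by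
  unfold Bt
  rw [A.ρ_PT_comm, A.F_PT]

theorem PTPT (x : X.R) : A.ρ A.L.PT (A.ρ A.L.PT x) = A.ρ A.L.PT x := by
  rw [← Module.End.mul_apply, ← map_mul, A.L.PT_self]

theorem Bt_conj (x y : X.R) : A.Bt (A.ρ A.L.PT x) y = conj (A.Bt (A.ρ A.L.PT y) x) := by
  have h1 : ∀ x y, A.Bt (A.ρ A.L.PT x) y = F X (A.ρ A.L.PT (A.ρ A.s x)) (A.ρ A.L.PT (A.ρ A.s y)) := by
    intro x y
    rw [← A.PTPT, A.Bt_PT, A.Bt_eq, A.ρ_PT_comm, A.ρ_PT_comm]
  rw [h1, h1, A.F_conj_PT]

theorem Bt_nd {y : X.R} (h : ∀ x, A.Bt x y = 0) : y = 0 := by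
  refine F_nd X fun x => ?_
  have h1 := h (A.ρ (A.s' * A.s') x)
  unfold Bt at h1
  rw [← Module.End.mul_apply, ← map_mul] at h1
  have e : A.s * A.s * (A.s' * A.s') = 1 := by
    calc A.s * A.s * (A.s' * A.s') = A.s * (A.s * A.s') * A.s' := by simp only [mul_assoc]
      _ = 1 := by rw [A.s_s', mul_one, A.s_s']
  rwa [e, map_one] at h1

/-- adjoint operators -/
def Adj (a b : E) : Prop := ∀ x y, A.Bt (A.ρ a x) y = A.Bt x (A.ρ b y)

theorem Adj.uniq {a b c : E} (h1 : A.Adj a b) (h2 : A.Adj a c) : b = c := by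
  apply A.inj
  ext y
  rw [← sub_eq_zero]
  refine A.Bt_nd fun x => ?_
  have e1 := h1 x y
  have e2 := h2 x y
  have e3 : A.Bt x (A.ρ b y - A.ρ c y) = A.Bt x (A.ρ b y) - A.Bt x (A.ρ c y) := by
    unfold Bt
    exact map_sub (FR X _) _ _
  rw [e3, ← e1, ← e2, sub_self]

theorem Adj.mul {a b c d : E} (h1 : A.Adj a b) (h2 : A.Adj c d) : A.Adj (a * c) (d * b) := by
  intro x y
  rw [map_mul, map_mul, Module.End.mul_apply, Module.End.mul_apply, h1, h2]

theorem Adj.add {a b c d : E} (h1 : A.Adj a b) (h2 : A.Adj c d) : A.Adj (a + c) (b + d) := by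
  intro x y
  have e1 := h1 x y
  have e2 := h2 x y
  rw [map_add, map_add, LinearMap.add_apply, LinearMap.add_apply]
  unfold Bt at *
  rw [map_add, F_add_left, F_add_right, e1, e2]

theorem adj_PT : A.Adj A.L.PT A.L.PT := A.Bt_PT

theorem adj_exists (a : E) : ∃ b, A.L.PT * b = b ∧ A.Adj (A.L.PT * a) b := by
  obtain ⟨b, hb⟩ := A.adj (A.L.PT * a)
  have h0 : A.Adj (A.L.PT * a) (A.s' * A.s' * (b * (A.s * A.s))) := by
    intro x y
    have c1 : A.s * A.s * (A.L.PT * a) = A.s * A.s * (A.L.PT * a) := rfl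
    unfold Bt
    have e : A.s * A.s * (A.s' * A.s' * (b * (A.s * A.s))) = b * (A.s * A.s) := by
      calc A.s * A.s * (A.s' * A.s' * (b * (A.s * A.s))) =
          A.s * (A.s * A.s') * A.s' * (b * (A.s * A.s)) := by simp only [mul_assoc]
        _ = _ := by rw [A.s_s', mul_one, A.s_s', one_mul]
    have f1 : ∀ u v, F X (A.ρ (A.s * A.s) u) v = F X u (A.ρ (A.s * A.s) v) := by
      intro u v
      rw [map_mul, Module.End.mul_apply, Module.End.mul_apply, A.F_s, A.F_s]
    rw [f1, hb, f1, ← Module.End.mul_apply, ← map_mul, ← Module.End.mul_apply, ← map_mul, e]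
  refine ⟨A.L.PT * (A.s' * A.s' * (b * (A.s * A.s))), by rw [← mul_assoc, A.L.PT_self], ?_⟩
  have h1 := Adj.mul A h0 A.adj_PT
  rw [A.PT_comm, ← mul_assoc, A.L.PT_self] at h1
  exact h1

noncomputable def sg (a : E) : E := (A.adj_exists a).choose

theorem PT_sg (a : E) : A.L.PT * A.sg a = A.sg a := (A.adj_exists a).choose_spec.1

theorem adj_sg (a : E) : A.Adj (A.L.PT * a) (A.sg a) := (A.adj_exists a).choose_spec.2

theorem sg_eq {a b : E} (h : A.Adj (A.L.PT * a) b) : A.sg a = b := Adj.uniq A (A.adj_sg a) h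

/-- the involution -/
noncomputable def st : St E where
  P := A.L.PT
  σ := A.sg
  PP := A.L.PT_self
  Pc := A.PT_comm
  σ_add := fun a b => by
    apply A.sg_eq
    rw [mul_add]
    exact Adj.add A (A.adj_sg a) (A.adj_sg b)
  σ_mul := fun a b => by
    apply A.sg_eq
    have h := Adj.mul A (A.adj_sg a) (A.adj_sg b)
    have e : A.L.PT * a * (A.L.PT * b) = A.L.PT * (a * b) := by
      calc A.L.PT * a * (A.L.PT * b) = A.L.PT * (a * A.L.PT) * b := by simp only [mul_assoc]
        _ = _ := by rw [A.PT_comm a, ← mul_assoc, A.L.PT_self, mul_assoc]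
    rwa [e] at h
  σσ := fun a => by
    apply A.sg_eq
    rw [A.PT_sg]
    intro x y
    have h := A.adj_sg a
    rw [← A.PT_sg, map_mul, Module.End.mul_apply, A.Bt_conj]
    rw [A.Bt_PT, ← Module.End.mul_apply, ← map_mul, A.PT_sg, ← h]
    have e2 : A.ρ (A.L.PT * a) y = A.ρ A.L.PT (A.ρ (A.L.PT * a) y) := by
      rw [← Module.End.mul_apply, ← map_mul, ← mul_assoc, A.L.PT_self]
    rw [e2, A.Bt_conj, Complex.conj_conj, ← A.Bt_PT]
  P_σ := A.PT_sg

end Act

end Pool.Agent.R941.OH
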