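import Pool.Agent.R941.OH.HForm

/-!
# The two structures on the cohomology of derived equivalent varieties
-/

set_option autoImplicit false

open scoped ComplexConjugate
open Module Pool.Agent.W539.DI Polynomial

namespace Pool.Agent.R941.OH

theorem sum_even_odd' (N : ℕ) (g : ℕ → ℂ) : ∑ m ∈ Finset.range (2 * N), g m =
    ∑ l ∈ Finset.range N, (g (2 * l) + g (2 * l + 1)) := by
  induction N with
  | zero => simp
  | succ N ih =>
    rw [Finset.sum_range_succ, ← ih, show 2 * (N + 1) = 2 * N + 1 + 1 from rfl,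
      Finset.sum_range_succ, Finset.sum_range_succ]
    ring

namespace Act

variable {E : Type} [Ring E] [Algebra ℚ E] {n : ℕ} {X : KRing n} (A : Act E X)

theorem Bt_mukai {a b : ℤ} (hab : Even (a - b + n)) {x y : X.R} (hx : x ∈ typ X a b)
    (hy : y ∈ typ X a b) :
    2 * A.Bt x y = X.mukai x (X.bar y) + conj (X.mukai y (X.bar x)) := by
  set G : ℕ → X.R → X.R → ℂ := fun m x y => ((1 : ℂ) / (2 ^ m * (m.factorial : ℂ))) *
    X.tr (X.c ^ m * (X.dual x * X.bar y)) with hG
  have h1 : ∀ x y, X.mukai x (X.bar y) = ∑ m ∈ Finset.range (2 * (n + 1)), G m x y := by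
    intro x y
    have h0 : X.mukai x (X.bar y) = ∑ m ∈ Finset.range (n + 1), G m x y := by
      unfold KRing.mukai KRing.expc
      rw [Finset.sum_mul, map_sum]
      refine Finset.sum_congr rfl fun m _ => ?_
      rw [smul_mul_assoc, map_smul, smul_eq_mul]
    rw [h0]
    refine Finset.sum_subset (fun m hm => ?_) (fun m _ hm => ?_)
    · rw [Finset.mem_range] at *
      omega
    · rw [Finset.mem_range] at hm
      simp only [hG]
      rw [c_nil (by omega), map_zero, mul_zero]
  have h3 : ∀ m, conj (G m y x) = (-1) ^ m * G m x y := by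
    intro m
    simp only [hG]
    rw [map_mul, G_conj hab m hy hx, map_div₀, map_mul, map_pow, map_one, Complex.conj_natCast,
      Complex.conj_ofNat]
    ring
  have h4 : A.Bt x y = ∑ l ∈ Finset.range (n + 1), G (2 * l) x y := by
    unfold Bt
    rw [A.s_s, A.F_Ch]
  rw [h1, h1, map_sum, h4, ← Finset.sum_add_distrib, Finset.mul_sum]
  simp only [h3]
  rw [sum_even_odd']
  refine Finset.sum_congr rfl fun l _ => ?_
  rw [pow_succ, pow_mul]
  norm_num
  ring

theorem Bt_van {a b p q : ℤ} {x y : X.R} (hx : x ∈ typ X a b) (hy : y ∈ typ X p q)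
    (h : a - b ≠ p - q) : A.Bt x y = 0 := F_van' X (A.typ_mem' _ hx) hy h

theorem Bt_zero_left (y : X.R) : A.Bt 0 y = 0 := by
  unfold Bt
  rw [map_zero, F_zero_left]

theorem Bt_zero_right (y : X.R) : A.Bt y 0 = 0 := F_zero_right X _

theorem Bt_add_left (x y z : X.R) : A.Bt (x + y) z = A.Bt x z + A.Bt y z := by
  unfold Bt
  rw [map_add, F_add_left]

theorem Bt_add_right (x y z : X.R) : A.Bt x (y + z) = A.Bt x y + A.Bt x z := F_add_right X _ _ _

/-- conjugates by the unit `s` -/
noncomputable def cj (a : E) : E := A.s' * a * A.s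

theorem cj_mul (a b : E) : A.cj a * A.cj b = A.cj (a * b) := A.conj_mul a b

theorem cj_add (a b : E) : A.cj (a + b) = A.cj a + A.cj b := by
  unfold cj
  rw [mul_add, add_mul]

theorem cj_PT : A.cj A.L.PT = A.L.PT := by
  unfold cj
  rw [A.PT_comm, mul_assoc, A.s'_s, mul_one]

theorem cj_zero : A.cj 0 = 0 := by simp [cj]

theorem PT_cj (a : E) : A.L.PT * A.cj a = A.cj (A.L.PT * a) := by
  conv_lhs => rw [← A.cj_PT]
  rw [A.cj_mul]

theorem adj_cj {a b : E} (h : ∀ x y, F X (A.ρ a x) y = F X x (A.ρ b y)) :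
    A.Adj (A.cj a) (A.cj b) := by
  intro x y
  have e : ∀ c : E, A.s * A.cj c = c * A.s := by
    intro c
    unfold cj
    rw [← mul_assoc, ← mul_assoc, A.s_s', one_mul]
  rw [A.Bt_eq, A.Bt_eq, ← Module.End.mul_apply, ← map_mul, e, ← Module.End.mul_apply (A.ρ A.s)
    (A.ρ (A.cj b)), ← map_mul, e, map_mul, Module.End.mul_apply, h, map_mul, Module.End.mul_apply]

theorem F_pD {D D' : ℕ → Prop} [DecidablePred D] [DecidablePred D']
    (h : ∀ m, m ≤ 2 * n → (D m ↔ D' (2 * n - m))) (x y : X.R) :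
    F X (A.ρ (A.L.pD D) x) y = F X x (A.ρ (A.L.pD D') y) := by
  unfold Lef.pD
  rw [map_sum, map_sum, LinearMap.sum_apply, LinearMap.sum_apply]
  have h1 : ∀ (s : Finset ℕ) (f : ℕ → X.R), F X (∑ m ∈ s, f m) y = ∑ m ∈ s, F X (f m) y :=
    fun s f => map_sum (FL X y) _ _
  have h2 : ∀ (s : Finset ℕ) (f : ℕ → X.R), F X x (∑ m ∈ s, f m) = ∑ m ∈ s, F X x (f m) :=
    fun s f => map_sum (FR X x) _ _
  rw [h1, h2]
  refine Finset.sum_nbij' (fun m => 2 * n - m) (fun m => 2 * n - m) ?_ ?_ ?_ ?_ ?_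
  · intro m hm
    simp only [Finset.mem_filter, Finset.mem_range] at *
    exact ⟨by omega, (h m (by omega)).1 hm.2⟩
  · intro m hm
    simp only [Finset.mem_filter, Finset.mem_range] at *
    refine ⟨by omega, (h _ (by omega)).2 ?_⟩
    have : 2 * n - (2 * n - m) = m := by omega
    rw [this]
    exact hm.2
  · intro m hm
    simp only [Finset.mem_filter, Finset.mem_range] at *
    omega
  · intro m hm
    simp only [Finset.mem_filter, Finset.mem_range] at *
    omega
  · intro m hm
    simp only [Finset.mem_filter, Finset.mem_range] at hm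
    exact A.F_p (by omega) x y

theorem F_K (x y : X.R) : F X (A.ρ A.K x) y = F X x (A.ρ A.K y) := by
  refine X.ind (P := fun x => F X (A.ρ A.K x) y = F X x (A.ρ A.K y)) ?_ ?_ ?_ x
  · rw [map_zero, F_zero_left, F_zero_left]
  · intro a b ha hb
    rw [map_add, F_add_left, F_add_left, ha, hb]
  · intro a b x hx
    refine X.ind (P := fun y => F X (A.ρ A.K x) y = F X x (A.ρ A.K y)) ?_ ?_ ?_ y
    · rw [map_zero, F_zero_right, F_zero_right]
    · intro a b ha hb
      rw [map_add, F_add_right, F_add_right, ha, hb]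
    · intro p q y hy
      by_cases hd : a - b = p - q
      · have hK : ∀ z, A.ρ A.K z = A.ρ A.L.W (A.ρ A.L.PT z) := by
          intro z
          unfold K
          rw [map_mul, Module.End.mul_apply]
        have hKP : ∀ z, A.ρ A.K z = A.ρ A.L.PT (A.ρ A.K z) := by
          intro z
          rw [← Module.End.mul_apply, ← map_mul, A.PT_K]
        by_cases he : Even (a - b + n)
        · have px := A.rho_PT (mem_typ X hx)
          have py := A.rho_PT (mem_typ X hy)
          rw [if_pos he] at px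
          rw [if_pos (hd ▸ he)] at py
          -- F (K x) y = conj (F y (K x)) = conj (h y x) = h x y
          have h1 : F X (A.ρ A.K x) y = conj (F X y (A.ρ A.K x)) := by
            rw [hKP x, ← py, A.F_conj_PT, ← hKP]
          have h2 := A.h_herm (mem_typ X hx) (mem_typ' X hd hy)
          unfold h at h2
          rw [h1, hK, px, hK, py, h2, Complex.conj_conj]
        · have px := A.rho_PT (mem_typ X hx)
          have py := A.rho_PT (mem_typ X hy)
          rw [if_neg he] at px
          rw [if_neg (hd ▸ he)] at py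
          rw [hK, px, hK, py, map_zero, F_zero_left, F_zero_right]
      · rw [F_van' X (A.typ_mem' _ (mem_typ X hx)) (mem_typ X hy) hd,
          F_van' X (mem_typ X hx) (A.typ_mem' _ (mem_typ X hy)) hd]

theorem ep_cj : A.ep = A.cj A.up := rfl

theorem em_cj : A.em = A.cj A.um := rfl

theorem adj_ep : A.Adj A.ep A.ep := by
  rw [A.ep_cj]
  refine A.adj_cj fun x y => ?_
  unfold up
  rw [rho_smul, rho_smul, F_smul_left, F_smul_right, map_add, LinearMap.add_apply,
    LinearMap.add_apply, F_add_left, F_add_right, A.F_K, A.F_PT]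
  congr 1
  exact (map_ratCast (starRingEnd ℂ) _).symm

theorem adj_em : A.Adj A.em A.em := by
  rw [A.em_cj]
  refine A.adj_cj fun x y => ?_
  have hs : ∀ x y z : X.R, F X (x - y) z = F X x z - F X y z := fun x y z => map_sub (FL X z) _ _
  have hs' : ∀ x y z : X.R, F X z (x - y) = F X z x - F X z y := fun x y z => map_sub (FR X z) _ _
  unfold um
  rw [rho_smul, rho_smul, F_smul_left, F_smul_right, map_sub, LinearMap.sub_apply,
    LinearMap.sub_apply, hs, hs', A.F_K, A.F_PT]
  congr 1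
  exact (map_ratCast (starRingEnd ℂ) _).symm

theorem pr_of {g : E} (h1 : g * g = g) (h2 : A.L.PT * g = g) (h3 : A.Adj g g) : A.st.Pr g :=
  ⟨h1, A.sg_eq (by rw [h2]; exact h3)⟩

theorem PT_ep : A.L.PT * A.ep = A.ep := by rw [← A.PT_comm, A.ep_PT]

theorem PT_em : A.L.PT * A.em = A.em := by rw [← A.PT_comm, A.em_PT]

theorem up_um' : A.up * A.um = 0 := by
  unfold up um
  rw [smul_mul_smul_comm, add_mul, mul_sub, mul_sub, A.L.PT_self, A.PT_K, A.K_PT, A.K_K]
  have : A.L.PT - A.K + (A.K - A.L.PT) = 0 := by abel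
  rw [this, smul_zero]

theorem um_up' : A.um * A.up = 0 := by
  unfold up um
  rw [smul_mul_smul_comm, sub_mul, mul_add, mul_add, A.L.PT_self, A.PT_K, A.K_PT, A.K_K]
  have : A.L.PT + A.K - (A.K + A.L.PT) = 0 := by abel
  rw [this, smul_zero]

/-- the projector to the middle degree -/
noncomputable def eN : E := A.cj (A.L.p n)

theorem PT_pn : A.L.PT * A.L.p n = A.L.p n := by
  rw [A.L.PT_p (by omega), if_pos (by omega)]

theorem pn_PT : A.L.p n * A.L.PT = A.L.p n := by rw [A.PT_comm, A.PT_pn]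

theorem PT_eN : A.L.PT * A.eN = A.eN := by
  unfold eN
  rw [A.PT_cj, A.PT_pn]

theorem eN_eN : A.eN * A.eN = A.eN := by
  unfold eN
  rw [A.cj_mul, A.L.p_self]

theorem adj_eN : A.Adj A.eN A.eN := by
  refine A.adj_cj fun x y => ?_
  rw [A.F_p (by omega)]
  congr 4
  omega

theorem pn_W : A.L.p n * A.L.W = A.L.W * A.L.p n := by
  refine A.L.ext_p fun m hm => ?_
  by_cases h : m = n
  · subst h
    have h1 := A.L.p_W hm
    have e : 2 * m - m = m := by omega
    rw [e] at h1
    rw [mul_assoc, h1, mul_assoc, A.L.p_self]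
  · have h1 := A.L.p_W hm
    rw [mul_assoc, ← h1, ← mul_assoc, A.L.p_ne (by omega), zero_mul, mul_assoc,
      A.L.p_ne (Ne.symm h), mul_zero]

theorem pn_K : A.L.p n * A.K = A.K * A.L.p n := by
  unfold K
  rw [← mul_assoc, A.pn_W, mul_assoc, mul_assoc, A.pn_PT, A.PT_pn]

theorem pn_up : A.L.p n * A.up = A.up * A.L.p n := by
  unfold up
  rw [mul_smul_comm, smul_mul_assoc, mul_add, add_mul, A.pn_K, A.pn_PT, A.PT_pn]

theorem pn_um : A.L.p n * A.um = A.um * A.L.p n := by
  unfold um
  rw [mul_smul_comm, smul_mul_assoc, mul_sub, sub_mul, A.pn_K, A.pn_PT, A.PT_pn]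

theorem eN_ep : A.eN * A.ep = A.ep * A.eN := by
  unfold eN
  rw [A.ep_cj, A.cj_mul, A.cj_mul, A.pn_up]

theorem eN_em : A.eN * A.em = A.em * A.eN := by
  unfold eN
  rw [A.em_cj, A.cj_mul, A.cj_mul, A.pn_um]

theorem ep_em' : A.ep * A.em = 0 := by rw [A.ep_cj, A.em_cj, A.cj_mul, A.up_um', A.cj_zero]

theorem em_ep' : A.em * A.ep = 0 := by rw [A.ep_cj, A.em_cj, A.cj_mul, A.um_up', A.cj_zero]

/-- the hyperbolic part -/
noncomputable def hy : E := A.L.PT - A.eN

theorem hy_hy : A.hy * A.hy = A.hy := by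
  unfold hy
  rw [mul_sub, sub_mul, sub_mul, A.L.PT_self, A.PT_eN, A.PT_comm, A.PT_eN, A.eN_eN]
  abel

theorem PT_hy : A.L.PT * A.hy = A.hy := by
  unfold hy
  rw [mul_sub, A.L.PT_self, A.PT_eN]

theorem pr_hy : A.st.Pr A.hy := by
  refine ⟨A.hy_hy, ?_⟩
  have h1 := (A.pr_of A.eN_eN A.PT_eN A.adj_eN).self
  unfold hy
  rw [A.st.σ_sub, h1]
  congr 1
  exact A.st.σ_P

theorem bt_beta {a b : ℤ} (hab : Even (a - b + n)) {z : X.R} (hz : z ∈ typ X a b) :
    X.beta z z = 2 * (A.Bt z z).re := by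
  rw [A.beta_eq hab hz, ← A.s_s]
  rfl

theorem ani_aux {g : E} (hg : A.L.PT * g = g)
    (hpos : ∀ (a b : ℤ), Even (a - b + n) → ∀ z : X.R, z ∈ typ X a b → A.ρ g z = z →
      X.beta z z = 0 → z = 0) : A.st.Ani g := by
  intro y hy h0
  have hPy : A.L.PT * y = y := by rw [← hy, ← mul_assoc, hg]
  refine A.zero_of_typ fun p q x hx => ?_
  by_cases he : Even (p - q + n)
  · have hz := A.typ_mem' y hx
    refine hpos p q he _ hz ?_ ?_
    · rw [← Module.End.mul_apply, ← map_mul, hy]
    · rw [A.bt_beta he hz]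
      have h1 := A.adj_sg y
      rw [hPy] at h1
      rw [h1, ← Module.End.mul_apply, ← map_mul]
      have h2 : A.sg y * y = 0 := h0
      rw [h2, map_zero, LinearMap.zero_apply, A.Bt_zero_right]
      simp
  · have h1 := A.rho_PT hx
    rw [if_neg he] at h1
    rw [← hPy, ← A.PT_comm, map_mul, Module.End.mul_apply, h1, map_zero]

theorem cay_hy [FiniteDimensional ℚ E] : A.st.Cay A.hy := by
  have hε : ∀ d : ℤ, (eps d).re = 1 ∨ (eps d).re = -1 := by
    intro d
    rcases eps_cases d with h | h <;> rw [h] <;> simp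
  have hself := A.pr_hy.self
  have hp := (A.pr_of A.ep_ep A.PT_ep A.adj_ep).self
  have hm := (A.pr_of A.em_em A.PT_em A.adj_em).self
  have c1 : A.hy * A.ep = A.ep * A.hy := by
    unfold hy
    rw [sub_mul, mul_sub, A.eN_ep, A.PT_comm]
  have c2 : A.hy * A.em = A.em * A.hy := by
    unfold hy
    rw [sub_mul, mul_sub, A.eN_em, A.PT_comm]
  have p1 : A.st.Pr (A.hy * A.ep) := by
    constructor
    · calc A.hy * A.ep * (A.hy * A.ep) = A.hy * (A.ep * A.hy) * A.ep := by simp only [mul_assoc]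
        _ = (A.hy * A.hy) * (A.ep * A.ep) := by rw [← c1]; simp only [mul_assoc]
        _ = _ := by rw [A.hy_hy, A.ep_ep]
    · rw [A.st.σ_mul, hself, hp, c1]
  have p2 : A.st.Pr (A.hy * A.em) := by
    constructor
    · calc A.hy * A.em * (A.hy * A.em) = A.hy * (A.em * A.hy) * A.em := by simp only [mul_assoc]
        _ = (A.hy * A.hy) * (A.em * A.em) := by rw [← c2]; simp only [mul_assoc]
        _ = _ := by rw [A.hy_hy, A.em_em]
    · rw [A.st.σ_mul, hself, hm, c2]
  have e1 : A.ep * (A.hy * A.ep) = A.hy * A.ep := by rw [← mul_assoc, ← c1, mul_assoc, A.ep_ep]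
  have e2 : A.em * (A.hy * A.em) = A.hy * A.em := by rw [← mul_assoc, ← c2, mul_assoc, A.em_em]
  have a1 : A.st.Ani (A.hy * A.ep) := by
    refine A.ani_aux (by rw [← mul_assoc, A.PT_hy]) fun a b hab z hz hg hb => ?_
    by_contra hne
    obtain ⟨r, _, h2, h3⟩ := A.sign_p hab hz (by
      conv_rhs => rw [← hg, ← e1, map_mul, Module.End.mul_apply, hg])
    have := h2 hne
    rw [hb] at h3
    rcases hε (a - b) with h | h <;> rw [h] at h3 <;> linarith
  have a2 : A.st.Ani (A.hy * A.em) := by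
    refine A.ani_aux (by rw [← mul_assoc, A.PT_hy]) fun a b hab z hz hg hb => ?_
    by_contra hne
    obtain ⟨r, _, h2, h3⟩ := A.sign_m hab hz (by
      conv_rhs => rw [← hg, ← e2, map_mul, Module.End.mul_apply, hg])
    have := h2 hne
    rw [hb] at h3
    rcases hε (a - b) with h | h <;> rw [h] at h3 <;> linarith
  have hsum : A.hy * A.ep + A.hy * A.em = A.hy := by
    rw [← mul_add, A.ep_em, A.PT_comm, A.PT_hy]
  rw [← hsum]
  refine St.cay_add p1 p2 (St.cay_of_ani _ _ p1 a1 le_rfl) (St.cay_of_ani _ _ p2 a2 le_rfl) ?_ ?_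
  · calc A.hy * A.ep * (A.hy * A.em) = A.hy * (A.ep * A.hy) * A.em := by simp only [mul_assoc]
      _ = (A.hy * A.hy) * (A.ep * A.em) := by rw [← c1]; simp only [mul_assoc]
      _ = _ := by rw [A.ep_em', mul_zero]
  · calc A.hy * A.em * (A.hy * A.ep) = A.hy * (A.em * A.hy) * A.ep := by simp only [mul_assoc]
      _ = (A.hy * A.hy) * (A.em * A.ep) := by rw [← c2]; simp only [mul_assoc]
      _ = _ := by rw [A.em_ep', mul_zero]

end Act

end Pool.Agent.R941.OH
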