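import Pool.Agent.R941.OH.Main

/-!
# Orlov's conjecture in low dimension: rational Hodge structures of derived equivalent varieties

Let `X` and `Y` be smooth projective complex varieties of dimension `n` with equivalent derived
categories.  By Orlov the equivalence is a Fourier-Mukai transform, and (Mukai, Caldararu) the
Mukai vector of its kernel induces an isomorphism of the cohomology with rational coefficients,
which preserves the difference `p - q` of the types and the Mukai pairing.  These are the
hypotheses `FM X Y` (starting library `W539.DI`), `RatOp` below.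

Orlov's conjecture predicts isomorphic Chow motives, so isomorphic rational Hodge structures
`H^m (X, ℚ) ≅ H^m (Y, ℚ)` for all `m`; by the Hodge conjecture these isomorphisms are algebraic,
so that the homological motives are isomorphic.  The theorem gives such isomorphisms.

Outline.  (1) The star operator `W` of an ample class is an involution of the part of the cohomology
in the degrees of the parity of `n`, and the Mukai form (twisted by the square root of
`cosh (c₁ / 2)`) is definite on its two eigenspaces `P` and `N`, which are sub-Hodge structures.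
(2) The projection from `P` of `X` to `P` of `Y` along `N` of `Y` is an injective morphism of Hodge
structures, so that `P` and `N` are derived invariants as rational Hodge structures.
(3) The algebra of endomorphisms is semisimple, and the multiplicities of the simple objects in
`P` and `N` are computed from the Lefschetz decomposition: `N` is twice
`H^{n-2} + H^{n-6} + H^{n-10} + ...`, and `P` is `H^n` plus twice `H^{n-4} + H^{n-8} + ...`.
-/

set_option autoImplicit false

namespace Pool.Agent.R941.OH.HStr

open Pool.Agent.W539.DI Pool.Agent.R941.OH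

variable {n : ℕ} {X Y : KRing n}

/-- `H^m (X, ℚ)` and `H^m (Y, ℚ)` are isomorphic rational Hodge structures: there are linear maps
`u` and `v` which preserve rational classes and map the classes of type `(p, q)`, `p + q = m`, of
`X` to those of `Y` and back, and are inverse to each other there. -/
def HodgeIso (r : RatStr X) (t : RatStr Y) (m : ℕ) : Prop :=
  ∃ (u : X.R →ₗ[ℂ] Y.R) (v : Y.R →ₗ[ℂ] X.R), RatOp r t u ∧ RatOp t r v ∧
    (∀ (p q : ℤ) (x : X.R), p + q = m → x ∈ X.H (p, q) → u x ∈ Y.H (p, q) ∧ v (u x) = x) ∧
    (∀ (p q : ℤ) (y : Y.R), p + q = m → y ∈ Y.H (p, q) → v y ∈ X.H (p, q) ∧ u (v y) = y)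

theorem mem_of_proj {Z : KRing n} {m : ℕ} {p q : ℤ} (hpq : p + q = m) {z : Z.R}
    (hz : z ∈ typ Z p q) (h : proj Z (fun k => k = m) z = z) : z ∈ Z.H (p, q) := by
  classical
  have key : ∀ z ∈ typ Z p q, proj Z (fun k => k = m) z ∈ Z.H (p, q) := by
    intro z hz
    unfold typ at hz
    refine Submodule.iSup_induction (p := fun k : ℤ => Z.H (p + k, q + k))
      (motive := fun z => proj Z (fun k => k = m) z ∈ Z.H (p, q)) hz ?_ ?_ ?_
    · intro k z hz
      by_cases hne : z = 0
      · rw [hne, map_zero]; exact Submodule.zero_mem _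
      have hr : ¬ (p + k < 0 ∨ q + k < 0 ∨ (n : ℤ) < p + k ∨ (n : ℤ) < q + k) :=
        fun h => hne (zero_of Z h hz)
      obtain ⟨j, hj⟩ : ∃ j : ℕ, p + k + (q + k) = j := ⟨(p + k + (q + k)).toNat, by omega⟩
      rw [proj_of Z _ hj hz]
      split_ifs with h2
      · have hk : k = 0 := by omega
        rw [hk, add_zero, add_zero] at hz
        exact hz
      · exact Submodule.zero_mem _
    · rw [map_zero]; exact Submodule.zero_mem _
    · intro x y hx hy
      rw [map_add]; exact Submodule.add_mem _ hx hy
  rw [← h]
  exact key z hz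

theorem iso_of_same {r : RatStr X} {t : RatStr Y} {m : ℕ} (h : SameHodge r t (fun k => k = m)) :
    HodgeIso r t m := by
  classical
  obtain ⟨u, v, hu, hu', hv, hv', hvu, huv⟩ := h
  have e1 : ∀ x, v (u x) = proj X (fun k => k = m) x := fun x =>
    congrArg (fun g : X.R →ₗ[ℂ] X.R => g x) hvu
  have e2 : ∀ y, u (v y) = proj Y (fun k => k = m) y := fun y =>
    congrArg (fun g : Y.R →ₗ[ℂ] Y.R => g y) huv
  refine ⟨u, v, hu, hv, ?_, ?_⟩
  · intro p q x hpq hx
    have h1 : v (u x) = x := by rw [e1, proj_of X _ hpq hx, if_pos rfl]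
    refine ⟨mem_of_proj hpq (hu' p q x hx) ?_, h1⟩
    rw [← e2, h1]
  · intro p q y hpq hy
    have h1 : u (v y) = y := by rw [e2, proj_of Y _ hpq hy, if_pos rfl]
    refine ⟨mem_of_proj hpq (hv' p q y hy) ?_, h1⟩
    rw [← e1, h1]

theorem same_of_iso {r : RatStr X} {t : RatStr Y} {m : ℕ} (h : HodgeIso r t m) :
    SameHodge r t (fun k => k = m) := by
  classical
  obtain ⟨u, v, hu, hv, h1, h2⟩ := h
  have key : ∀ (Z Z' : KRing n) (z : RatStr Z) (z' : RatStr Z') (f : Z.R →ₗ[ℂ] Z'.R)
      (g : Z'.R →ₗ[ℂ] Z.R), RatOp z z' f →
      (∀ (p q : ℤ) (x : Z.R), p + q = m → x ∈ Z.H (p, q) → f x ∈ Z'.H (p, q) ∧ g (f x) = x) →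
      RatOp z z' (f ∘ₗ dg Z m) ∧ TypeOp (f ∘ₗ dg Z m) ∧
      (g ∘ₗ dg Z' m) ∘ₗ (f ∘ₗ dg Z m) = proj Z (fun k => k = m) := by
    intro Z Z' z z' f g hf h
    refine ⟨ratOp_comp z hf (ratOp_dg z m), ?_, ?_⟩
    · intro p q x hx
      rw [LinearMap.comp_apply, dg_of Z hx]
      split_ifs with hpq
      · exact mem_typ Z' (h p q x hpq hx).1
      · rw [map_zero]; exact Submodule.zero_mem _
    · refine hom_ext Z fun p q x hx => ?_
      by_cases hne : x = 0
      · rw [hne, map_zero, map_zero]
      have hr : ¬ (p < 0 ∨ q < 0 ∨ (n : ℤ) < p ∨ (n : ℤ) < q) :=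
        fun h => hne (zero_of Z h hx)
      obtain ⟨j, hj⟩ : ∃ j : ℕ, p + q = j := ⟨(p + q).toNat, by omega⟩
      rw [proj_of Z _ hj hx, LinearMap.comp_apply, LinearMap.comp_apply, LinearMap.comp_apply,
        dg_of Z hx]
      by_cases hjm : j = m
      · have hpq : p + q = m := by rw [hj, hjm]
        rw [if_pos hpq, if_pos hjm, dg_of Z' (h p q x hpq hx).1, if_pos hpq, (h p q x hpq hx).2]
      · rw [if_neg (by omega), if_neg hjm, map_zero, map_zero, map_zero]
  obtain ⟨a1, a2, a3⟩ := key X Y r t u v hu h1
  obtain ⟨b1, b2, b3⟩ := key Y X t r v u hv h2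
  exact ⟨u ∘ₗ dg X m, v ∘ₗ dg Y m, a1, a2, b1, b2, a3, b3⟩

/-- **Rational Hodge structures of derived equivalent varieties.**  Let `X` and `Y` be smooth
projective complex varieties of dimension `n` with equivalent derived categories.

1. `H^{n-1} ⊕ H^{n-3} ⊕ ...`, and `H^{n-2} ⊕ H^{n-6} ⊕ H^{n-10} ⊕ ...`, of `X` and of `Y` are
   isomorphic rational Hodge structures (up to Tate twists), and `H^n` of `X` and `Y` are
   isomorphic if and only if `H^{n-4} ⊕ H^{n-8} ⊕ ...` of `X` and `Y` are.
2. If `n ≤ 3`, then `H^m (X, ℚ)` and `H^m (Y, ℚ)` are isomorphic rational Hodge structures for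
   all `m`.
3. If `n = 4`, then this holds for all even `m`; and for all `m`, if it holds for `m = 1`.
4. If `n = 5`, then this holds for `m = 3` and `m = 7`, and for all odd `m`, if it holds for
   `m = 1`.
5. If `n = 6`, then this holds for `m = 4` and `m = 8`. -/
theorem main (n : ℕ) (X Y : KRing n) (r : RatStr X) (t : RatStr Y) (Φ : FM X Y)
    (h1 : RatOp r t (Φ.φ : X.R →ₗ[ℂ] Y.R)) (h2 : RatOp t r (Φ.φ.symm : Y.R →ₗ[ℂ] X.R)) :
    SameHodge r t (fun m => m < n ∧ (n - m) % 2 = 1) ∧
    SameHodge r t (fun m => m < n ∧ (n - m) % 4 = 2) ∧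
    (HodgeIso r t n ↔ SameHodge r t (fun m => m < n ∧ (n - m) % 4 = 0)) ∧
    (n ≤ 3 → ∀ m, HodgeIso r t m) ∧
    (n = 4 → (∀ m, Even m → HodgeIso r t m) ∧ (HodgeIso r t 1 → ∀ m, HodgeIso r t m)) ∧
    (n = 5 → HodgeIso r t 3 ∧ HodgeIso r t 7 ∧ (HodgeIso r t 1 → ∀ m, Odd m → HodgeIso r t m)) ∧
    (n = 6 → HodgeIso r t 4 ∧ HodgeIso r t 8) := by
  classical
  obtain ⟨T, a, b, hD, hB, hC, hA, hS⟩ := relations r t Φ h1 h2
  have hiff : ∀ m, HodgeIso r t m ↔ SameHodge r t (fun k => k = m) := fun m =>
    ⟨same_of_iso, iso_of_same⟩
  have hlow : ∀ (P : ℕ → Prop) [DecidablePred P] (c : ℕ → ℚ),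
      ∑ m ∈ (Finset.range (2 * n + 1)).filter (fun m => m < n ∧ P m), c m =
      ∑ m ∈ (Finset.range n).filter P, c m := by
    intro P _ c
    refine Finset.sum_congr ?_ fun _ _ => rfl
    ext m
    simp only [Finset.mem_filter, Finset.mem_range]
    constructor
    · rintro ⟨_, h, hp⟩
      exact ⟨h, hp⟩
    · rintro ⟨h, hp⟩
      exact ⟨by omega, h, hp⟩
  have hone : ∀ m, m ≤ 2 * n → (SameHodge r t (fun k => k = m) ↔ ∀ S, a S m = b S m) := by
    intro m hm
    rw [hD]
    refine forall_congr' fun S => ?_
    have e : (Finset.range (2 * n + 1)).filter (fun k => k = m) = {m} := by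
      ext k
      simp only [Finset.mem_filter, Finset.mem_range, Finset.mem_singleton]
      omega
    rw [e, Finset.sum_singleton, Finset.sum_singleton]
  have hbig : ∀ m, 2 * n < m → HodgeIso r t m := by
    intro m hm
    rw [hiff, hD]
    intro S
    have e : (Finset.range (2 * n + 1)).filter (fun k => k = m) = ∅ := by
      ext k
      simp only [Finset.mem_filter, Finset.mem_range, Finset.notMem_empty, iff_false]
      omega
    rw [e, Finset.sum_empty, Finset.sum_empty]
  have h0 : ∀ S, a S 0 = b S 0 := (hone 0 (by omega)).1 (same_zero r t)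
  have hiso : ∀ m, m ≤ 2 * n → (HodgeIso r t m ↔ ∀ S, a S m = b S m) := fun m hm =>
    (hiff m).trans (hone m hm)
  have hsym : ∀ k, k ≤ n → (∀ S, a S (n - k) = b S (n - k)) → ∀ S, a S (n + k) = b S (n + k) := by
    intro k hk h S
    rw [(hS S k hk).1, (hS S k hk).2, h S]
  refine ⟨?_, ?_, ?_, ?_, ?_, ?_, ?_⟩
  · rw [hD]
    intro S
    rw [hlow, hlow]
    exact hA S
  · rw [hD]
    intro S
    rw [hlow, hlow]
    exact hB S
  · rw [hiso n (by omega), hD]
    constructor
    · intro h S
      rw [hlow, hlow]
      have := hC S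
      rw [h S] at this
      linarith
    · intro h S
      have h3 := h S
      rw [hlow, hlow] at h3
      have := hC S
      rw [h3] at this
      linarith
  · intro hn m
    by_cases hm : 2 * n < m
    · exact hbig m hm
    rw [hiso m (by omega)]
    have key : ∀ j, j ≤ n → ∀ S, a S j = b S j := by
      intro j hj S
      have f1 := hA S
      have f2 := hB S
      have f3 := hC S
      have f0 := h0 S
      interval_cases n
      · have : j = 0 := by omega
        rw [this, f0]
      · simp [Finset.sum_filter, Finset.sum_range_succ] at f1 f2 f3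
        interval_cases j
        · exact f0
        · exact f3
      · simp [Finset.sum_filter, Finset.sum_range_succ] at f1 f2 f3
        interval_cases j
        · exact f0
        · exact f1
        · exact f3
      · simp [Finset.sum_filter, Finset.sum_range_succ] at f1 f2 f3
        interval_cases j
        · exact f0
        · exact f2
        · linarith
        · exact f3
    by_cases hmn : m ≤ n
    · exact key m hmn
    · obtain ⟨k, hk⟩ : ∃ k, m = n + k := ⟨m - n, by omega⟩
      rw [hk]
      exact hsym k (by omega) (key _ (by omega))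
  · intro hn
    subst hn
    have g2 : ∀ S, a S 2 = b S 2 := by
      intro S
      have := hB S
      simp [Finset.sum_filter, Finset.sum_range_succ] at this
      exact this
    have g4 : ∀ S, a S 4 = b S 4 := by
      intro S
      have := hC S
      simp [Finset.sum_filter, Finset.sum_range_succ] at this
      have f0 := h0 S
      linarith
    have g6 := hsym 2 (by norm_num) g2
    have g8 := hsym 4 (by norm_num) h0
    have even : ∀ m, Even m → HodgeIso r t m := by
      intro m hm
      by_cases hm8 : 2 * 4 < m
      · exact hbig m hm8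
      rw [hiso m (by omega)]
      have : m ≤ 8 := by omega
      interval_cases m
      · exact h0
      · exact absurd hm (by decide)
      · exact g2
      · exact absurd hm (by decide)
      · exact g4
      · exact absurd hm (by decide)
      · exact g6
      · exact absurd hm (by decide)
      · exact g8
    refine ⟨even, fun g1 m => ?_⟩
    by_cases hm : Even m
    · exact even m hm
    by_cases hm8 : 2 * 4 < m
    · exact hbig m hm8
    rw [hiso 1 (by norm_num)] at g1
    have g3 : ∀ S, a S 3 = b S 3 := by
      intro S
      have := hA S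
      simp [Finset.sum_filter, Finset.sum_range_succ] at this
      have f1 := g1 S
      linarith
    have g5 := hsym 1 (by norm_num) g3
    have g7 := hsym 3 (by norm_num) g1
    rw [hiso m (by omega)]
    have : m ≤ 8 := by omega
    interval_cases m
    · exact absurd (by decide) hm
    · exact g1
    · exact absurd (by decide) hm
    · exact g3
    · exact absurd (by decide) hm
    · exact g5
    · exact absurd (by decide) hm
    · exact g7
    · exact absurd (by decide) hm
  · intro hn
    subst hn
    have g3 : ∀ S, a S 3 = b S 3 := by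
      intro S
      have := hB S
      simp [Finset.sum_filter, Finset.sum_range_succ] at this
      exact this
    have g7 := hsym 2 (by norm_num) g3
    refine ⟨(hiso 3 (by norm_num)).2 g3, (hiso 7 (by norm_num)).2 g7, fun g1 m hm => ?_⟩
    by_cases hm10 : 2 * 5 < m
    · exact hbig m hm10
    rw [hiso 1 (by norm_num)] at g1
    have g5 : ∀ S, a S 5 = b S 5 := by
      intro S
      have := hC S
      simp [Finset.sum_filter, Finset.sum_range_succ] at this
      have f1 := g1 S
      linarith
    have g9 := hsym 4 (by norm_num) g1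
    rw [hiso m (by omega)]
    have : m ≤ 10 := by omega
    interval_cases m
    · exact absurd hm (by decide)
    · exact g1
    · exact absurd hm (by decide)
    · exact g3
    · exact absurd hm (by decide)
    · exact g5
    · exact absurd hm (by decide)
    · exact g7
    · exact absurd hm (by decide)
    · exact g9
    · exact absurd hm (by decide)
  · intro hn
    subst hn
    have g4 : ∀ S, a S 4 = b S 4 := by
      intro S
      have := hB S
      simp [Finset.sum_filter, Finset.sum_range_succ] at this
      have f0 := h0 S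
      linarith
    exact ⟨(hiso 4 (by norm_num)).2 g4, (hiso 8 (by norm_num)).2 (hsym 2 (by norm_num) g4)⟩

end Pool.Agent.R941.OH.HStr
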