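import Pool.Agent.R941.OH.Hs

/-!
# Rational Hodge structures of derived equivalent varieties
-/

set_option autoImplicit false

open scoped ComplexConjugate
open Module Pool.Agent.W539.DI

namespace Pool.Agent.R941.OH

variable {n : ℕ}

open Classical in
/-- the projection of the cohomology to the degrees `m` with `D m` -/
noncomputable def proj (X : KRing n) (D : ℕ → Prop) : X.R →ₗ[ℂ] X.R :=
  diag X (fun pq => if ∃ m : ℕ, D m ∧ pq.1 + pq.2 = m then 1 else 0)

/-- The rational Hodge structures `⊕ H^m (X, ℚ)` and `⊕ H^m (Y, ℚ)`, sums over all `m` with `D m`,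
are isomorphic up to Tate twists: there are linear maps `u` and `v` between the cohomology spaces,
which preserve the rational classes and the difference `p - q` of the types, and which are
inverse to each other on these degrees. -/
def SameHodge {X Y : KRing n} (r : RatStr X) (t : RatStr Y) (D : ℕ → Prop) : Prop :=
  ∃ (u : X.R →ₗ[ℂ] Y.R) (v : Y.R →ₗ[ℂ] X.R), RatOp r t u ∧ TypeOp u ∧ RatOp t r v ∧ TypeOp v ∧
    v ∘ₗ u = proj X D ∧ u ∘ₗ v = proj Y D

theorem proj_of (X : KRing n) (D : ℕ → Prop) {m : ℕ} {p q : ℤ} (hpq : p + q = m) {x : X.R}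
    (hx : x ∈ X.H (p, q)) [Decidable (D m)] : proj X D x = if D m then x else 0 := by
  unfold proj
  rw [diag_of X _ hx]
  by_cases h : D m
  · rw [if_pos h, if_pos, one_smul]
    exact ⟨m, h, hpq⟩
  · rw [if_neg h, if_neg, zero_smul]
    rintro ⟨k, hk, hk2⟩
    simp only at hk2
    have : k = m := by omega
    exact h (this ▸ hk)

theorem Act.rho_pD {E : Type} [Ring E] [Algebra ℚ E] {X : KRing n} (A : Act E X) (D : ℕ → Prop)
    [DecidablePred D] : A.ρ (A.L.pD D) = proj X D := by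
  refine hom_ext X fun p q x hx => ?_
  by_cases hne : x = 0
  · rw [hne, map_zero, map_zero]
  have hr : ¬ (p < 0 ∨ q < 0 ∨ (n : ℤ) < p ∨ (n : ℤ) < q) := fun h => hne (zero_of X h hx)
  obtain ⟨m, hm⟩ : ∃ m : ℕ, p + q = m := ⟨(p + q).toNat, by omega⟩
  have h1 : A.ρ (A.L.p m) x = x := by rw [A.rho_p, dg_of X hx, if_pos hm]
  have h2 := A.L.pD_p D (show m ≤ 2 * n by omega)
  have h3 : A.ρ (A.L.pD D) x = A.ρ (A.L.pD D * A.L.p m) x := by
    rw [map_mul, Module.End.mul_apply, h1]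
  rw [h3, h2, proj_of X D hm hx]
  split_ifs
  · exact h1
  · rw [map_zero]
    rfl

theorem t_pD {E : Type} [Ring E] [Algebra ℚ E] {X : KRing n} (A : Act E X) (D : ℕ → Prop)
    [DecidablePred D] (t : E →+ ℚ) :
    t (A.L.pD D) = ∑ m ∈ (Finset.range (2 * n + 1)).filter D, t (A.L.p m) := by
  unfold Lef.pD
  rw [map_sum]

/-! ### Degree zero -/

section zero

variable {X Y : KRing n} (r : RatStr X) (t : RatStr Y)

theorem one_ne (X : KRing n) : (1 : X.R) ≠ 0 := by
  intro h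
  have h1 : Subsingleton X.R := subsingleton_of_zero_eq_one h.symm
  have h2 := X.conn
  have h3 : finrank ℂ (X.H (0, 0)) = 0 := finrank_zero_of_subsingleton
  omega

/-- the coefficient of a class in degree zero -/
theorem exists_coef (X : KRing n) : ∃ f : X.R →ₗ[ℂ] ℂ, ∀ x, dg X 0 x = f x • (1 : X.R) := by
  obtain ⟨g, hg⟩ : ∃ g : X.R →ₗ[ℂ] ℂ, g 1 = 1 := Module.Projective.exists_dual_eq_one ℂ (one_ne X)
  refine ⟨g ∘ₗ dg X 0, fun x => ?_⟩
  have h1 : dg X 0 x ∈ X.H (0, 0) := by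
    refine X.ind (P := fun x => dg X 0 x ∈ X.H (0, 0)) ?_ ?_ ?_ x
    · rw [map_zero]; exact Submodule.zero_mem _
    · intro x y hx hy
      rw [map_add]; exact Submodule.add_mem _ hx hy
    · intro p q x hx
      rw [dg_of X hx]
      split_ifs with h
      · by_cases h0 : p < 0 ∨ q < 0
        · rw [zero_of X (by omega) hx]; exact Submodule.zero_mem _
        · have hp : p = 0 := by push_cast at h; omega
          have hq : q = 0 := by push_cast at h; omega
          rw [hp, hq] at hx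
          exact hx
      · exact Submodule.zero_mem _
  have h2 : ∀ y ∈ X.H (0, 0), ∃ c : ℂ, c • (1 : X.R) = y := by
    intro y hy
    have h3 := (finrank_eq_one_iff_of_nonzero' (⟨1, X.one_mem⟩ : X.H (0, 0)) (by
      intro h
      exact one_ne X (congrArg Subtype.val h))).1 X.conn ⟨y, hy⟩
    obtain ⟨c, hc⟩ := h3
    exact ⟨c, congrArg Subtype.val hc⟩
  obtain ⟨c, hc⟩ := h2 _ h1
  rw [LinearMap.comp_apply, ← hc, map_smul, hg, smul_eq_mul, mul_one]

theorem same_zero : SameHodge r t (fun m => m = 0) := by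
  classical
  obtain ⟨f, hf⟩ := exists_coef X
  obtain ⟨g, hg⟩ := exists_coef Y
  have hf1 : f 1 = 1 := by
    have h := hf 1
    rw [dg_of X X.one_mem, if_pos (by simp)] at h
    by_contra hne
    have h2 : (f 1 - 1) • (1 : X.R) = 0 := by rw [sub_smul, one_smul, ← h, sub_self]
    rcases smul_eq_zero.1 h2 with h3 | h3
    · exact hne (sub_eq_zero.1 h3)
    · exact one_ne X h3
  have hg1 : g 1 = 1 := by
    have h := hg 1
    rw [dg_of Y Y.one_mem, if_pos (by simp)] at h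
    by_contra hne
    have h2 : (g 1 - 1) • (1 : Y.R) = 0 := by rw [sub_smul, one_smul, ← h, sub_self]
    rcases smul_eq_zero.1 h2 with h3 | h3
    · exact hne (sub_eq_zero.1 h3)
    · exact one_ne Y h3
  have rat_f : ∀ (Z : KRing n) (z : RatStr Z) (k : Z.R →ₗ[ℂ] ℂ),
      (∀ x, dg Z 0 x = k x • (1 : Z.R)) → ∀ x, z.IsRat x → ∃ q : ℚ, k x = q := by
    intro Z z k hk x hx
    have h1 : z.IsRat (k x • (1 : Z.R)) := by
      rw [← hk]
      exact ratOp_dg z 0 x hx
    obtain ⟨i, hi⟩ : ∃ i, z.e.repr 1 i ≠ 0 := by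
      by_contra hcon
      push Not at hcon
      apply one_ne Z
      apply z.e.ext_elem
      intro i
      rw [hcon, map_zero]
      rfl
    obtain ⟨a, ha⟩ := h1 i
    obtain ⟨b, hb⟩ := z.one_rat i
    rw [map_smul, Finsupp.smul_apply, smul_eq_mul, hb] at ha
    rw [hb] at hi
    refine ⟨a / b, ?_⟩
    push_cast
    rw [eq_div_iff hi, ha]
  have type_f : ∀ (Z Z' : KRing n) (k : Z.R →ₗ[ℂ] ℂ), (∀ x, dg Z 0 x = k x • (1 : Z.R)) →
      TypeOp (X := Z) (Y := Z') (k.smulRight (1 : Z'.R)) := by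
    intro Z Z' k hk p q x hx
    rw [LinearMap.smulRight_apply]
    have h1 := hk x
    rw [dg_of Z hx] at h1
    by_cases hne : k x = 0
    · rw [hne, zero_smul]; exact Submodule.zero_mem _
    · have hx0 : x ≠ 0 := by
        intro h
        rw [h, map_zero] at hne
        exact hne rfl
      split_ifs at h1 with h
      · have h0 : ¬ (p < 0 ∨ q < 0 ∨ (n : ℤ) < p ∨ (n : ℤ) < q) :=
          fun h => hx0 (zero_of Z h hx)
        have hp : p = 0 := by push_cast at h; omega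
        have hq : q = 0 := by push_cast at h; omega
        rw [hp, hq]
        exact Submodule.smul_mem _ _ (mem_typ Z' Z'.one_mem)
      · exfalso
        rcases smul_eq_zero.1 h1.symm with h3 | h3
        · exact hne h3
        · exact one_ne Z h3
  have rat_op : ∀ (Z Z' : KRing n) (z : RatStr Z) (z' : RatStr Z') (k : Z.R →ₗ[ℂ] ℂ),
      (∀ x, dg Z 0 x = k x • (1 : Z.R)) → RatOp z z' (k.smulRight (1 : Z'.R)) := by
    intro Z Z' z z' k hk x hx
    rw [LinearMap.smulRight_apply]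
    obtain ⟨q, hq⟩ := rat_f Z z k hk x hx
    rw [hq]
    exact rat_smul z' q z'.one_rat
  have comp_f : ∀ (Z Z' : KRing n) (k : Z.R →ₗ[ℂ] ℂ) (k' : Z'.R →ₗ[ℂ] ℂ),
      (∀ x, dg Z 0 x = k x • (1 : Z.R)) → k' 1 = 1 →
      (k'.smulRight (1 : Z.R)) ∘ₗ (k.smulRight (1 : Z'.R)) = proj Z (fun m => m = 0) := by
    intro Z Z' k k' hk hk1
    have h1 : proj Z (fun m => m = 0) = dg Z 0 := by
      refine hom_ext Z fun p q x hx => ?_
      by_cases hne : x = 0
      · rw [hne, map_zero, map_zero]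
      have hr : ¬ (p < 0 ∨ q < 0 ∨ (n : ℤ) < p ∨ (n : ℤ) < q) :=
        fun h => hne (zero_of Z h hx)
      obtain ⟨m, hm⟩ : ∃ m : ℕ, p + q = m := ⟨(p + q).toNat, by omega⟩
      rw [proj_of Z _ hm hx, dg_of Z hx]
      by_cases h0 : m = 0
      · rw [if_pos h0, if_pos (by rw [hm, h0])]
      · rw [if_neg h0, if_neg (by push_cast; omega)]
    rw [h1]
    ext x
    rw [hk, LinearMap.comp_apply, LinearMap.smulRight_apply, LinearMap.smulRight_apply, map_smul,
      hk1, smul_eq_mul, mul_one]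
  exact ⟨f.smulRight 1, g.smulRight 1, rat_op X Y r t f hf, type_f X Y f hf, rat_op Y X t r g hg,
    type_f Y X g hg, comp_f X Y f g hf hg1, comp_f Y X g f hg hf1⟩

end zero

section main

variable {X Y : KRing n} (r : RatStr X) (t : RatStr Y) (Φ : FM X Y)
  (h1 : RatOp r t (Φ.φ : X.R →ₗ[ℂ] Y.R)) (h2 : RatOp t r (Φ.φ.symm : Y.R →ₗ[ℂ] X.R))

include h1 h2

theorem same_iff (A : Act (EHS r) X) (B : Act (EHS r) Y) (hA : A.ρ = rhoX r) (hB : B.ρ = rhoY r Φ)
    (D : ℕ → Prop) [DecidablePred D] :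
    SameHodge r t D ↔ ∀ S : Submodule (EHS r) (EHS r), tS S (A.L.pD D) = tS S (B.L.pD D) := by
  constructor
  · rintro ⟨u, v, hu, hu', hv, hv', hvu, huv⟩ S
    obtain ⟨b, hb⟩ := exists_EHS r (a := (Φ.φ.symm : Y.R →ₗ[ℂ] X.R) ∘ₗ u)
      (ratOp_comp r h2 hu) (typeOp_comp (typeOp_symm Φ) hu')
    obtain ⟨a, ha⟩ := exists_EHS r (a := v ∘ₗ (Φ.φ : X.R →ₗ[ℂ] Y.R))
      (ratOp_comp r hv h1) (typeOp_comp hv' (typeOp_phi Φ))
    refine equiv_tS (a := a) (b := b) ?_ ?_ S
    · apply A.inj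
      rw [A.rho_pD, hA, map_mul, ha, hb, ← hvu]
      ext x
      simp
    · apply B.inj
      rw [B.rho_pD, hB, map_mul, ← huv]
      ext y
      rw [Module.End.mul_apply, rhoY_apply, rhoY_apply, LinearEquiv.symm_apply_apply, ha, hb]
      simp
  · intro h
    have _ := A.semisimple
    obtain ⟨a, b, hab, hba⟩ := idem_equiv (A.L.pD_self D) (B.L.pD_self D) h
    refine ⟨(Φ.φ : X.R →ₗ[ℂ] Y.R) ∘ₗ rhoX r b, rhoX r a ∘ₗ (Φ.φ.symm : Y.R →ₗ[ℂ] X.R),
      ratOp_comp r h1 (rhoX_rat r b), typeOp_comp (typeOp_phi Φ) (rhoX_type r b),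
      ratOp_comp t (rhoX_rat r a) h2, typeOp_comp (rhoX_type r a) (typeOp_symm Φ), ?_, ?_⟩
    · rw [← A.rho_pD, hA, ← hab, map_mul]
      ext x
      simp
    · rw [← B.rho_pD, hB, ← hba, map_mul]
      ext y
      rw [Module.End.mul_apply, rhoY_apply, rhoY_apply, LinearEquiv.symm_apply_apply]
      simp

/-- all the relations between the multiplicities -/
theorem relations : ∃ (T : Type) (a b : T → ℕ → ℚ),
    (∀ (D : ℕ → Prop) [DecidablePred D], SameHodge r t D ↔ ∀ S,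
      ∑ m ∈ (Finset.range (2 * n + 1)).filter D, a S m =
        ∑ m ∈ (Finset.range (2 * n + 1)).filter D, b S m) ∧
    (∀ S, ∑ j ∈ (Finset.range n).filter (fun j => (n - j) % 4 = 2), a S j =
      ∑ j ∈ (Finset.range n).filter (fun j => (n - j) % 4 = 2), b S j) ∧
    (∀ S, a S n + 2 * ∑ j ∈ (Finset.range n).filter (fun j => (n - j) % 4 = 0), a S j =
      b S n + 2 * ∑ j ∈ (Finset.range n).filter (fun j => (n - j) % 4 = 0), b S j) ∧
    (∀ S, ∑ j ∈ (Finset.range n).filter (fun j => (n - j) % 2 = 1), a S j =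
      ∑ j ∈ (Finset.range n).filter (fun j => (n - j) % 2 = 1), b S j) ∧
    (∀ S k, k ≤ n → a S (n + k) = a S (n - k) ∧ b S (n + k) = b S (n - k)) := by
  obtain ⟨A, hA⟩ := exists_actX r
  obtain ⟨B, hB⟩ := exists_actY r t Φ h1 h2
  have hΦ : ∀ a x, Φ.φ (A.ρ a x) = B.ρ a (Φ.φ x) := by
    intro a x
    rw [hA, hB, rhoY_apply, LinearEquiv.symm_apply_apply]
  refine ⟨Submodule (EHS r) (EHS r), fun S m => tS S (A.L.p m), fun S m => tS S (B.L.p m), ?_, ?_,
    ?_, ?_, ?_⟩
  · intro D _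
    rw [same_iff r t Φ h1 h2 A B hA hB D]
    refine forall_congr' fun S => ?_
    rw [t_pD, t_pD]
  · exact fun S => core1 A B Φ hΦ S
  · exact fun S => core2 A B Φ hΦ S
  · exact fun S => core3 A B Φ hΦ S
  · exact fun S k hk => ⟨A.L.t_sym (tS S) (tS_mul S) hk, B.L.t_sym (tS S) (tS_mul S) hk⟩

end main

end Pool.Agent.R941.OH
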