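import Mathlib

/-!
# Graded Lefschetz structures in a ring
-/

set_option autoImplicit false

namespace Pool.Agent.R941.OH

open Finset

/-- Elements of a ring which behave like the degree projectors `p m`, the Lefschetz operator `o` and
the inverses `κ k` of its powers `o ^ k` from degree `n - k` to degree `n + k` on the cohomology of
a variety of dimension `n`. -/
@[ext]
structure Lef (A : Type*) [Ring A] (n : ℕ) where
  p : ℕ → A
  o : A
  κ : ℕ → A
  pp : ∀ i j, p i * p j = if i = j then p i else 0
  sum : ∑ i ∈ range (2 * n + 1), p i = 1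
  op : ∀ i, o * p i = p (i + 2) * o
  κl : ∀ k, k ≤ n → p (n - k) * κ k = κ k
  κr : ∀ k, k ≤ n → κ k * p (n + k) = κ k
  κ1 : ∀ k, k ≤ n → κ k * (o ^ k * p (n - k)) = p (n - k)
  κ2 : ∀ k, k ≤ n → o ^ k * κ k = p (n + k)

namespace Lef

variable {A : Type*} [Ring A] {n : ℕ} (L : Lef A n)

theorem p_self (i : ℕ) : L.p i * L.p i = L.p i := by rw [L.pp, if_pos rfl]

theorem p_ne {i j : ℕ} (h : i ≠ j) : L.p i * L.p j = 0 := by rw [L.pp, if_neg h]

theorem o_pow_p (k i : ℕ) : L.o ^ k * L.p i = L.p (i + 2 * k) * L.o ^ k := by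
  induction k with
  | zero => simp
  | succ k ih =>
    rw [pow_succ', mul_assoc, ih, ← mul_assoc, L.op, mul_assoc]
    congr 2

/-- `lam m` is the inverse of `o` from degree `m` to `m + 2`, extended by zero. -/
def lam (m : ℕ) : A := L.κ (n - m) * (L.o ^ (n - m - 1) * L.p (m + 2))

theorem lam_p (m : ℕ) : L.lam m * L.p (m + 2) = L.lam m := by
  unfold lam
  rw [mul_assoc, mul_assoc, L.p_self]

theorem p_lam {m : ℕ} (h : m ≤ n) : L.p m * L.lam m = L.lam m := by
  unfold lam
  have := L.κl (n - m) (Nat.sub_le _ _)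
  rw [Nat.sub_sub_self h] at this
  rw [← mul_assoc, this]

theorem lam_o {m : ℕ} (h : m + 2 ≤ n) : L.lam m * (L.o * L.p m) = L.p m := by
  unfold lam
  have h1 := L.κ1 (n - m) (Nat.sub_le _ _)
  rw [Nat.sub_sub_self (by omega)] at h1
  have h2 : L.o ^ (n - m) = L.o ^ (n - m - 1) * L.o := by
    rw [← pow_succ]
    congr 1
    omega
  calc L.κ (n - m) * (L.o ^ (n - m - 1) * L.p (m + 2)) * (L.o * L.p m)
      = L.κ (n - m) * (L.o ^ (n - m - 1) * (L.p (m + 2) * L.o) * L.p m) := by
        simp only [mul_assoc]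
    _ = L.κ (n - m) * (L.o ^ (n - m) * (L.p m * L.p m)) := by
        rw [← L.op, h2]; simp only [mul_assoc]
    _ = L.p m := by rw [L.p_self, h1]

/-- The involution `ω ^ j x ↦ (-1) ^ j ω ^ j x`, `x` primitive, in degree `m ≤ n`. -/
def v : ℕ → A
  | 0 => L.p 0
  | 1 => L.p 1
  | m + 2 => L.p (m + 2) - L.o * L.lam m - L.o * v m * L.lam m

theorem v_p (m : ℕ) : L.v m * L.p m = L.v m := by
  match m with
  | 0 => exact L.p_self 0
  | 1 => exact L.p_self 1
  | m + 2 =>
    show (L.p (m + 2) - L.o * L.lam m - L.o * L.v m * L.lam m) * L.p (m + 2) =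
      (L.p (m + 2) - L.o * L.lam m - L.o * L.v m * L.lam m)
    rw [sub_mul, sub_mul, mul_assoc L.o, mul_assoc (L.o * L.v m), L.lam_p, L.p_self]

theorem p_v (m : ℕ) (h : m ≤ n) : L.p m * L.v m = L.v m := by
  induction m using Nat.strong_induction_on with
  | _ m ih =>
    match m, ih, h with
    | 0, _, _ => exact L.p_self 0
    | 1, _, _ => exact L.p_self 1
    | m + 2, ih, h =>
      have h1 := ih m (by omega) (by omega)
      show L.p (m + 2) * (L.p (m + 2) - L.o * L.lam m - L.o * L.v m * L.lam m) =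
        (L.p (m + 2) - L.o * L.lam m - L.o * L.v m * L.lam m)
      have e1 : L.p (m + 2) * (L.o * L.lam m) = L.o * L.lam m := by
        rw [← mul_assoc, ← L.op, mul_assoc, L.p_lam (by omega)]
      have e2 : L.p (m + 2) * (L.o * L.v m * L.lam m) = L.o * L.v m * L.lam m := by
        rw [mul_assoc L.o, ← mul_assoc (L.p _), ← L.op, mul_assoc, ← mul_assoc (L.p m), h1]
      rw [mul_sub, mul_sub, L.p_self, e1, e2]

theorem v_v (m : ℕ) (h : m ≤ n) : L.v m * L.v m = L.p m := by
  induction m using Nat.strong_induction_on with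
  | _ m ih =>
    match m, ih, h with
    | 0, _, _ => exact L.p_self 0
    | 1, _, _ => exact L.p_self 1
    | m + 2, ih, h =>
      have h1 := ih m (by omega) (by omega)
      have hpl : L.p m * L.lam m = L.lam m := L.p_lam (by omega)
      have hlo := L.lam_o h
      have hpv : L.p m * L.v m = L.v m := L.p_v m (by omega)
      show (L.p (m + 2) - L.o * L.lam m - L.o * L.v m * L.lam m) *
        (L.p (m + 2) - L.o * L.lam m - L.o * L.v m * L.lam m) = L.p (m + 2)
      have hlam : L.lam m * L.p (m + 2) = L.lam m := L.lam_p m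
      have e1 : L.p (m + 2) * (L.o * L.lam m) = L.o * L.lam m := by
        rw [← mul_assoc, ← L.op, mul_assoc, hpl]
      have e2 : L.p (m + 2) * (L.o * L.v m * L.lam m) = L.o * L.v m * L.lam m := by
        rw [mul_assoc L.o, ← mul_assoc (L.p _), ← L.op, mul_assoc, ← mul_assoc (L.p m), hpv]
      have e3 : L.lam m * (L.o * L.lam m) = L.lam m := by
        calc L.lam m * (L.o * L.lam m) = L.lam m * (L.o * (L.p m * L.lam m)) := by rw [hpl]
          _ = (L.lam m * (L.o * L.p m)) * L.lam m := by simp only [mul_assoc]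
          _ = L.lam m := by rw [hlo, hpl]
      have e4 : L.lam m * (L.o * L.v m * L.lam m) = L.v m * L.lam m := by
        calc L.lam m * (L.o * L.v m * L.lam m)
            = L.lam m * (L.o * (L.p m * L.v m) * L.lam m) := by rw [hpv]
          _ = (L.lam m * (L.o * L.p m)) * (L.v m * L.lam m) := by simp only [mul_assoc]
          _ = (L.p m * L.v m) * L.lam m := by rw [hlo, ← mul_assoc]
          _ = _ := by rw [hpv]
      have f1 : (L.o * L.lam m) * L.p (m + 2) = L.o * L.lam m := by rw [mul_assoc, hlam]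
      have f2 : (L.o * L.v m * L.lam m) * L.p (m + 2) = L.o * L.v m * L.lam m := by
        rw [mul_assoc, hlam]
      have g1 : (L.o * L.lam m) * (L.o * L.lam m) = L.o * L.lam m := by rw [mul_assoc, e3]
      have g2 : (L.o * L.lam m) * (L.o * L.v m * L.lam m) = L.o * L.v m * L.lam m := by
        rw [mul_assoc, e4, mul_assoc]
      have g3 : (L.o * L.v m * L.lam m) * (L.o * L.lam m) = L.o * L.v m * L.lam m := by
        rw [mul_assoc, e3]
      have g4 : (L.o * L.v m * L.lam m) * (L.o * L.v m * L.lam m) = L.o * L.lam m := by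
        calc (L.o * L.v m * L.lam m) * (L.o * L.v m * L.lam m)
            = L.o * L.v m * (L.lam m * (L.o * L.v m * L.lam m)) := by rw [mul_assoc]
          _ = L.o * ((L.v m * L.v m) * L.lam m) := by rw [e4]; simp only [mul_assoc]
          _ = _ := by rw [h1, hpl]
      rw [sub_mul, sub_mul, mul_sub, mul_sub, mul_sub, mul_sub, mul_sub, mul_sub, L.p_self, e1, e2,
        f1, f2, g1, g2, g3, g4]
      abel

/-- The pieces of the operator `W`. -/
def up (k : ℕ) : A := L.o ^ k * L.v (n - k)

def dn (k : ℕ) : A := L.v (n - k) * L.κ k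

/-- The (modified) Hodge star operator. -/
def W : A := L.v n + ∑ k ∈ range n, (L.up (k + 1) + (-1 : A) ^ (k + 1) * L.dn (k + 1))

theorem up_p {k : ℕ} (hk : k ≤ n) (m : ℕ) : L.up k * L.p m = if m = n - k then L.up k else 0 := by
  unfold up
  split_ifs with h
  · rw [h, mul_assoc, L.v_p]
  · rw [mul_assoc, ← L.v_p, mul_assoc, L.p_ne (Ne.symm h), mul_zero, mul_zero]

theorem p_up {k : ℕ} (hk : k ≤ n) (m : ℕ) : L.p m * L.up k = if m = n + k then L.up k else 0 := by
  have h0 : L.up k = L.p (n + k) * L.up k := by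
    unfold up
    rw [← L.p_v (n - k) (Nat.sub_le _ _), ← mul_assoc (L.o ^ k), L.o_pow_p,
      show n - k + 2 * k = n + k by omega, ← mul_assoc, ← mul_assoc, L.p_self, mul_assoc]
  split_ifs with h
  · rw [h, ← h0]
  · rw [h0, ← mul_assoc, L.p_ne h, zero_mul]

theorem dn_p {k : ℕ} (hk : k ≤ n) (m : ℕ) : L.dn k * L.p m = if m = n + k then L.dn k else 0 := by
  unfold dn
  split_ifs with h
  · rw [h, mul_assoc, L.κr k hk]
  · rw [mul_assoc, ← L.κr k hk, mul_assoc, L.p_ne (Ne.symm h), mul_zero, mul_zero]

theorem p_dn {k : ℕ} (hk : k ≤ n) (m : ℕ) : L.p m * L.dn k = if m = n - k then L.dn k else 0 := by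
  unfold dn
  split_ifs with h
  · rw [h, ← mul_assoc, L.p_v _ (Nat.sub_le _ _)]
  · rw [← L.p_v _ (Nat.sub_le _ _), mul_assoc, ← mul_assoc, L.p_ne h, zero_mul]

theorem neg_one_pow_comm (k : ℕ) (a : A) : (-1 : A) ^ k * a = a * (-1) ^ k := by
  rcases neg_one_pow_eq_or A k with h | h <;> rw [h] <;> simp

theorem W_p_mid : L.W * L.p n = L.v n := by
  unfold W
  rw [add_mul, L.v_p, Finset.sum_mul, Finset.sum_eq_zero, add_zero]
  intro k hk
  have hk' : k + 1 ≤ n := by
    rw [Finset.mem_range] at hk
    omega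
  rw [add_mul, L.up_p hk', if_neg (by omega), mul_assoc, L.dn_p hk', if_neg (by omega), mul_zero,
    add_zero]

theorem W_p_low {k : ℕ} (h0 : 0 < k) (hk : k ≤ n) : L.W * L.p (n - k) = L.up k := by
  unfold W
  have e : L.v n * L.p (n - k) = 0 := by
    rw [← L.v_p, mul_assoc, L.p_ne (by omega), mul_zero]
  rw [add_mul, e, zero_add, Finset.sum_mul, Finset.sum_eq_single (k - 1)]
  · have hk' : k - 1 + 1 = k := by omega
    rw [hk', add_mul, L.up_p hk, if_pos rfl, mul_assoc, L.dn_p hk, if_neg (by omega), mul_zero,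
      add_zero]
  · intro j hj hjk
    have hj' : j + 1 ≤ n := by
      rw [Finset.mem_range] at hj
      omega
    rw [add_mul, L.up_p hj', if_neg (by omega), mul_assoc, L.dn_p hj', if_neg (by omega), mul_zero,
      add_zero]
  · intro h
    rw [Finset.mem_range] at h
    omega

theorem W_p_high {k : ℕ} (h0 : 0 < k) (hk : k ≤ n) :
    L.W * L.p (n + k) = (-1) ^ k * L.dn k := by
  unfold W
  have e : L.v n * L.p (n + k) = 0 := by
    rw [← L.v_p, mul_assoc, L.p_ne (by omega), mul_zero]
  rw [add_mul, e, zero_add, Finset.sum_mul, Finset.sum_eq_single (k - 1)]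
  · have hk' : k - 1 + 1 = k := by omega
    rw [hk', add_mul, L.up_p hk, if_neg (by omega), mul_assoc, L.dn_p hk, if_pos rfl, zero_add]
  · intro j hj hjk
    have hj' : j + 1 ≤ n := by
      rw [Finset.mem_range] at hj
      omega
    rw [add_mul, L.up_p hj', if_neg (by omega), mul_assoc, L.dn_p hj', if_neg (by omega), mul_zero,
      add_zero]
  · intro h
    rw [Finset.mem_range] at h
    omega

theorem ext_p {a b : A} (h : ∀ m, m ≤ 2 * n → a * L.p m = b * L.p m) : a = b := by
  rw [← mul_one a, ← mul_one b, ← L.sum, Finset.mul_sum, Finset.mul_sum]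
  refine Finset.sum_congr rfl fun m hm => h m ?_
  rw [Finset.mem_range] at hm
  omega

theorem dn_up {k : ℕ} (hk : k ≤ n) : L.dn k * L.up k = L.p (n - k) := by
  unfold dn up
  have h1 := L.κ1 k hk
  calc L.v (n - k) * L.κ k * (L.o ^ k * L.v (n - k))
      = L.v (n - k) * L.κ k * (L.o ^ k * (L.p (n - k) * L.v (n - k))) := by
        rw [L.p_v _ (Nat.sub_le _ _)]
    _ = L.v (n - k) * (L.κ k * (L.o ^ k * L.p (n - k))) * L.v (n - k) := by
        simp only [mul_assoc]
    _ = L.v (n - k) * L.v (n - k) := by rw [h1, mul_assoc, L.p_v _ (Nat.sub_le _ _)]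
    _ = _ := L.v_v _ (Nat.sub_le _ _)

theorem up_dn {k : ℕ} (hk : k ≤ n) : L.up k * L.dn k = L.p (n + k) := by
  unfold dn up
  calc L.o ^ k * L.v (n - k) * (L.v (n - k) * L.κ k)
      = L.o ^ k * ((L.v (n - k) * L.v (n - k)) * L.κ k) := by simp only [mul_assoc]
    _ = L.o ^ k * L.κ k := by rw [L.v_v _ (Nat.sub_le _ _), L.κl k hk]
    _ = _ := L.κ2 k hk

theorem W_W_p {m : ℕ} (hm : m ≤ 2 * n) : L.W * (L.W * L.p m) = (-1) ^ (n + m) * L.p m := by
  rcases lt_trichotomy m n with h | h | h
  · obtain ⟨k, hk⟩ : ∃ k, n = m + k := ⟨n - m, by omega⟩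
    have h1 : m = n - k := by omega
    rw [h1, L.W_p_low (by omega) (by omega)]
    have h2 : L.up k = L.p (n + k) * L.up k := by
      rw [L.p_up (by omega), if_pos rfl]
    rw [h2, ← mul_assoc, L.W_p_high (by omega) (by omega), mul_assoc, L.dn_up (by omega)]
    congr 1
    rw [show n + (n - k) = k + 2 * (n - k) by omega, pow_add, pow_mul]
    simp
  · rw [h, L.W_p_mid]
    have h2 : L.v n = L.p n * L.v n := (L.p_v n le_rfl).symm
    rw [h2, ← mul_assoc, L.W_p_mid, L.v_v n le_rfl, ← two_mul, pow_mul]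
    simp
  · obtain ⟨k, hk⟩ : ∃ k, m = n + k := ⟨m - n, by omega⟩
    rw [hk, L.W_p_high (by omega) (by omega)]
    have h2 : L.dn k = L.p (n - k) * L.dn k := by
      rw [L.p_dn (by omega), if_pos rfl]
    rw [h2, neg_one_pow_comm, ← mul_assoc, ← mul_assoc, L.W_p_low (by omega) (by omega),
      L.up_dn (by omega), ← neg_one_pow_comm]
    congr 1
    rw [show n + (n + k) = k + 2 * n by omega, pow_add, pow_mul]
    simp

/-- the projector to the degrees in `D` -/
def pD (D : ℕ → Prop) [DecidablePred D] : A := ∑ m ∈ (range (2 * n + 1)).filter D, L.p m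

theorem pD_p (D : ℕ → Prop) [DecidablePred D] {m : ℕ} (hm : m ≤ 2 * n) :
    L.pD D * L.p m = if D m then L.p m else 0 := by
  unfold pD
  rw [Finset.sum_mul]
  split_ifs with h
  · rw [Finset.sum_eq_single m]
    · exact L.p_self m
    · intro j _ hj
      exact L.p_ne hj
    · intro h1
      exfalso
      apply h1
      rw [Finset.mem_filter, Finset.mem_range]
      exact ⟨by omega, h⟩
  · refine Finset.sum_eq_zero fun j hj => ?_
    rw [Finset.mem_filter] at hj
    refine L.p_ne ?_
    rintro rfl
    exact h hj.2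

theorem p_pD (D : ℕ → Prop) [DecidablePred D] {m : ℕ} (hm : m ≤ 2 * n) :
    L.p m * L.pD D = if D m then L.p m else 0 := by
  unfold pD
  rw [Finset.mul_sum]
  split_ifs with h
  · rw [Finset.sum_eq_single m]
    · exact L.p_self m
    · intro j _ hj
      exact L.p_ne (Ne.symm hj)
    · intro h1
      exfalso
      apply h1
      rw [Finset.mem_filter, Finset.mem_range]
      exact ⟨by omega, h⟩
  · refine Finset.sum_eq_zero fun j hj => ?_
    rw [Finset.mem_filter] at hj
    refine L.p_ne ?_
    rintro rfl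
    exact h hj.2

theorem pD_self (D : ℕ → Prop) [DecidablePred D] : L.pD D * L.pD D = L.pD D := by
  refine L.ext_p fun m hm => ?_
  rw [mul_assoc, L.pD_p D hm]
  split_ifs with h
  · rw [L.pD_p D hm, if_pos h]
  · rw [mul_zero]

theorem W_four : L.W * (L.W * (L.W * L.W)) = 1 := by
  refine L.ext_p fun m hm => ?_
  rw [one_mul]
  simp only [mul_assoc]
  rw [L.W_W_p hm, ← mul_assoc L.W ((-1) ^ (n + m)), ← neg_one_pow_comm, mul_assoc,
    ← mul_assoc L.W ((-1) ^ (n + m)), ← neg_one_pow_comm, mul_assoc, L.W_W_p hm, ← mul_assoc,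
    ← pow_add, ← two_mul, pow_mul]
  simp

/-- the projector to the degrees of the parity of `n` -/
def PT : A := L.pD (fun m => (m + n) % 2 = 0)

theorem PT_p {m : ℕ} (hm : m ≤ 2 * n) : L.PT * L.p m = if (m + n) % 2 = 0 then L.p m else 0 :=
  L.pD_p _ hm

theorem PT_self : L.PT * L.PT = L.PT := L.pD_self _

theorem W_W_PT : L.W * (L.W * L.PT) = L.PT := by
  refine L.ext_p fun m hm => ?_
  rw [mul_assoc, mul_assoc, L.PT_p hm]
  split_ifs with h
  · rw [L.W_W_p hm]
    have h2 : Even (n + m) := by
      rw [Nat.even_iff, add_comm]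
      exact h
    rw [h2.neg_one_pow, one_mul]
  · simp

theorem p_W {m : ℕ} (hm : m ≤ 2 * n) : L.p (2 * n - m) * (L.W * L.p m) = L.W * L.p m := by
  rcases lt_trichotomy m n with h | h | h
  · obtain ⟨k, hk⟩ : ∃ k, n = m + k := ⟨n - m, by omega⟩
    have h1 : m = n - k := by omega
    have h3 : 2 * n - m = n + k := by omega
    rw [h3, h1, L.W_p_low (by omega) (by omega), L.p_up (by omega), if_pos rfl]
  · rw [h, L.W_p_mid, show 2 * n - n = n by omega, L.p_v n le_rfl]
  · obtain ⟨k, hk⟩ : ∃ k, m = n + k := ⟨m - n, by omega⟩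
    have h3 : 2 * n - m = n - k := by omega
    rw [h3, hk, L.W_p_high (by omega) (by omega), ← mul_assoc, ← neg_one_pow_comm, mul_assoc,
      L.p_dn (by omega), if_pos rfl]

theorem PT_W : L.PT * (L.W * L.PT) = L.W * L.PT := by
  refine L.ext_p fun m hm => ?_
  rw [mul_assoc, mul_assoc, L.PT_p hm]
  split_ifs with h
  · rw [← L.p_W hm, ← mul_assoc, L.PT_p (by omega), if_pos (by omega)]
  · simp

/-! ### Trace functions -/

section trace

variable (t : A →+ ℚ) (ht : ∀ a b, t (a * b) = t (b * a))

include ht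

theorem t_v {m : ℕ} (h : m + 2 ≤ n) : t (L.v (m + 2)) = t (L.p (m + 2)) - t (L.p m) - t (L.v m) := by
  show t (L.p (m + 2) - L.o * L.lam m - L.o * L.v m * L.lam m) = _
  have hpl : L.p m * L.lam m = L.lam m := L.p_lam (by omega)
  have e1 : t (L.o * L.lam m) = t (L.p m) := by
    rw [← hpl, ← mul_assoc, ht, L.lam_o h]
  have e2 : t (L.o * L.v m * L.lam m) = t (L.v m) := by
    rw [← L.p_v m (by omega), mul_assoc, mul_assoc, ← mul_assoc, ht, mul_assoc, L.lam_o h, L.v_p,
      L.p_v m (by omega)]
  rw [map_sub, map_sub, e1, e2]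

theorem t_sym {k : ℕ} (hk : k ≤ n) : t (L.p (n + k)) = t (L.p (n - k)) := by
  rw [← L.κ2 k hk, ← L.κl k hk, ← mul_assoc, ht, L.κ1 k hk]

/-- sum of the traces in the degrees `m - 2 - 4 j` -/
def nN (t : A →+ ℚ) (m : ℕ) : ℚ := ∑ j ∈ (range m).filter (fun j => (m - j) % 4 = 2), t (L.p j)

/-- sum of the traces in the degrees `m - 4 - 4 j` -/
def mM (t : A →+ ℚ) (m : ℕ) : ℚ := ∑ j ∈ (range m).filter (fun j => (m - j) % 4 = 0), t (L.p j)

omit ht in
theorem nN_step (m : ℕ) : L.nN t (m + 2) = t (L.p m) + L.mM t m := by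
  unfold nN mM
  have e : (range (m + 2)).filter (fun j => (m + 2 - j) % 4 = 2) =
      insert m ((range m).filter (fun j => (m - j) % 4 = 0)) := by
    ext j
    simp only [Finset.mem_filter, Finset.mem_range, Finset.mem_insert]
    omega
  rw [e, Finset.sum_insert]
  simp

omit ht in
theorem mM_step (m : ℕ) : L.mM t (m + 2) = L.nN t m := by
  unfold nN mM
  have e : (range (m + 2)).filter (fun j => (m + 2 - j) % 4 = 0) =
      ((range m).filter (fun j => (m - j) % 4 = 2)) := by
    ext j
    simp only [Finset.mem_filter, Finset.mem_range]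
    omega
  rw [e]

theorem t_v_eq : ∀ m : ℕ, m ≤ n → t (L.v m) = t (L.p m) + 2 * L.mM t m - 2 * L.nN t m := by
  intro m
  induction m using Nat.strong_induction_on with
  | _ m ih =>
    match m, ih with
    | 0, _ =>
      intro _
      show t (L.p 0) = _
      simp [nN, mM]
    | 1, _ =>
      intro _
      show t (L.p 1) = _
      have e1 : (range 1).filter (fun j => (1 - j) % 4 = 0) = ∅ := by decide
      have e2 : (range 1).filter (fun j => (1 - j) % 4 = 2) = ∅ := by decide
      unfold nN mM
      rw [e1, e2]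
      simp
    | m + 2, ih =>
      intro h
      rw [L.t_v t ht h, ih m (by omega) (by omega), L.nN_step, L.mM_step]
      ring

theorem t_W : t (L.W * L.pD (fun m => (m + n) % 2 = 0)) = t (L.v n) := by
  have h1 : ∀ m, m ≠ n → m ≤ 2 * n → t (L.W * L.p m) = 0 := by
    intro m hne hm
    rcases lt_or_gt_of_ne hne with h | h
    · obtain ⟨k, hk⟩ : ∃ k, n = m + k := ⟨n - m, by omega⟩
      have h1 : m = n - k := by omega
      rw [h1, L.W_p_low (by omega) (by omega)]
      have h2 : L.up k = L.up k * L.p (n - k) := by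
        rw [L.up_p (by omega), if_pos rfl]
      rw [h2, ht, L.p_up (by omega), if_neg (by omega), map_zero]
    · obtain ⟨k, hk⟩ : ∃ k, m = n + k := ⟨m - n, by omega⟩
      rw [hk, L.W_p_high (by omega) (by omega)]
      have h2 : L.dn k = L.dn k * L.p (n + k) := by
        rw [L.dn_p (by omega), if_pos rfl]
      rw [h2, ← mul_assoc, ht, ← mul_assoc, ← neg_one_pow_comm, mul_assoc, L.p_dn (by omega),
        if_neg (by omega), mul_zero, map_zero]
  unfold pD
  rw [Finset.mul_sum, map_sum, Finset.sum_eq_single n]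
  · rw [L.W_p_mid]
  · intro m hm hne
    rw [Finset.mem_filter, Finset.mem_range] at hm
    exact h1 m hne (by omega)
  · intro h
    exfalso
    apply h
    rw [Finset.mem_filter, Finset.mem_range]
    omega

/-- splitting a sum over the degrees of the parity of `n` -/
theorem t_even : t (L.pD (fun m => (m + n) % 2 = 0)) =
    t (L.p n) + 2 * L.mM t n + 2 * L.nN t n := by
  classical
  unfold pD
  rw [map_sum]
  have e : (range (2 * n + 1)).filter (fun m => (m + n) % 2 = 0) =
      insert n (((range n).filter (fun j => (n - j) % 2 = 0)) ∪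
        ((range n).filter (fun j => (n - j) % 2 = 0)).image (fun j => 2 * n - j)) := by
    ext m
    simp only [Finset.mem_filter, Finset.mem_range, Finset.mem_insert, Finset.mem_union,
      Finset.mem_image]
    constructor
    · intro h
      rcases lt_trichotomy m n with h1 | h1 | h1
      · exact Or.inr (Or.inl (by omega))
      · exact Or.inl h1
      · exact Or.inr (Or.inr ⟨2 * n - m, by omega, by omega⟩)
    · rintro (h | h | ⟨j, hj, rfl⟩)
      · omega
      · omega
      · omega
  rw [e, Finset.sum_insert, Finset.sum_union, Finset.sum_image]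
  · have h1 : ∑ j ∈ (range n).filter (fun j => (n - j) % 2 = 0), t (L.p (2 * n - j)) =
        ∑ j ∈ (range n).filter (fun j => (n - j) % 2 = 0), t (L.p j) := by
      refine Finset.sum_congr rfl fun j hj => ?_
      rw [Finset.mem_filter, Finset.mem_range] at hj
      have := L.t_sym t ht (k := n - j) (by omega)
      rw [show 2 * n - j = n + (n - j) by omega, this]
      congr 2
      omega
    have h2 : ∑ j ∈ (range n).filter (fun j => (n - j) % 2 = 0), t (L.p j) =
        L.mM t n + L.nN t n := by
      unfold mM nN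
      rw [← Finset.sum_union]
      · refine Finset.sum_congr ?_ fun _ _ => rfl
        ext j
        simp only [Finset.mem_filter, Finset.mem_range, Finset.mem_union]
        omega
      · rw [Finset.disjoint_left]
        intro j hj hj2
        rw [Finset.mem_filter] at hj hj2
        omega
    rw [h1, h2]
    ring
  · intro i hi j hj hij
    simp only [Finset.coe_filter, Finset.mem_range, Set.mem_ofPred_eq] at hi hj
    simp only at hij
    omega
  · rw [Finset.disjoint_left]
    intro j hj hj2
    rw [Finset.mem_filter, Finset.mem_range] at hj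
    rw [Finset.mem_image] at hj2
    obtain ⟨i, hi, rfl⟩ := hj2
    rw [Finset.mem_filter, Finset.mem_range] at hi
    omega
  · rw [Finset.mem_union, Finset.mem_image]
    rintro (h | ⟨i, hi, h⟩)
    · rw [Finset.mem_filter, Finset.mem_range] at h
      omega
    · rw [Finset.mem_filter, Finset.mem_range] at hi
      omega

/-- splitting a sum over the degrees of the other parity -/
theorem t_odd : t (L.pD (fun m => (m + n) % 2 = 1)) =
    2 * ∑ j ∈ (range n).filter (fun j => (n - j) % 2 = 1), t (L.p j) := by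
  classical
  unfold pD
  rw [map_sum]
  have e : (range (2 * n + 1)).filter (fun m => (m + n) % 2 = 1) =
      (((range n).filter (fun j => (n - j) % 2 = 1)) ∪
        ((range n).filter (fun j => (n - j) % 2 = 1)).image (fun j => 2 * n - j)) := by
    ext m
    simp only [Finset.mem_filter, Finset.mem_range, Finset.mem_union, Finset.mem_image]
    constructor
    · intro h
      rcases lt_trichotomy m n with h1 | h1 | h1
      · exact (Or.inl (by omega))
      · omega
      · exact (Or.inr ⟨2 * n - m, by omega, by omega⟩)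
    · rintro (h | ⟨j, hj, rfl⟩)
      · omega
      · omega
  rw [e, Finset.sum_union, Finset.sum_image]
  · have h1 : ∑ j ∈ (range n).filter (fun j => (n - j) % 2 = 1), t (L.p (2 * n - j)) =
        ∑ j ∈ (range n).filter (fun j => (n - j) % 2 = 1), t (L.p j) := by
      refine Finset.sum_congr rfl fun j hj => ?_
      rw [Finset.mem_filter, Finset.mem_range] at hj
      have := L.t_sym t ht (k := n - j) (by omega)
      rw [show 2 * n - j = n + (n - j) by omega, this]
      congr 2
      omega
    rw [h1]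
    ring
  · intro i hi j hj hij
    simp only [Finset.coe_filter, Finset.mem_range, Set.mem_ofPred_eq] at hi hj
    simp only at hij
    omega
  · rw [Finset.disjoint_left]
    intro j hj hj2
    rw [Finset.mem_filter, Finset.mem_range] at hj
    rw [Finset.mem_image] at hj2
    obtain ⟨i, hi, rfl⟩ := hj2
    rw [Finset.mem_filter, Finset.mem_range] at hi
    omega

end trace

/-! ### Homomorphisms -/

/-- the image under a ring homomorphism -/
def map {B : Type*} [Ring B] (f : A →+* B) : Lef B n where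
  p := fun m => f (L.p m)
  o := f L.o
  κ := fun k => f (L.κ k)
  pp := fun i j => by
    rw [← map_mul, L.pp]
    split_ifs <;> simp
  sum := by rw [← map_sum, L.sum, map_one]
  op := fun i => by rw [← map_mul, L.op, map_mul]
  κl := fun k hk => by rw [← map_mul, L.κl k hk]
  κr := fun k hk => by rw [← map_mul, L.κr k hk]
  κ1 := fun k hk => by rw [← map_pow, ← map_mul, ← map_mul, L.κ1 k hk]
  κ2 := fun k hk => by rw [← map_pow, ← map_mul, L.κ2 k hk]

theorem map_lam {B : Type*} [Ring B] (f : A →+* B) (m : ℕ) : (L.map f).lam m = f (L.lam m) := by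
  unfold lam
  rw [map_mul, map_mul, map_pow]
  rfl

theorem map_v {B : Type*} [Ring B] (f : A →+* B) (m : ℕ) : (L.map f).v m = f (L.v m) := by
  induction m using Nat.strong_induction_on with
  | _ m ih =>
    match m, ih with
    | 0, _ => rfl
    | 1, _ => rfl
    | m + 2, ih =>
      show f (L.p (m + 2)) - f L.o * (L.map f).lam m - f L.o * (L.map f).v m * (L.map f).lam m =
        f (L.p (m + 2) - L.o * L.lam m - L.o * L.v m * L.lam m)
      rw [ih m (by omega), L.map_lam, map_sub, map_sub, map_mul, map_mul, map_mul]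

theorem map_W {B : Type*} [Ring B] (f : A →+* B) : (L.map f).W = f L.W := by
  unfold W up dn
  rw [map_add, map_sum, L.map_v]
  congr 1
  refine Finset.sum_congr rfl fun k _ => ?_
  rw [map_add, map_mul, map_mul, map_mul, map_pow, map_pow, map_neg, map_one, L.map_v]
  rfl

theorem map_pD {B : Type*} [Ring B] (f : A →+* B) (D : ℕ → Prop) [DecidablePred D] :
    (L.map f).pD D = f (L.pD D) := by
  unfold pD
  rw [map_sum]
  rfl

/-- lifting along an injective ring homomorphism -/
theorem exists_lift {B : Type*} [Ring B] (f : B →+* A) (hf : Function.Injective f)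
    (hp : ∀ m, ∃ b, f b = L.p m) (ho : ∃ b, f b = L.o)
    (hκ : ∀ k, ∃ b, f b = L.κ k) : ∃ L' : Lef B n, L'.map f = L := by
  choose P hP using hp
  obtain ⟨O, hO⟩ := ho
  choose K hK using hκ
  refine ⟨{ p := P, o := O, κ := K, pp := ?_, sum := ?_, op := ?_, κl := ?_, κr := ?_, κ1 := ?_,
            κ2 := ?_ }, ?_⟩
  · intro i j
    apply hf
    rw [map_mul, hP, hP, L.pp]
    split_ifs <;> simp [hP]
  · apply hf
    rw [map_sum, map_one, ← L.sum]
    exact Finset.sum_congr rfl fun i _ => hP i
  · intro i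
    apply hf
    rw [map_mul, map_mul, hO, hP, hP, L.op]
  · intro k hk
    apply hf
    rw [map_mul, hP, hK, L.κl k hk]
  · intro k hk
    apply hf
    rw [map_mul, hP, hK, L.κr k hk]
  · intro k hk
    apply hf
    rw [map_mul, map_mul, map_pow, hO, hP, hK, L.κ1 k hk]
  · intro k hk
    apply hf
    rw [map_mul, map_pow, hO, hP, hK, L.κ2 k hk]
  · exact Lef.ext (funext hP) hO (funext hK)

end Lef

end Pool.Agent.R941.OH
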