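import Pool.Agent.W539.DI.Cor
import Pool.Agent.R941.OH.Ring

/-!
# The Lefschetz structure of the cohomology ring and positivity
-/

set_option autoImplicit false

open scoped ComplexConjugate
open Module Pool.Agent.W539.DI

namespace Pool.Agent.R941.OH

variable {n : ℕ} (X : KRing n)

/-- the operator which is multiplication by `f (p, q)` on classes of type `(p, q)` -/
noncomputable def diag (f : ℤ × ℤ → ℂ) : Module.End ℂ X.R :=
  DirectSum.toModule ℂ (ℤ × ℤ) X.R (fun pq => (f pq) • (X.H pq).subtype) ∘ₗ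
    (DirectSum.decomposeLinearEquiv X.H).toLinearMap

theorem diag_of (f : ℤ × ℤ → ℂ) {p q : ℤ} {x : X.R} (hx : x ∈ X.H (p, q)) :
    diag X f x = f (p, q) • x := by
  unfold diag
  have e : DirectSum.decompose X.H x = DirectSum.of (fun i => X.H i) (p, q) ⟨x, hx⟩ :=
    DirectSum.decompose_of_mem X.H hx
  simp only [LinearMap.comp_apply, LinearEquiv.coe_coe, DirectSum.decomposeLinearEquiv_apply, e]
  have := DirectSum.toModule_lof ℂ (ι := ℤ × ℤ) (M := fun i => X.H i)
    (φ := fun pq : ℤ × ℤ => (f pq) • (X.H pq).subtype) (p, q) (⟨x, hx⟩ : X.H (p, q))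
  rw [DirectSum.lof_eq_of] at this
  rw [this]
  simp

theorem hom_ext {V : Type*} [AddCommGroup V] [Module ℂ V] {g h : X.R →ₗ[ℂ] V}
    (H : ∀ (p q : ℤ) (x : X.R), x ∈ X.H (p, q) → g x = h x) : g = h := by
  ext x
  refine X.ind (P := fun x => g x = h x) ?_ ?_ ?_ x
  · rw [map_zero, map_zero]
  · intro x y hx hy
    rw [map_add, map_add, hx, hy]
  · exact H

theorem diag_mul (f g : ℤ × ℤ → ℂ) : diag X f * diag X g = diag X (fun pq => f pq * g pq) := by
  refine hom_ext X fun p q x hx => ?_
  rw [Module.End.mul_apply, diag_of X g hx, map_smul, diag_of X f hx, diag_of X _ hx, smul_smul,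
    mul_comm]

theorem diag_one : diag X (fun _ => 1) = 1 := by
  refine hom_ext X fun p q x hx => ?_
  rw [diag_of X _ hx, one_smul]
  rfl

/-- the projector to `H (p, q)` -/
noncomputable def pr (p q : ℤ) : Module.End ℂ X.R := diag X (fun ab => if ab = (p, q) then 1 else 0)

theorem pr_mem (p q : ℤ) (x : X.R) : pr X p q x ∈ X.H (p, q) := by
  refine X.ind (P := fun x => pr X p q x ∈ X.H (p, q)) ?_ ?_ ?_ x
  · rw [map_zero]; exact Submodule.zero_mem _
  · intro x y hx hy
    rw [map_add]; exact Submodule.add_mem _ hx hy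
  · intro a b x hx
    unfold pr
    rw [diag_of X _ hx]
    split_ifs with h
    · rw [one_smul, ← h]; exact hx
    · rw [zero_smul]; exact Submodule.zero_mem _

theorem eq_zero_of_pr {x : X.R} (h : ∀ p q, pr X p q x = 0) : x = 0 := by
  classical
  have h1 : ∀ pq : ℤ × ℤ, (DirectSum.decompose X.H x pq : X.R) = 0 := by
    intro pq
    have h2 : ∀ y : X.R, (DirectSum.decompose X.H y pq : X.R) = pr X pq.1 pq.2 y := by
      intro y
      refine X.ind (P := fun y => (DirectSum.decompose X.H y pq : X.R) = pr X pq.1 pq.2 y)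
        ?_ ?_ ?_ y
      · simp
      · intro y z hy hz
        rw [DirectSum.decompose_add, DirectSum.add_apply, Submodule.coe_add, hy, hz, map_add]
      · intro p q y hy
        unfold pr
        rw [diag_of X _ hy]
        by_cases hpq : (p, q) = pq
        · subst hpq
          rw [DirectSum.decompose_of_mem_same X.H hy]
          simp
        · rw [DirectSum.decompose_of_mem_ne X.H hy hpq, if_neg hpq, zero_smul]
    rw [h2, h]
  rw [← DirectSum.sum_support_decompose X.H x]
  exact Finset.sum_eq_zero fun pq _ => h1 pq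

theorem bot_of {p q : ℤ} (h : p < 0 ∨ q < 0 ∨ (n : ℤ) < p ∨ (n : ℤ) < q) : X.H (p, q) = ⊥ := by
  by_cases h1 : p < 0 ∨ q < 0
  · exact X.van p q h1
  · exact X.van_top (by omega)

theorem zero_of {p q : ℤ} (h : p < 0 ∨ q < 0 ∨ (n : ℤ) < p ∨ (n : ℤ) < q) {x : X.R}
    (hx : x ∈ X.H (p, q)) : x = 0 := by
  rw [bot_of X h] at hx
  exact (Submodule.mem_bot ℂ).1 hx

/-- the projector to degree `m` -/
noncomputable def dg (m : ℕ) : Module.End ℂ X.R :=
  diag X (fun pq => if pq.1 + pq.2 = m then 1 else 0)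

theorem dg_of {p q : ℤ} {x : X.R} (hx : x ∈ X.H (p, q)) (m : ℕ) :
    dg X m x = if p + q = m then x else 0 := by
  unfold dg
  rw [diag_of X _ hx]
  simp only
  split_ifs
  · rw [one_smul]
  · rw [zero_smul]

theorem dg_dg (i j : ℕ) : dg X i * dg X j = if i = j then dg X i else 0 := by
  refine hom_ext X fun p q x hx => ?_
  rw [Module.End.mul_apply, dg_of X hx]
  by_cases h : p + q = j
  · rw [if_pos h, dg_of X hx]
    by_cases h2 : i = j
    · rw [if_pos h2, dg_of X hx]
    · rw [if_neg h2, if_neg (by omega)]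
      rfl
  · rw [if_neg h, map_zero]
    by_cases h2 : i = j
    · rw [if_pos h2, dg_of X hx, if_neg (by omega)]
    · rw [if_neg h2]
      rfl

theorem dg_sum : ∑ i ∈ Finset.range (2 * n + 1), dg X i = 1 := by
  refine hom_ext X fun p q x hx => ?_
  rw [LinearMap.sum_apply, Module.End.one_apply]
  by_cases h : p < 0 ∨ q < 0 ∨ (n : ℤ) < p ∨ (n : ℤ) < q
  · rw [zero_of X h hx]
    simp
  · obtain ⟨m, hm⟩ : ∃ m : ℕ, p + q = m := ⟨(p + q).toNat, by omega⟩
    rw [Finset.sum_eq_single m]
    · rw [dg_of X hx, if_pos hm]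
    · intro j _ hj
      rw [dg_of X hx, if_neg (by omega)]
    · intro h2
      rw [Finset.mem_range] at h2
      omega

/-- multiplication by a class -/
noncomputable def mu (z : X.R) : Module.End ℂ X.R := LinearMap.mulLeft ℂ z

theorem mu_pow (z : X.R) (k : ℕ) (x : X.R) : (mu X z ^ k) x = z ^ k * x := by
  induction k generalizing x with
  | zero => simp
  | succ k ih =>
    rw [pow_succ, Module.End.mul_apply, ih, pow_succ, mul_assoc]
    rfl

theorem dg_mu {z : X.R} (hz : z ∈ X.H (1, 1)) (i : ℕ) : mu X z * dg X i = dg X (i + 2) * mu X z := by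
  refine hom_ext X fun p q x hx => ?_
  rw [Module.End.mul_apply, Module.End.mul_apply, dg_of X hx]
  have h1 : mu X z x ∈ X.H (1 + p, 1 + q) := X.mul_mem hz hx
  rw [dg_of X h1]
  by_cases h : p + q = i
  · rw [if_pos h, if_pos (by push_cast; omega)]
  · rw [if_neg h, if_neg (by push_cast; omega), map_zero]

theorem pr_mu_pow {z : X.R} (hz : z ∈ X.H (1, 1)) (k : ℕ) (p q : ℤ) (x : X.R) :
    pr X (p + k) (q + k) (z ^ k * x) = z ^ k * pr X p q x := by
  refine X.ind (P := fun x => pr X (p + k) (q + k) (z ^ k * x) = z ^ k * pr X p q x) ?_ ?_ ?_ x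
  · simp
  · intro x y hx hy
    rw [mul_add, map_add, map_add, hx, hy, mul_add]
  · intro a b x hx
    have h1 := X.pow_mul_mem hz k hx
    unfold pr
    rw [diag_of X _ hx, diag_of X _ h1]
    by_cases h : (a, b) = (p, q)
    · have ha : a = p := congrArg Prod.fst h
      have hb : b = q := congrArg Prod.snd h
      subst ha; subst hb
      simp
    · have h2 : ¬ ((a + (k : ℤ), b + (k : ℤ)) : ℤ × ℤ) = (p + k, q + k) := by
        intro h3
        apply h
        have ha := congrArg Prod.fst h3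
        have hb := congrArg Prod.snd h3
        simp only [add_left_inj] at ha hb
        rw [ha, hb]
      rw [if_neg h, if_neg h2]
      simp

theorem exists_kappa (k : ℕ) (hk : k ≤ n) : ∃ K : Module.End ℂ X.R,
    dg X (n - k) * K = K ∧ K * dg X (n + k) = K ∧
      K * (mu X X.ω ^ k * dg X (n - k)) = dg X (n - k) ∧ mu X X.ω ^ k * K = dg X (n + k) := by
  set U := LinearMap.range (dg X (n - k)) with hU
  set V := LinearMap.range (dg X (n + k)) with hV
  have hself : ∀ m, dg X m * dg X m = dg X m := fun m => by rw [dg_dg, if_pos rfl]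
  have hUmem : ∀ x, x ∈ U → dg X (n - k) x = x := by
    rintro _ ⟨x, rfl⟩
    rw [← Module.End.mul_apply, hself]
  have hcomm : mu X X.ω ^ k * dg X (n - k) = dg X (n + k) * mu X X.ω ^ k := by
    have : ∀ j i : ℕ, mu X X.ω ^ j * dg X i = dg X (i + 2 * j) * mu X X.ω ^ j := by
      intro j
      induction j with
      | zero => intro i; simp
      | succ j ih =>
        intro i
        rw [pow_succ', mul_assoc, ih, ← mul_assoc, dg_mu X X.ω_mem, mul_assoc]
        congr 2
    rw [this, show n - k + 2 * k = n + k by omega]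
  have hmem : ∀ x : U, ((mu X X.ω ^ k) ∘ₗ U.subtype) x ∈ V := by
    intro x
    refine ⟨(mu X X.ω ^ k) (x : X.R), ?_⟩
    rw [← Module.End.mul_apply, ← hcomm, Module.End.mul_apply, hUmem _ x.2]
    rfl
  let f : U →ₗ[ℂ] V := ((mu X X.ω ^ k) ∘ₗ U.subtype).codRestrict V hmem
  have hf : ∀ x : U, ((f x : V) : X.R) = X.ω ^ k * (x : X.R) := fun x => mu_pow X X.ω k x
  have hinj : Function.Injective f := by
    rw [injective_iff_map_eq_zero]
    intro x hx
    have h1 : X.ω ^ k * (x : X.R) = 0 := by rw [← hf, hx]; rfl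
    apply Subtype.ext
    refine eq_zero_of_pr X fun p q => ?_
    by_cases hpq : p + q + k = n
    · refine X.hl_inj p q k hpq _ (pr_mem X p q _) ?_
      rw [← pr_mu_pow X X.ω_mem, h1, map_zero]
    · rw [← hUmem _ x.2]
      have h2 : pr X p q * dg X (n - k) = 0 := by
        refine hom_ext X fun a b y hy => ?_
        rw [Module.End.mul_apply, dg_of X hy]
        split_ifs with h
        · unfold pr
          rw [diag_of X _ hy, if_neg, zero_smul]
          · rfl
          · intro h3
            have ha := congrArg Prod.fst h3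
            have hb := congrArg Prod.snd h3
            simp only at ha hb
            apply hpq
            rw [← ha, ← hb, h]
            omega
        · rw [map_zero]
          rfl
      rw [← Module.End.mul_apply, h2]
      rfl
  have hsurj : Function.Surjective f := by
    have key : ∀ y : X.R, ∃ x : X.R, X.ω ^ k * dg X (n - k) x = dg X (n + k) y := by
      intro y
      refine X.ind (P := fun y => ∃ x : X.R, X.ω ^ k * dg X (n - k) x = dg X (n + k) y) ?_ ?_ ?_ y
      · exact ⟨0, by simp⟩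
      · rintro y z ⟨x, hx⟩ ⟨w, hw⟩
        exact ⟨x + w, by rw [map_add, mul_add, hx, hw, map_add]⟩
      · intro a b y hy
        rw [dg_of X hy]
        split_ifs with h
        · have e : ((a, b) : ℤ × ℤ) = (a - k + k, b - k + k) := by simp
          rw [e] at hy
          obtain ⟨x, hx, hxy⟩ := X.hl_surj (a - k) (b - k) k (by push_cast at h; omega) y hy
          refine ⟨x, ?_⟩
          rw [dg_of X hx, if_pos (by push_cast at h ⊢; omega), hxy]
        · exact ⟨0, by simp⟩
    rintro ⟨_, ⟨y, rfl⟩⟩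
    obtain ⟨x, hx⟩ := key y
    refine ⟨⟨dg X (n - k) x, ⟨x, rfl⟩⟩, Subtype.ext ?_⟩
    rw [hf]
    exact hx
  let e := LinearEquiv.ofBijective f ⟨hinj, hsurj⟩
  let K : Module.End ℂ X.R := U.subtype ∘ₗ e.symm.toLinearMap ∘ₗ (dg X (n + k)).rangeRestrict
  have hK : ∀ y, K y = ((e.symm ((dg X (n + k)).rangeRestrict y) : U) : X.R) := fun y => rfl
  refine ⟨K, ?_, ?_, ?_, ?_⟩
  · ext y
    rw [Module.End.mul_apply, hK]
    exact hUmem _ (e.symm ((dg X (n + k)).rangeRestrict y)).2
  · ext y
    rw [Module.End.mul_apply, hK, hK]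
    congr 2
    apply Subtype.ext
    show dg X (n + k) (dg X (n + k) y) = dg X (n + k) y
    rw [← Module.End.mul_apply, hself]
  · ext x
    rw [Module.End.mul_apply, hK]
    have h1 : (dg X (n + k)).rangeRestrict ((mu X X.ω ^ k * dg X (n - k)) x) =
        e ⟨dg X (n - k) x, ⟨x, rfl⟩⟩ := by
      apply Subtype.ext
      show dg X (n + k) ((mu X X.ω ^ k * dg X (n - k)) x) = ((f ⟨dg X (n - k) x, ⟨x, rfl⟩⟩ : V) : X.R)
      rw [hf, hcomm, ← Module.End.mul_apply, ← mul_assoc, hself, ← hcomm, Module.End.mul_apply,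
        mu_pow]
    rw [h1, LinearEquiv.symm_apply_apply]
  · ext y
    rw [Module.End.mul_apply, mu_pow, hK, ← hf]
    show ((e (e.symm ((dg X (n + k)).rangeRestrict y)) : V) : X.R) = _
    rw [LinearEquiv.apply_symm_apply]
    rfl

/-- inverse of the power of the Lefschetz operator -/
noncomputable def kap (k : ℕ) : Module.End ℂ X.R :=
  if h : k ≤ n then (exists_kappa X k h).choose else 0

theorem kap_spec {k : ℕ} (h : k ≤ n) :
    dg X (n - k) * kap X k = kap X k ∧ kap X k * dg X (n + k) = kap X k ∧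
      kap X k * (mu X X.ω ^ k * dg X (n - k)) = dg X (n - k) ∧
      mu X X.ω ^ k * kap X k = dg X (n + k) := by
  unfold kap
  rw [dif_pos h]
  exact (exists_kappa X k h).choose_spec

/-- the Lefschetz structure of the cohomology of `X` -/
noncomputable def lef : Lef (Module.End ℂ X.R) n where
  p := dg X
  o := mu X X.ω
  κ := kap X
  pp := dg_dg X
  sum := dg_sum X
  op := dg_mu X X.ω_mem
  κl := fun _ hk => (kap_spec X hk).1
  κr := fun _ hk => (kap_spec X hk).2.1
  κ1 := fun _ hk => (kap_spec X hk).2.2.1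
  κ2 := fun _ hk => (kap_spec X hk).2.2.2

theorem kap_of {k : ℕ} {p q : ℤ} (hk : p + q + k = n) {x : X.R} (hx : x ∈ X.H (p, q)) :
    kap X k (X.ω ^ k * x) = x := by
  by_cases h0 : p < 0 ∨ q < 0 ∨ (n : ℤ) < p ∨ (n : ℤ) < q
  · rw [zero_of X h0 hx]
    simp
  have hkn : k ≤ n := by omega
  have h1 := (kap_spec X hkn).2.2.1
  have h2 : dg X (n - k) x = x := by
    rw [dg_of X hx, if_pos (by push_cast [Nat.cast_sub hkn]; omega)]
  have h3 := congrArg (fun g : Module.End ℂ X.R => g x) h1
  simp only [Module.End.mul_apply, mu_pow, h2] at h3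
  exact h3

theorem kap_mem {k : ℕ} {p q : ℤ} (hk : p + q + k = n) {y : X.R} (hy : y ∈ X.H (p + k, q + k)) :
    kap X k y ∈ X.H (p, q) := by
  obtain ⟨x, hx, rfl⟩ := X.hl_surj p q k hk y hy
  rw [kap_of X hk hx]
  exact hx

theorem om_kap {k : ℕ} {p q : ℤ} (hk : p + q + k = n) {y : X.R} (hy : y ∈ X.H (p + k, q + k)) :
    X.ω ^ k * kap X k y = y := by
  obtain ⟨x, hx, rfl⟩ := X.hl_surj p q k hk y hy
  rw [kap_of X hk hx]

theorem lam_mem {m : ℕ} (hm : m + 2 ≤ n) {p q : ℤ} (hpq : p + q = m + 2) {x : X.R}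
    (hx : x ∈ X.H (p, q)) : (lef X).lam m x ∈ X.H (p - 1, q - 1) := by
  show (kap X (n - m) * (mu X X.ω ^ (n - m - 1) * dg X (m + 2))) x ∈ _
  rw [Module.End.mul_apply, Module.End.mul_apply, mu_pow, dg_of X hx, if_pos (by push_cast; omega)]
  refine kap_mem X (by push_cast [Nat.cast_sub (show m ≤ n by omega)]; omega) ?_
  have h1 := X.pow_mul_mem X.ω_mem (n - m - 1) hx
  have e : ((p + ((n - m - 1 : ℕ) : ℤ), q + ((n - m - 1 : ℕ) : ℤ)) : ℤ × ℤ) =
      (p - 1 + ((n - m : ℕ) : ℤ), q - 1 + ((n - m : ℕ) : ℤ)) := by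
    have : ((n - m - 1 : ℕ) : ℤ) = ((n - m : ℕ) : ℤ) - 1 := by omega
    ext <;> simp [this] <;> ring
  rwa [e] at h1

theorem om_lam {m : ℕ} (hm : m + 2 ≤ n) {p q : ℤ} (hpq : p + q = m + 2) {x : X.R}
    (hx : x ∈ X.H (p, q)) :
    X.ω ^ (n - m - 1) * (X.ω * (lef X).lam m x) = X.ω ^ (n - m - 1) * x := by
  have e0 : X.ω ^ (n - m - 1) * (X.ω * (lef X).lam m x) = X.ω ^ (n - m) * (lef X).lam m x := by
    rw [← mul_assoc, ← pow_succ]
    congr 2
    omega
  rw [e0]
  show X.ω ^ (n - m) * (kap X (n - m) * (mu X X.ω ^ (n - m - 1) * dg X (m + 2))) x = _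
  rw [Module.End.mul_apply, Module.End.mul_apply, mu_pow, dg_of X hx, if_pos (by push_cast; omega)]
  refine om_kap X (p := p - 1) (q := q - 1)
    (by push_cast [Nat.cast_sub (show m ≤ n by omega)]; omega) ?_
  have h1 := X.pow_mul_mem X.ω_mem (n - m - 1) hx
  have e : ((p + ((n - m - 1 : ℕ) : ℤ), q + ((n - m - 1 : ℕ) : ℤ)) : ℤ × ℤ) =
      (p - 1 + ((n - m : ℕ) : ℤ), q - 1 + ((n - m : ℕ) : ℤ)) := by
    have : ((n - m - 1 : ℕ) : ℤ) = ((n - m : ℕ) : ℤ) - 1 := by omega
    ext <;> simp [this] <;> ring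
  rwa [e] at h1

theorem S_neg_right (p q : ℤ) (k : ℕ) (x y : X.R) : X.S p q k x (-y) = - X.S p q k x y := by
  unfold KRing.S
  rw [map_neg, mul_neg, mul_neg, map_neg, mul_neg]

theorem S_zero (p q : ℤ) (k : ℕ) (y : X.R) : X.S p q k 0 y = 0 := by
  unfold KRing.S
  simp

theorem v_mem (m : ℕ) : m ≤ n → ∀ (p q : ℤ), p + q = m → ∀ x ∈ X.H (p, q),
    (lef X).v m x ∈ X.H (p, q) := by
  induction m using Nat.strong_induction_on with
  | _ m ih =>
    match m, ih with
    | 0, _ =>
      intro _ p q hpq x hx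
      show dg X 0 x ∈ _
      rw [dg_of X hx, if_pos hpq]
      exact hx
    | 1, _ =>
      intro _ p q hpq x hx
      show dg X 1 x ∈ _
      rw [dg_of X hx, if_pos hpq]
      exact hx
    | m + 2, ih =>
      intro hm p q hpq x hx
      push_cast at hpq
      have hy := lam_mem X hm hpq hx
      have hvy := ih m (by omega) (by omega) (p - 1) (q - 1) (by omega) _ hy
      have hmul : ∀ z ∈ X.H (p - 1, q - 1), X.ω * z ∈ X.H (p, q) := by
        intro z hz
        have := X.mul_mem X.ω_mem hz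
        have e : ((1 + (p - 1), 1 + (q - 1)) : ℤ × ℤ) = (p, q) := by ext <;> simp
        rwa [e] at this
      show (dg X (m + 2) - mu X X.ω * (lef X).lam m - mu X X.ω * (lef X).v m * (lef X).lam m) x ∈ _
      rw [LinearMap.sub_apply, LinearMap.sub_apply, dg_of X hx, if_pos (by push_cast; omega)]
      exact Submodule.sub_mem _ (Submodule.sub_mem _ hx (hmul _ hy)) (hmul _ hvy)

theorem S_pos (m : ℕ) : ∀ (k : ℕ), m + k = n → ∀ (p q : ℤ), p + q = m → ∀ x ∈ X.H (p, q), x ≠ 0 →
    ∃ r : ℝ, 0 < r ∧ X.S p q k x ((lef X).v m x) = r := by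
  induction m using Nat.strong_induction_on with
  | _ m ih =>
    have hprim : ∀ (k : ℕ), m + k = n → m < 2 → ∀ (p q : ℤ), p + q = m → ∀ x ∈ X.H (p, q),
        X.ω ^ (k + 1) * x = 0 := by
      intro k hk hm p q hpq x hx
      refine zero_of X ?_ (X.pow_mul_mem X.ω_mem (k + 1) hx)
      push_cast
      omega
    match m, ih, hprim with
    | 0, _, hprim =>
      intro k hk p q hpq x hx hne
      have hv : (lef X).v 0 x = x := by
        show dg X 0 x = x
        rw [dg_of X hx, if_pos hpq]
      rw [hv]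
      obtain ⟨r, hr, he⟩ := X.hr p q k (by push_cast at hpq; omega) x hx hne
        (hprim k hk (by norm_num) p q hpq x hx)
      exact ⟨r, hr, he⟩
    | 1, _, hprim =>
      intro k hk p q hpq x hx hne
      have hv : (lef X).v 1 x = x := by
        show dg X 1 x = x
        rw [dg_of X hx, if_pos hpq]
      rw [hv]
      obtain ⟨r, hr, he⟩ := X.hr p q k (by push_cast at hpq; omega) x hx hne
        (hprim k hk (by norm_num) p q hpq x hx)
      exact ⟨r, hr, he⟩
    | m + 2, ih, _ =>
      intro k hk p q hpq x hx hne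
      push_cast at hpq
      have hmn : m + 2 ≤ n := by omega
      set y := (lef X).lam m x with hy
      have hym : y ∈ X.H (p - 1, q - 1) := lam_mem X hmn hpq hx
      set u := x - X.ω * y with hu
      have hmul : ∀ z ∈ X.H (p - 1, q - 1), X.ω * z ∈ X.H (p, q) := by
        intro z hz
        have := X.mul_mem X.ω_mem hz
        have e : ((1 + (p - 1), 1 + (q - 1)) : ℤ × ℤ) = (p, q) := by ext <;> simp
        rwa [e] at this
      have hum : u ∈ X.H (p, q) := Submodule.sub_mem _ hx (hmul _ hym)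
      have huprim : X.ω ^ (k + 1) * u = 0 := by
        have h1 := om_lam X hmn hpq hx
        have e : n - m - 1 = k + 1 := by omega
        rw [e] at h1
        rw [hu, mul_sub, h1, sub_self]
      have hv : (lef X).v (m + 2) x = u + X.ω * (-((lef X).v m y)) := by
        show (dg X (m + 2) - mu X X.ω * (lef X).lam m -
          mu X X.ω * (lef X).v m * (lef X).lam m) x = _
        rw [LinearMap.sub_apply, LinearMap.sub_apply, dg_of X hx, if_pos (by push_cast; omega),
          mul_neg, ← sub_eq_add_neg]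
        rfl
      have hxe : x = u + X.ω * y := by rw [hu]; abel
      have key : X.S p q k x ((lef X).v (m + 2) x) =
          X.S p q k u u + X.S (p - 1) (q - 1) (k + 2) y ((lef X).v m y) := by
        rw [hv]
        conv_lhs => rw [hxe]
        rw [X.S_add, X.S_add_right, X.S_add_right, X.S_prim_left p q k u _ huprim,
          X.S_prim_right p q k u y huprim, X.S_mul, S_neg_right]
        ring
      rw [key]
      have h1 : u = 0 ∨ ∃ r : ℝ, 0 < r ∧ X.S p q k u u = r := by
        by_cases h0 : u = 0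
        · exact Or.inl h0
        · obtain ⟨r, hr, he⟩ := X.hr p q k (by omega) u hum h0 huprim
          exact Or.inr ⟨r, hr, he⟩
      have h2 : y = 0 ∨ ∃ r : ℝ, 0 < r ∧
          X.S (p - 1) (q - 1) (k + 2) y ((lef X).v m y) = r := by
        by_cases h0 : y = 0
        · exact Or.inl h0
        · exact Or.inr (ih m (by omega) (k + 2) (by omega) (p - 1) (q - 1) (by omega) y hym h0)
      rcases h1 with h1 | ⟨r, hr, h1⟩ <;> rcases h2 with h2 | ⟨r', hr', h2⟩
      · exfalso
        apply hne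
        rw [hxe, h1, h2]
        simp
      · exact ⟨r', hr', by rw [h1, h2, S_zero, zero_add]⟩
      · exact ⟨r, hr, by rw [h1, h2, S_zero, add_zero]⟩
      · exact ⟨r + r', by linarith, by rw [h1, h2]; push_cast; ring⟩

end Pool.Agent.R941.OH
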