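import Pool.Agent.R941.OH.Core

/-!
# Rational structures
-/

set_option autoImplicit false

open scoped ComplexConjugate
open Module Pool.Agent.W539.DI

namespace Pool.Agent.R941.OH

variable {n : ℕ}

/-- The rational structure of the cohomology of `X`: a basis `e` of the rational cohomology. -/
structure RatStr (X : KRing n) where
  ι : Type
  [fin : Fintype ι]
  [dec : DecidableEq ι]
  /-- a basis of the rational cohomology -/
  e : Module.Basis ι ℂ X.R
  /-- the rational classes form a ring -/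
  one_rat : ∀ i, ∃ q : ℚ, e.repr 1 i = q
  mul_rat : ∀ j k i, ∃ q : ℚ, e.repr (e j * e k) i = q
  /-- the degree is defined over the rational numbers -/
  homog : ∀ i, ∃ m : ℤ, e i ∈ ⨆ p : ℤ, X.H (p, m - p)
  /-- rational classes are real -/
  real : ∀ i, X.bar (e i) = e i
  /-- integrals of rational classes are rational -/
  tr_rat : ∀ i, ∃ q : ℚ, X.tr (e i) = q
  /-- the class `ω` of an ample divisor and the first Chern class are rational -/
  om_rat : ∀ i, ∃ q : ℚ, e.repr X.ω i = q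
  c_rat : ∀ i, ∃ q : ℚ, e.repr X.c i = q

attribute [instance] RatStr.fin RatStr.dec

/-- `x` is a rational class. -/
def RatStr.IsRat {X : KRing n} (r : RatStr X) (x : X.R) : Prop := ∀ i, ∃ q : ℚ, r.e.repr x i = q

section general

variable {X : KRing n} (r : RatStr X)

theorem rat_zero : r.IsRat 0 := fun i => ⟨0, by simp⟩

theorem rat_add {x y : X.R} (hx : r.IsRat x) (hy : r.IsRat y) : r.IsRat (x + y) := fun i => by
  obtain ⟨a, ha⟩ := hx i
  obtain ⟨b, hb⟩ := hy i
  exact ⟨a + b, by rw [map_add, Finsupp.add_apply, ha, hb]; push_cast; rfl⟩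

theorem rat_smul {x : X.R} (q : ℚ) (hx : r.IsRat x) : r.IsRat ((q : ℂ) • x) := fun i => by
  obtain ⟨a, ha⟩ := hx i
  exact ⟨q * a, by rw [map_smul, Finsupp.smul_apply, ha, smul_eq_mul]; push_cast; rfl⟩

theorem rat_sum {κ : Type*} (s : Finset κ) (f : κ → X.R) (h : ∀ k ∈ s, r.IsRat (f k)) :
    r.IsRat (∑ k ∈ s, f k) := by
  classical
  induction s using Finset.induction_on with
  | empty => simpa using rat_zero r
  | insert a s ha ih =>
    rw [Finset.sum_insert ha]
    exact rat_add r (h a (Finset.mem_insert_self _ _))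
      (ih fun k hk => h k (Finset.mem_insert_of_mem hk))

theorem rat_e (i : r.ι) : r.IsRat (r.e i) := fun j => by
  rw [r.e.repr_self, Finsupp.single_apply]
  split_ifs
  · exact ⟨1, by simp⟩
  · exact ⟨0, by simp⟩

theorem rat_expand {x : X.R} (hx : r.IsRat x) : ∃ q : r.ι → ℚ, x = ∑ i, (q i : ℂ) • r.e i := by
  choose q hq using hx
  refine ⟨q, ?_⟩
  conv_lhs => rw [← r.e.sum_repr x]
  exact Finset.sum_congr rfl fun i _ => by rw [hq]

theorem rat_mul {x y : X.R} (hx : r.IsRat x) (hy : r.IsRat y) : r.IsRat (x * y) := by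
  obtain ⟨a, rfl⟩ := rat_expand r hx
  obtain ⟨b, rfl⟩ := rat_expand r hy
  rw [Finset.sum_mul_sum]
  refine rat_sum r _ _ fun i _ => rat_sum r _ _ fun j _ => ?_
  rw [smul_mul_smul_comm]
  have : ((a i : ℂ) * (b j : ℂ)) = ((a i * b j : ℚ) : ℂ) := by push_cast; rfl
  rw [this]
  exact rat_smul r _ (r.mul_rat i j)

theorem rat_tr {x : X.R} (hx : r.IsRat x) : ∃ q : ℚ, X.tr x = q := by
  obtain ⟨a, rfl⟩ := rat_expand r hx
  choose q hq using r.tr_rat
  refine ⟨∑ i, a i * q i, ?_⟩
  rw [map_sum]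
  push_cast
  exact Finset.sum_congr rfl fun i _ => by rw [map_smul, smul_eq_mul, hq]

theorem rat_bar {x : X.R} (hx : r.IsRat x) : X.bar x = x := by
  obtain ⟨a, rfl⟩ := rat_expand r hx
  rw [map_sum]
  refine Finset.sum_congr rfl fun i _ => ?_
  rw [LinearMap.map_smulₛₗ, r.real]
  congr 1
  exact map_ratCast _ _

/-- an operator which preserves the rational classes -/
def RatOp {Y : KRing n} (r : RatStr X) (t : RatStr Y) (a : X.R →ₗ[ℂ] Y.R) : Prop :=
  ∀ x, r.IsRat x → t.IsRat (a x)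

/-- an operator which preserves the difference `p - q` -/
def TypeOp {Y : KRing n} (a : X.R →ₗ[ℂ] Y.R) : Prop :=
  ∀ (p q : ℤ) (x : X.R), x ∈ X.H (p, q) → a x ∈ typ Y p q

theorem ratOp_of_basis {Y : KRing n} {t : RatStr Y} {a : X.R →ₗ[ℂ] Y.R}
    (h : ∀ i, t.IsRat (a (r.e i))) : RatOp r t a := by
  intro x hx
  obtain ⟨q, rfl⟩ := rat_expand r hx
  rw [map_sum]
  refine rat_sum t _ _ fun i _ => ?_
  rw [map_smul]
  exact rat_smul t _ (h i)

/-- a retraction of the complex numbers to the rational numbers -/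
theorem exists_retr : ∃ f : ℂ →ₗ[ℚ] ℚ, ∀ q : ℚ, f (q : ℂ) = q := by
  obtain ⟨f, hf⟩ := LinearMap.exists_leftInverse_of_injective (Algebra.linearMap ℚ ℂ)
    (LinearMap.ker_eq_bot.2 (algebraMap ℚ ℂ).injective)
  exact ⟨f, fun q => congrArg (fun g : ℚ →ₗ[ℚ] ℚ => g q) hf⟩

noncomputable def retr : ℂ →ₗ[ℚ] ℚ := exists_retr.choose

theorem retr_rat (q : ℚ) : retr (q : ℂ) = q := exists_retr.choose_spec q

theorem retr_mul (q : ℚ) (z : ℂ) : retr ((q : ℂ) * z) = q * retr z := by
  have : ((q : ℂ) * z) = q • z := by rw [Rat.smul_def]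
  rw [this, map_smul, smul_eq_mul]

/-- the retraction of the complex to the rational classes -/
noncomputable def ret (x : X.R) : X.R := ∑ i, ((retr (r.e.repr x i) : ℚ) : ℂ) • r.e i

theorem ret_rat (x : X.R) : r.IsRat (ret r x) :=
  rat_sum r _ _ fun i _ => rat_smul r _ (rat_e r i)

theorem repr_ret (x : X.R) (i : r.ι) : r.e.repr (ret r x) i = ((retr (r.e.repr x i) : ℚ) : ℂ) := by
  unfold ret
  rw [map_sum, Finset.sum_apply']
  simp [Finsupp.single_apply]

theorem rat_ret {x : X.R} (hx : r.IsRat x) : ret r x = x := by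
  apply r.e.ext_elem
  intro i
  rw [repr_ret]
  obtain ⟨q, hq⟩ := hx i
  rw [hq, retr_rat]

theorem ret_op {Y : KRing n} {t : RatStr Y} {a : X.R →ₗ[ℂ] Y.R} (ha : RatOp r t a) (x : X.R) :
    a (ret r x) = ret t (a x) := by
  have h1 : ∀ i, ∃ q : t.ι → ℚ, ∀ j, t.e.repr (a (r.e i)) j = q j := fun i => by
    choose q hq using ha _ (rat_e r i)
    exact ⟨q, hq⟩
  choose q hq using h1
  apply t.e.ext_elem
  intro j
  rw [repr_ret]
  have e1 : a x = ∑ i, (r.e.repr x i) • a (r.e i) := by
    conv_lhs => rw [← r.e.sum_repr x]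
    rw [map_sum]
    exact Finset.sum_congr rfl fun i _ => by rw [map_smul]
  rw [e1]
  unfold ret
  rw [map_sum, map_sum, map_sum, Finset.sum_apply', Finset.sum_apply', map_sum]
  push_cast
  refine Finset.sum_congr rfl fun i _ => ?_
  rw [map_smul, map_smul, map_smul, Finsupp.smul_apply, Finsupp.smul_apply, hq, smul_eq_mul,
    smul_eq_mul, mul_comm (r.e.repr x i), retr_mul]
  push_cast
  ring

theorem ret_fun {f : X.R →ₗ[ℂ] ℂ} (hf : ∀ i, ∃ q : ℚ, f (r.e i) = q) (x : X.R) :
    f (ret r x) = ((retr (f x) : ℚ) : ℂ) := by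
  choose q hq using hf
  have e1 : f x = ∑ i, ((q i : ℚ) : ℂ) * r.e.repr x i := by
    conv_lhs => rw [← r.e.sum_repr x]
    rw [map_sum]
    exact Finset.sum_congr rfl fun i _ => by rw [map_smul, smul_eq_mul, hq, mul_comm]
  rw [e1]
  unfold ret
  rw [map_sum, map_sum]
  push_cast
  refine Finset.sum_congr rfl fun i _ => ?_
  rw [map_smul, smul_eq_mul, hq, retr_mul]
  push_cast
  ring

theorem dg_of_mem {m : ℤ} {x : X.R} (hx : x ∈ ⨆ p : ℤ, X.H (p, m - p)) (k : ℕ) :
    dg X k x = if m = k then x else 0 := by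
  refine Submodule.iSup_induction (p := fun p : ℤ => X.H (p, m - p))
    (motive := fun x => dg X k x = if m = k then x else 0) hx ?_ ?_ ?_
  · intro p x hx
    rw [dg_of X hx]
    have e : (p + (m - p) : ℤ) = m := by ring
    rw [e]
  · rw [map_zero]
    split_ifs <;> rfl
  · intro x y hx hy
    rw [map_add, hx, hy]
    split_ifs
    · rfl
    · simp

theorem ratOp_dg (m : ℕ) : RatOp r r (dg X m) := by
  refine ratOp_of_basis r fun i => ?_
  obtain ⟨k, hk⟩ := r.homog i
  rw [dg_of_mem hk]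
  split_ifs
  · exact rat_e r i
  · exact rat_zero r

theorem ratOp_mu {z : X.R} (hz : r.IsRat z) : RatOp r r (mu X z) := fun _ hx => rat_mul r hz hx

theorem ratOp_comp {Y Z : KRing n} {t : RatStr Y} {u : RatStr Z} {a : X.R →ₗ[ℂ] Y.R}
    {b : Y.R →ₗ[ℂ] Z.R} (hb : RatOp t u b) (ha : RatOp r t a) : RatOp r u (b ∘ₗ a) :=
  fun x hx => hb _ (ha x hx)

theorem ratOp_pow {a : Module.End ℂ X.R} (ha : RatOp r r a) (k : ℕ) : RatOp r r (a ^ k) := by
  induction k with
  | zero => intro x hx; simpa using hx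
  | succ k ih =>
    intro x hx
    rw [pow_succ, Module.End.mul_apply]
    exact ih _ (ha x hx)

theorem ratOp_kap (k : ℕ) : RatOp r r (kap X k) := by
  by_cases hk : k ≤ n
  · obtain ⟨h1, h2, h3, h4⟩ := kap_spec X hk
    intro y hy
    set x := kap X k y with hx
    have e1 : (mu X X.ω ^ k) x = dg X (n + k) y := by
      rw [hx, ← Module.End.mul_apply, h4]
    have e2 : dg X (n - k) x = x := by
      rw [hx, ← Module.End.mul_apply, h1]
    have e3 : (mu X X.ω ^ k) (ret r x) = (mu X X.ω ^ k) x := by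
      rw [ret_op r (ratOp_pow r (ratOp_mu r r.om_rat) k), e1]
      exact rat_ret r (ratOp_dg r (n + k) y hy)
    have e4 : dg X (n - k) (ret r x) = ret r x := by
      rw [ret_op r (ratOp_dg r (n - k)), e2]
    have e5 : ret r x = x := by
      have f1 := congrArg (fun g : Module.End ℂ X.R => g (ret r x)) h3
      have f2 := congrArg (fun g : Module.End ℂ X.R => g x) h3
      simp only [Module.End.mul_apply] at f1 f2
      rw [e4] at f1
      rw [e2] at f2
      rw [← f1, e3, f2]
    rw [← e5]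
    exact ret_rat r x
  · unfold kap
    rw [dif_neg hk]
    intro x _
    exact rat_zero r

theorem typeOp_dg (m : ℕ) : TypeOp (X := X) (dg X m) := by
  intro p q x hx
  rw [dg_of X hx]
  split_ifs
  · exact mem_typ X hx
  · exact Submodule.zero_mem _

theorem typeOp_mu {z : X.R} (hz : z ∈ X.H (1, 1)) : TypeOp (X := X) (mu X z) := by
  intro p q x hx
  refine mem_typ' X ?_ (X.mul_mem hz hx)
  ring

theorem typeOp_mem {Y : KRing n} {a : X.R →ₗ[ℂ] Y.R} (ha : TypeOp a) {p q : ℤ} {x : X.R}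
    (hx : x ∈ typ X p q) : a x ∈ typ Y p q := by
  have hx' := hx
  unfold typ at hx'
  refine Submodule.iSup_induction (p := fun k : ℤ => X.H (p + k, q + k))
    (motive := fun x => a x ∈ typ Y p q) hx' ?_ ?_ ?_
  · intro k x hx
    rw [← typ_shift Y p q k]
    exact ha _ _ x hx
  · rw [map_zero]; exact Submodule.zero_mem _
  · intro x y hx hy
    rw [map_add]; exact Submodule.add_mem _ hx hy

theorem typeOp_comp {Y Z : KRing n} {a : X.R →ₗ[ℂ] Y.R} {b : Y.R →ₗ[ℂ] Z.R} (hb : TypeOp b)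
    (ha : TypeOp a) : TypeOp (b ∘ₗ a) := fun p q x hx => typeOp_mem hb (ha p q x hx)

theorem typeOp_kap (k : ℕ) : TypeOp (X := X) (kap X k) := by
  intro p q x hx
  by_cases hk : k ≤ n
  · by_cases hpq : p + q = n + k
    · have h1 : x ∈ X.H (p - k + k, q - k + k) := by simpa using hx
      refine mem_typ' X ?_ (kap_mem X (by omega) h1)
      ring
    · have h1 := (kap_spec X hk).2.1
      have h2 := congrArg (fun g : Module.End ℂ X.R => g x) h1
      simp only [Module.End.mul_apply] at h2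
      rw [dg_of X hx, if_neg (by push_cast; exact hpq), map_zero] at h2
      rw [← h2]
      exact Submodule.zero_mem _
  · unfold kap
    rw [dif_neg hk]
    exact Submodule.zero_mem _

end general

end Pool.Agent.R941.OH
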