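import Pool.Agent.R941.OH.Act

/-!
# The factor `exp (c₁ / 2)` of the Mukai form
-/

set_option autoImplicit false

open scoped ComplexConjugate
open Module Pool.Agent.W539.DI Polynomial

namespace Pool.Agent.R941.OH

theorem sqrt_poly (C : ℚ[X]) (hC : C.coeff 0 = 1) (m : ℕ) :
    ∃ p : ℚ[X], p.coeff 0 = 1 ∧ X ^ m ∣ p ^ 2 - C := by
  induction m with
  | zero => exact ⟨1, by simp, by simp⟩
  | succ m ih =>
    rcases Nat.eq_zero_or_pos m with h0 | h0
    · subst h0
      refine ⟨1, by simp, ?_⟩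
      rw [zero_add, pow_one, X_dvd_iff]
      simp [hC]
    · obtain ⟨p, hp, q, hq⟩ := ih
      refine ⟨p - Polynomial.C (q.coeff 0 / 2) * X ^ m, ?_, ?_⟩
      · rw [coeff_sub, hp, coeff_C_mul, coeff_X_pow, if_neg (by omega)]
        simp
      · have h1 : X ∣ q - Polynomial.C (q.coeff 0) * p := by
          rw [X_dvd_iff, coeff_sub, coeff_C_mul, hp]
          simp
        obtain ⟨t, ht⟩ := h1
        obtain ⟨j, hj⟩ : ∃ j, m = j + 1 := ⟨m - 1, by omega⟩
        refine ⟨t + Polynomial.C (q.coeff 0 / 2) ^ 2 * X ^ j, ?_⟩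
        have h2 : Polynomial.C (q.coeff 0) = 2 * Polynomial.C (q.coeff 0 / 2) := by
          rw [← map_ofNat Polynomial.C 2, ← Polynomial.C_mul]
          congr 1
          ring
        rw [h2] at ht
        have h3 : q = X * t + 2 * Polynomial.C (q.coeff 0 / 2) * p := by
          rw [← ht]; ring
        have h4 : p ^ 2 = C + X ^ m * (X * t + 2 * Polynomial.C (q.coeff 0 / 2) * p) := by
          rw [← h3, ← hq]; ring
        rw [hj] at h4 ⊢
        linear_combination h4

theorem inv_poly (p : ℚ[X]) (hp : p.coeff 0 = 1) (m : ℕ) : ∃ r : ℚ[X], X ^ m ∣ p * r - 1 := by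
  have h1 : IsCoprime p X := by
    obtain ⟨t, ht⟩ : X ∣ p - 1 := by
      rw [X_dvd_iff]
      simp [hp]
    exact ⟨1, -t, by linear_combination ht⟩
  obtain ⟨a, b, hab⟩ := (h1.pow_right (n := m))
  exact ⟨a, -b, by linear_combination hab⟩

variable {n : ℕ} {X : KRing n}

theorem dual_c2 (x : X.R) : X.dual (X.c ^ 2 * x) = X.c ^ 2 * X.dual x := by
  refine X.ind (P := fun x => X.dual (X.c ^ 2 * x) = X.c ^ 2 * X.dual x) ?_ ?_ ?_ x
  · simp
  · intro x y hx hy
    rw [mul_add, map_add, map_add, hx, hy, mul_add]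
  · intro p q x hx
    rw [X.dual_of (X.pow_mul_mem X.c_mem 2 hx), X.dual_of hx, mul_smul_comm]
    congr 1
    have e : (p + ((2 : ℕ) : ℤ) + (q + ((2 : ℕ) : ℤ)) : ℤ) = (p + q) + 2 * 2 := by push_cast; ring
    rw [e, zpow_add₀ Complex.I_ne_zero, I_two]
    norm_num

theorem bar_c (k : ℕ) (x : X.R) : X.bar (X.c ^ k * x) = X.c ^ k * X.bar x := by
  induction k with
  | zero => simp
  | succ k ih => rw [pow_succ', mul_assoc, X.bar_mul, X.c_bar, ih, mul_assoc]

theorem c_central (k : ℕ) (x : X.R) : X.c ^ k * x = x * X.c ^ k := by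
  induction k with
  | zero => simp
  | succ k ih => rw [pow_succ, mul_assoc, X.central X.c_mem, ← mul_assoc, ih, mul_assoc]

theorem F_c2 (x y : X.R) : F X (X.c ^ 2 * x) y = F X x (X.c ^ 2 * y) := by
  unfold F
  rw [dual_c2, bar_c, ← mul_assoc (X.dual x), ← c_central 2 (X.dual x)]

theorem c_nil {k : ℕ} (hk : n < k) (x : X.R) : X.c ^ k * x = 0 := by
  refine X.ind (P := fun x => X.c ^ k * x = 0) ?_ ?_ ?_ x
  · simp
  · intro x y hx hy
    rw [mul_add, hx, hy, add_zero]
  · intro p q x hx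
    by_cases h : p < 0 ∨ q < 0
    · rw [zero_of X (by omega) hx, mul_zero]
    · exact zero_of X (by omega) (X.pow_mul_mem X.c_mem k hx)

/-- the polynomial with `Ch (c ^ 2) = cosh (c / 2)` -/
noncomputable def Ch (n : ℕ) : ℚ[X] :=
  ∑ l ∈ Finset.range (n + 1), Polynomial.C ((1 : ℚ) / (2 ^ (2 * l) * ((2 * l).factorial : ℚ))) * Polynomial.X ^ l

theorem Ch_zero (n : ℕ) : (Ch n).coeff 0 = 1 := by
  unfold Ch
  rw [Polynomial.finsetSum_coeff, Finset.sum_eq_single 0]
  · simp
  · intro l _ hl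
    rw [coeff_C_mul, coeff_X_pow, if_neg (Ne.symm hl), mul_zero]
  · intro h
    simp at h

namespace Act

variable {E : Type} [Ring E] [Algebra ℚ E] (A : Act E X)

theorem rho_c2 (x : X.R) : A.ρ (A.c * A.c) x = X.c ^ 2 * x := by
  rw [map_mul, A.hc, Module.End.mul_apply, sq, mul_assoc]
  rfl

theorem rho_c2_pow (l : ℕ) (x : X.R) : A.ρ ((A.c * A.c) ^ l) x = X.c ^ (2 * l) * x := by
  induction l generalizing x with
  | zero => simp
  | succ l ih =>
    rw [pow_succ, map_mul, Module.End.mul_apply, ih, A.rho_c2, ← mul_assoc, ← pow_add]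
    congr 2

theorem F_poly (P : ℚ[X]) (x y : X.R) :
    F X (A.ρ (aeval (A.c * A.c) P) x) y = F X x (A.ρ (aeval (A.c * A.c) P) y) := by
  induction P using Polynomial.induction_on' generalizing x y with
  | add P Q hP hQ =>
    rw [map_add, map_add, LinearMap.add_apply, LinearMap.add_apply, F_add_left, F_add_right, hP,
      hQ]
  | monomial l q =>
    rw [aeval_monomial, ← Algebra.smul_def, rho_smul, rho_smul, F_smul_left, F_smul_right]
    have : conj ((q : ℚ) : ℂ) = ((q : ℚ) : ℂ) := map_ratCast _ q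
    rw [this]
    congr 1
    induction l generalizing x y with
    | zero => simp
    | succ l ih =>
      rw [pow_succ, map_mul, Module.End.mul_apply, ih, Module.End.mul_apply, A.rho_c2, F_c2,
        ← A.rho_c2, ← Module.End.mul_apply, ← map_mul, ← pow_succ', pow_succ, map_mul,
        Module.End.mul_apply]

theorem c2_nil : (A.c * A.c) ^ (n + 1) = 0 := by
  apply A.inj
  rw [map_zero]
  ext x
  rw [A.rho_c2_pow, c_nil (by omega)]
  rfl

/-- the square root of `cosh (c / 2)` and its inverse -/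
theorem exists_s : ∃ P Q : ℚ[X], aeval (A.c * A.c) P * aeval (A.c * A.c) P =
      aeval (A.c * A.c) (Ch n) ∧ aeval (A.c * A.c) P * aeval (A.c * A.c) Q = 1 ∧
      aeval (A.c * A.c) Q * aeval (A.c * A.c) P = 1 := by
  obtain ⟨P, hP, T, hT⟩ := sqrt_poly (Ch n) (Ch_zero n) (n + 1)
  obtain ⟨Q, U, hU⟩ := inv_poly P hP (n + 1)
  have h1 := congrArg (aeval (A.c * A.c)) hT
  have h2 := congrArg (aeval (A.c * A.c)) hU
  rw [map_sub, map_pow, map_mul, map_pow, aeval_X, A.c2_nil, zero_mul, sub_eq_zero] at h1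
  rw [map_sub, map_mul, map_mul, map_pow, aeval_X, A.c2_nil, zero_mul, sub_eq_zero, map_one] at h2
  refine ⟨P, Q, by rw [← sq, h1], h2, ?_⟩
  rw [← map_mul, mul_comm, map_mul, h2]

theorem F_Ch (x y : X.R) : F X (A.ρ (aeval (A.c * A.c) (Ch n)) x) y =
    ∑ l ∈ Finset.range (n + 1), ((1 : ℂ) / (2 ^ (2 * l) * ((2 * l).factorial : ℂ))) *
      X.tr (X.c ^ (2 * l) * (X.dual x * X.bar y)) := by
  unfold Ch
  rw [map_sum, map_sum, LinearMap.sum_apply]
  have h1 : F X (∑ l ∈ Finset.range (n + 1), A.ρ (aeval (A.c * A.c) (Polynomial.C ((1 : ℚ) /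
      (2 ^ (2 * l) * ((2 * l).factorial : ℚ))) * Polynomial.X ^ l)) x) y =
      ∑ l ∈ Finset.range (n + 1), F X (A.ρ (aeval (A.c * A.c) (Polynomial.C ((1 : ℚ) /
      (2 ^ (2 * l) * ((2 * l).factorial : ℚ))) * Polynomial.X ^ l)) x) y := map_sum (FL X y) _ _
  rw [h1]
  refine Finset.sum_congr rfl fun l _ => ?_
  rw [map_mul (aeval (A.c * A.c)), map_pow, aeval_X, aeval_C, ← Algebra.smul_def, rho_smul,
    F_smul_left, A.rho_c2_pow]
  congr 1
  · push_cast
    rfl
  · unfold F
    congr 1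
    have : ∀ l : ℕ, ∀ x : X.R, X.dual (X.c ^ (2 * l) * x) = X.c ^ (2 * l) * X.dual x := by
      intro l
      induction l with
      | zero => intro x; simp
      | succ l ih =>
        intro x
        have e : X.c ^ (2 * (l + 1)) = X.c ^ (2 * l) * X.c ^ 2 := by rw [← pow_add]; congr 1
        rw [e, mul_assoc, ih, dual_c2, mul_assoc]
    rw [this, mul_assoc]

end Act

/-- hermitian symmetry of the terms of the Mukai form -/
theorem G_conj {a b : ℤ} (hab : Even (a - b + n)) (m : ℕ) {x y : X.R} (hx : x ∈ typ X a b)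
    (hy : y ∈ typ X a b) : conj (X.tr (X.c ^ m * (X.dual x * X.bar y))) =
      (-1) ^ m * X.tr (X.c ^ m * (X.dual y * X.bar x)) := by
  unfold typ at hx hy
  refine Submodule.iSup_induction (p := fun k : ℤ => X.H (a + k, b + k))
    (motive := fun x => conj (X.tr (X.c ^ m * (X.dual x * X.bar y))) =
      (-1) ^ m * X.tr (X.c ^ m * (X.dual y * X.bar x))) hx ?_ ?_ ?_
  · intro k x hx
    refine Submodule.iSup_induction (p := fun k : ℤ => X.H (a + k, b + k))
      (motive := fun y => conj (X.tr (X.c ^ m * (X.dual x * X.bar y))) =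
        (-1) ^ m * X.tr (X.c ^ m * (X.dual y * X.bar x))) hy ?_ ?_ ?_
    · intro l y hy
      rw [X.dual_of hx, X.dual_of hy, smul_mul_assoc, smul_mul_assoc, mul_smul_comm,
        mul_smul_comm, LinearMap.map_smul X.tr, LinearMap.map_smul X.tr, smul_eq_mul, smul_eq_mul,
        RingHom.map_mul, I_zpow_conj]
      have hbx := X.bar_mem _ _ _ hx
      have hby := X.bar_mem _ _ _ hy
      by_cases hdeg : (m : ℤ) + (a + b + k + l) = n
      · have h1 : conj (X.tr (X.c ^ m * (x * X.bar y))) =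
            (-1 : ℂ) ^ ((b + k + (a + k)) * (a + l + (b + l))) *
              X.tr (X.c ^ m * (y * X.bar x)) := by
          rw [← X.tr_bar, bar_c, X.bar_mul, X.bar_bar, X.comm _ _ _ _ _ _ hbx hy, mul_smul_comm,
            map_smul, smul_eq_mul]
        rw [h1]
        obtain ⟨t, ht⟩ := hab
        have e1 : (-1 : ℂ) ^ ((b + k + (a + k)) * (a + l + (b + l))) =
            (-1 : ℂ) ^ (a + k + (b + k)) := by
          have h5 : Even ((b + k + (a + k)) * (a + l + (b + l)) - (a + k + (b + k))) := by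
            have e : (b + k + (a + k)) * (a + l + (b + l)) - (a + k + (b + k)) =
              (a + b + 2 * k) * (a + b + 2 * k - 1) + 2 * ((a + b + 2 * k) * (l - k)) := by ring
            rw [e]
            exact Even.add (Int.even_mul_pred_self _) ⟨(a + b + 2 * k) * (l - k), by ring⟩
          have h6 := Even.neg_one_zpow (α := ℂ) h5
          rw [zpow_sub₀ (by norm_num)] at h6
          have h7 : (-1 : ℂ) ^ (a + k + (b + k)) ≠ 0 := zpow_ne_zero _ (by norm_num)
          field_simp at h6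
          exact h6
        have e2 : Complex.I ^ (a + l + (b + l)) =
            Complex.I ^ (a + k + (b + k)) * (-1 : ℂ) ^ (l - k) := by
          rw [← I_two, ← zpow_add₀ Complex.I_ne_zero]
          congr 1
          ring
        have e3 : (-1 : ℂ) ^ (l - k) = (-1 : ℂ) ^ m := by
          have h5 : Even ((l - k) - (m : ℤ)) := by
            exact ⟨l + a - t, by linarith⟩
          have h6 := Even.neg_one_zpow (α := ℂ) h5
          rw [zpow_sub₀ (by norm_num)] at h6
          have h7 : (-1 : ℂ) ^ (m : ℤ) ≠ 0 := zpow_ne_zero _ (by norm_num)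
          field_simp at h6
          rw [h6, zpow_natCast]
        rw [e1, e2, e3]
        have f1 := neg_one_sq_zpow (a + k + (b + k))
        have f2 : ((-1 : ℂ) ^ m) * (-1) ^ m = 1 := by rw [← mul_pow]; norm_num
        linear_combination (Complex.I ^ (a + k + (b + k)) *
          X.tr (X.c ^ m * (y * X.bar x))) * f1 - (Complex.I ^ (a + k + (b + k)) *
          X.tr (X.c ^ m * (y * X.bar x))) * f2
      · have z1 : X.tr (X.c ^ m * (x * X.bar y)) = 0 :=
          X.tr_van _ _ _ (X.pow_mul_mem X.c_mem m (X.mul_mem hx hby)) (by omega)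
        have z2 : X.tr (X.c ^ m * (y * X.bar x)) = 0 :=
          X.tr_van _ _ _ (X.pow_mul_mem X.c_mem m (X.mul_mem hy hbx)) (by omega)
        rw [z1, z2]
        simp
    · simp
    · intro y z hy hz
      rw [map_add X.bar, mul_add, mul_add, map_add, map_add, hy, hz, map_add X.dual, add_mul,
        mul_add, map_add, mul_add]
  · simp
  · intro x z hx hz
    rw [map_add X.dual, add_mul, mul_add, map_add, map_add, hx, hz, map_add X.bar, mul_add,
      mul_add, map_add, mul_add]

theorem sum_even_odd (N : ℕ) (g : ℕ → ℝ) : ∑ m ∈ Finset.range (2 * N), g m =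
    ∑ l ∈ Finset.range N, (g (2 * l) + g (2 * l + 1)) := by
  induction N with
  | zero => simp
  | succ N ih =>
    rw [Finset.sum_range_succ, ← ih, show 2 * (N + 1) = 2 * N + 1 + 1 from rfl,
      Finset.sum_range_succ, Finset.sum_range_succ]
    ring

theorem Act.beta_eq {E : Type} [Ring E] [Algebra ℚ E] (A : Act E X) {a b : ℤ}
    (hab : Even (a - b + n)) {x : X.R} (hx : x ∈ typ X a b) :
    X.beta x x = 2 * (F X (A.ρ (aeval (A.c * A.c) (Ch n)) x) x).re := by
  set G : ℕ → ℂ := fun m => ((1 : ℂ) / (2 ^ m * (m.factorial : ℂ))) *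
    X.tr (X.c ^ m * (X.dual x * X.bar x)) with hG
  have h1 : X.mukai x (X.bar x) = ∑ m ∈ Finset.range (n + 1), G m := by
    unfold KRing.mukai KRing.expc
    rw [Finset.sum_mul, map_sum]
    refine Finset.sum_congr rfl fun m _ => ?_
    rw [smul_mul_assoc, map_smul, smul_eq_mul]
  have h2 : ∀ m, n < m → G m = 0 := by
    intro m hm
    simp only [hG]
    rw [c_nil hm, map_zero, mul_zero]
  have h3 : ∀ l : ℕ, (G (2 * l + 1)).re = 0 := by
    intro l
    have h4 := G_conj hab (2 * l + 1) hx hx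
    have h5 : ((-1 : ℂ)) ^ (2 * l + 1) = -1 := by
      rw [pow_succ, pow_mul]
      norm_num
    rw [h5] at h4
    have h6 := congrArg Complex.re h4
    simp only [Complex.conj_re, neg_mul, one_mul, Complex.neg_re] at h6
    have h7 : (X.tr (X.c ^ (2 * l + 1) * (X.dual x * X.bar x))).re = 0 := by linarith
    simp only [hG]
    have h8 : ((1 : ℂ) / (2 ^ (2 * l + 1) * ((2 * l + 1).factorial : ℂ))) =
        (((1 : ℝ) / (2 ^ (2 * l + 1) * ((2 * l + 1).factorial : ℝ)) : ℝ) : ℂ) := by push_cast; rfl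
    rw [h8, Complex.re_ofReal_mul, h7, mul_zero]
  have h4 : (X.mukai x (X.bar x)).re = (F X (A.ρ (aeval (A.c * A.c) (Ch n)) x) x).re := by
    rw [A.F_Ch, h1, Complex.re_sum, Complex.re_sum]
    have h5 : ∑ m ∈ Finset.range (n + 1), (G m).re =
        ∑ m ∈ Finset.range (2 * (n + 1)), (G m).re := by
      refine Finset.sum_subset (fun m hm => ?_) (fun m _ hm => ?_)
      · rw [Finset.mem_range] at *
        omega
      · rw [Finset.mem_range] at hm
        rw [h2 m (by omega)]
        rfl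
    rw [h5, sum_even_odd]
    refine Finset.sum_congr rfl fun l _ => ?_
    rw [h3, add_zero]
  unfold KRing.beta
  rw [h4]
  ring

end Pool.Agent.R941.OH
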