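import Pool.Agent.R941.OH.HIso
import Pool.Agent.R941.OH.Main

/-!
# The cup product form on the middle cohomology
-/

set_option autoImplicit false

open scoped ComplexConjugate
open Module Pool.Agent.W539.DI Polynomial

namespace Pool.Agent.R941.OH

theorem St.hyp_iso {E : Type} [Ring E] {H : St E} {l i l' i' a b : E} (hl : l * l = l)
    (hl' : l' * l' = l') (h0 : l * i = 0) (h1 : i * l = 0) (h0' : l' * i' = 0) (h1' : i' * l' = 0)
    (s : H.σ l = i) (s' : H.σ l' = i') (Pl : H.P * l = l) (hab : a * b = l) (hba : b * a = l') :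
    ∃ w, (l' + i') * w * (l + i) = w ∧ H.σ w * w = l + i ∧ w * H.σ w = l' + i' := by
  have hi : i * i = i := by rw [← s, ← H.σ_mul, hl]
  have hi' : i' * i' = i' := by rw [← s', ← H.σ_mul, hl']
  set a1 := l * a * l' with ha1
  set b1 := l' * b * l with hb1
  have ab : a1 * b1 = l := by
    calc l * a * l' * (l' * b * l) = l * a * (l' * l') * b * l := by simp only [mul_assoc]
      _ = l * a * (b * a) * b * l := by rw [hl', hba]
      _ = l * (a * b) * (a * b) * l := by simp only [mul_assoc]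
      _ = l := by rw [hab, hl, hl, hl]
  have ba : b1 * a1 = l' := by
    calc l' * b * l * (l * a * l') = l' * b * (l * l) * a * l' := by simp only [mul_assoc]
      _ = l' * b * (a * b) * a * l' := by rw [hl, hab]
      _ = l' * (b * a) * (b * a) * l' := by simp only [mul_assoc]
      _ = l' := by rw [hba, hl', hl', hl']
  have x1 : b1 * l = b1 := by rw [hb1, mul_assoc, hl]
  have x2 : l' * b1 = b1 := by rw [hb1, ← mul_assoc, ← mul_assoc, hl']
  have x3 : i' * b1 = 0 := by rw [← x2, ← mul_assoc, h1', zero_mul]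
  have x4 : b1 * i = 0 := by rw [← x1, mul_assoc, h0, mul_zero]
  have y1 : l * a1 = a1 := by rw [ha1, ← mul_assoc, ← mul_assoc, hl]
  have y2 : a1 * l' = a1 := by rw [ha1, mul_assoc, hl']
  have y4 : a1 * i' = 0 := by rw [← y2, mul_assoc, h0', mul_zero]
  have Pa : H.P * a1 = a1 := by rw [← y1, ← mul_assoc, Pl]
  have z1 : H.σ a1 * i = H.σ a1 := by rw [← s, ← H.σ_mul, y1]
  have z2 : i' * H.σ a1 = H.σ a1 := by rw [← s', ← H.σ_mul, y2]
  have z3 : l' * H.σ a1 = 0 := by rw [← z2, ← mul_assoc, h0', zero_mul]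
  have z4 : H.σ a1 * l = 0 := by rw [← z1, mul_assoc, h1, mul_zero]
  have u1 : i * H.σ b1 = H.σ b1 := by rw [← s, ← H.σ_mul, x1]
  have u2 : H.σ b1 * i' = H.σ b1 := by rw [← s', ← H.σ_mul, x2]
  have u3 : H.σ b1 * l' = 0 := by rw [← u2, mul_assoc, h1', mul_zero]
  have sw : H.σ (b1 + H.σ a1) = H.σ b1 + a1 := by rw [H.σ_add, H.σσ, Pa]
  refine ⟨b1 + H.σ a1, ?_, ?_, ?_⟩
  · have e1 : (l' + i') * (b1 + H.σ a1) = b1 + H.σ a1 := by
      rw [add_mul, mul_add, mul_add, x2, x3, z3, z2]; abel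
    rw [e1, add_mul, mul_add, mul_add, x1, x4, z4, z1]; abel
  · rw [sw, add_mul, mul_add, mul_add]
    have e1 : H.σ b1 * b1 = 0 := by rw [← x2, ← mul_assoc, x2, u3, zero_mul]
    have e2 : a1 * H.σ a1 = 0 := by
      have : a1 * (i' * H.σ a1) = 0 := by rw [← mul_assoc, y4, zero_mul]
      rwa [z2] at this
    have e3 : H.σ b1 * H.σ a1 = i := by rw [← H.σ_mul, ab, s]
    rw [e1, e2, e3, ab]; abel
  · rw [sw, add_mul, mul_add, mul_add]
    have e1 : b1 * H.σ b1 = 0 := by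
      have : b1 * (i * H.σ b1) = 0 := by rw [← mul_assoc, x4, zero_mul]
      rwa [u1] at this
    have e2 : H.σ a1 * a1 = 0 := by
      have : H.σ a1 * (l * a1) = 0 := by rw [← mul_assoc, z4, zero_mul]
      rwa [y1] at this
    have e3 : H.σ a1 * H.σ b1 = i' := by rw [← H.σ_mul, ba, s']
    rw [e1, e2, e3, ba]; abel

namespace Act

variable {E : Type} [Ring E] [Algebra ℚ E] {n : ℕ} {X : KRing n} (A : Act E X)

/-- the degrees below `n` of the parity of `n` -/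
noncomputable def lo : E := A.cj (A.L.pD (fun m => m < n ∧ (m + n) % 2 = 0))

/-- the degrees above `n` of the parity of `n` -/
noncomputable def hi : E := A.cj (A.L.pD (fun m => n < m ∧ (m + n) % 2 = 0))

theorem pD_pD (D D' : ℕ → Prop) [DecidablePred D] [DecidablePred D'] (h : ∀ m, ¬ (D m ∧ D' m)) :
    A.L.pD D * A.L.pD D' = 0 := by
  refine A.L.ext_p fun m hm => ?_
  rw [zero_mul, mul_assoc, A.L.pD_p D' hm]
  split_ifs with h1
  · rw [A.L.pD_p D hm, if_neg (fun h2 => h m ⟨h2, h1⟩)]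
  · rw [mul_zero]

theorem lo_lo : A.lo * A.lo = A.lo := by unfold lo; rw [A.cj_mul, A.L.pD_self]

theorem lo_hi : A.lo * A.hi = 0 := by
  unfold lo hi; rw [A.cj_mul, A.pD_pD _ _ (by intro m; omega), A.cj_zero]

theorem hi_lo : A.hi * A.lo = 0 := by
  unfold lo hi; rw [A.cj_mul, A.pD_pD _ _ (by intro m; omega), A.cj_zero]

theorem adj_lo : A.Adj A.lo A.hi := A.adj_cj (A.F_pD (by intro m hm; omega))

theorem PT_pD (D : ℕ → Prop) [DecidablePred D] (h : ∀ m, D m → (m + n) % 2 = 0) :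
    A.L.PT * A.L.pD D = A.L.pD D := by
  refine A.L.ext_p fun m hm => ?_
  rw [mul_assoc, A.L.pD_p D hm]
  split_ifs with h1
  · rw [A.L.PT_p hm, if_pos (h m h1)]
  · rw [mul_zero]

theorem PT_lo : A.L.PT * A.lo = A.lo := by
  unfold lo; rw [A.PT_cj, A.PT_pD _ (fun m h => h.2)]

theorem PT_hi : A.L.PT * A.hi = A.hi := by
  unfold hi; rw [A.PT_cj, A.PT_pD _ (fun m h => h.2)]

theorem lo_add_hi : A.lo + A.hi = A.hy := by
  unfold lo hi hy eN
  conv_rhs => rw [← A.cj_PT]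
  have h1 : A.L.pD (fun m => m < n ∧ (m + n) % 2 = 0) + A.L.pD (fun m => n < m ∧ (m + n) % 2 = 0) +
      A.L.p n = A.L.PT := by
    refine A.L.ext_p fun m hm => ?_
    rw [add_mul, add_mul, A.L.pD_p _ hm, A.L.pD_p _ hm, A.L.PT_p hm, A.L.pp]
    by_cases h2 : (m + n) % 2 = 0
    · rcases lt_trichotomy m n with h3 | h3 | h3
      · rw [if_pos ⟨h3, h2⟩, if_neg (by omega), if_neg (by omega), if_pos h2]; abel
      · rw [if_neg (by omega), if_neg (by omega), if_pos h3.symm, if_pos h2, h3]; abel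
      · rw [if_neg (by omega), if_pos ⟨h3, h2⟩, if_neg (by omega), if_pos h2]; abel
    · rw [if_neg (by omega), if_neg (by omega), if_neg (by omega), if_neg h2]; abel
  rw [← h1, A.cj_add, A.cj_add]
  abel

theorem t_cj [FiniteDimensional ℚ E] (S : Submodule E E) (a : E) : tS S (A.cj a) = tS S a := by
  unfold cj
  rw [tS_mul, ← mul_assoc, A.s_s', one_mul]

theorem t_lo [FiniteDimensional ℚ E] (S : Submodule E E) :
    tS S A.lo = A.L.mM (tS S) n + A.L.nN (tS S) n := by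
  classical
  unfold lo
  rw [A.t_cj, t_pD]
  unfold Lef.mM Lef.nN
  have e : (Finset.range (2 * n + 1)).filter (fun m => m < n ∧ (m + n) % 2 = 0) =
      ((Finset.range n).filter (fun j => (n - j) % 4 = 0)) ∪
        ((Finset.range n).filter (fun j => (n - j) % 4 = 2)) := by
    ext m
    simp only [Finset.mem_filter, Finset.mem_range, Finset.mem_union]
    omega
  rw [e, Finset.sum_union]
  rw [Finset.disjoint_left]
  intro m h1 h2
  simp only [Finset.mem_filter, Finset.mem_range] at h1 h2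
  omega

theorem PTr (z y : X.R) : A.Bt (A.ρ A.L.PT z) y = A.Bt (A.ρ A.L.PT z) (A.ρ A.L.PT y) := by
  have := A.Bt_PT (A.ρ A.L.PT z) y
  rwa [A.PTPT] at this

theorem PTl (z y : X.R) : A.Bt (A.ρ A.L.PT z) (A.ρ A.L.PT y) = A.Bt z (A.ρ A.L.PT y) := by
  have := A.Bt_PT z (A.ρ A.L.PT y)
  rwa [A.PTPT] at this

end Act

section two

variable {E : Type} [Ring E] [Algebra ℚ E] {n : ℕ} {X Y : KRing n} (A : Act E X) (B : Act E Y)
  (Φ : FM X Y) (hΦ : ∀ a x, Φ.φ (A.ρ a x) = B.ρ a (Φ.φ x))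

theorem Bt_phi (x y : X.R) : A.Bt (A.ρ A.L.PT x) (A.ρ A.L.PT y) =
    B.Bt (Φ.φ (A.ρ A.L.PT x)) (Φ.φ (A.ρ A.L.PT y)) := by
  refine X.ind (P := fun x => A.Bt (A.ρ A.L.PT x) (A.ρ A.L.PT y) =
    B.Bt (Φ.φ (A.ρ A.L.PT x)) (Φ.φ (A.ρ A.L.PT y))) ?_ ?_ ?_ x
  · rw [map_zero, map_zero, A.Bt_zero_left, B.Bt_zero_left]
  · intro a b ha hb
    rw [map_add, map_add, A.Bt_add_left, B.Bt_add_left, ha, hb]
  · intro a b x hx
    refine X.ind (P := fun y => A.Bt (A.ρ A.L.PT x) (A.ρ A.L.PT y) =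
      B.Bt (Φ.φ (A.ρ A.L.PT x)) (Φ.φ (A.ρ A.L.PT y))) ?_ ?_ ?_ y
    · rw [map_zero, map_zero, A.Bt_zero_right, B.Bt_zero_right]
    · intro a b ha hb
      rw [map_add, map_add, A.Bt_add_right, B.Bt_add_right, ha, hb]
    · intro p q y hy
      have px := A.rho_PT (mem_typ X hx)
      have py := A.rho_PT (mem_typ X hy)
      by_cases he : Even (a - b + n)
      · rw [if_pos he] at px
        by_cases hd : a - b = p - q
        · rw [if_pos (hd ▸ he)] at py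
          rw [px, py]
          have hy' := mem_typ' X hd hy
          have h1 := A.Bt_mukai he (mem_typ X hx) hy'
          have h2 := B.Bt_mukai he (mem_typ_phi Φ (mem_typ X hx)) (mem_typ_phi Φ hy')
          rw [← Φ.real, ← Φ.real, Φ.isom, Φ.isom, ← h1] at h2
          exact (mul_left_cancel₀ two_ne_zero h2).symm
        · by_cases he' : Even (p - q + n)
          · rw [if_pos he'] at py
            rw [px, py, A.Bt_van (mem_typ X hx) (mem_typ X hy) hd,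
              B.Bt_van (mem_typ_phi Φ (mem_typ X hx)) (mem_typ_phi Φ (mem_typ X hy)) hd]
          · rw [if_neg he'] at py
            rw [py, map_zero, A.Bt_zero_right, B.Bt_zero_right]
      · rw [if_neg he] at px
        rw [px, map_zero, A.Bt_zero_left, B.Bt_zero_left]

include hΦ

theorem adj_transfer {a b : E} (h : B.Adj a b) : A.Adj (A.L.PT * a) (A.L.PT * b) := by
  intro x y
  calc A.Bt (A.ρ (A.L.PT * a) x) y = A.Bt (A.ρ A.L.PT (A.ρ a x)) y := by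
        rw [map_mul, Module.End.mul_apply]
    _ = A.Bt (A.ρ A.L.PT (A.ρ a x)) (A.ρ A.L.PT y) := A.PTr _ _
    _ = B.Bt (Φ.φ (A.ρ A.L.PT (A.ρ a x))) (Φ.φ (A.ρ A.L.PT y)) := Bt_phi A B Φ _ _
    _ = B.Bt (B.ρ a (Φ.φ (A.ρ A.L.PT x))) (Φ.φ (A.ρ A.L.PT y)) := by rw [← A.ρ_PT_comm, hΦ]
    _ = B.Bt (Φ.φ (A.ρ A.L.PT x)) (B.ρ b (Φ.φ (A.ρ A.L.PT y))) := h _ _
    _ = B.Bt (Φ.φ (A.ρ A.L.PT x)) (Φ.φ (A.ρ A.L.PT (A.ρ b y))) := by rw [← hΦ, A.ρ_PT_comm]
    _ = A.Bt (A.ρ A.L.PT x) (A.ρ A.L.PT (A.ρ b y)) := (Bt_phi A B Φ _ _).symm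
    _ = A.Bt x (A.ρ A.L.PT (A.ρ b y)) := A.PTl _ _
    _ = A.Bt x (A.ρ (A.L.PT * b) y) := by rw [map_mul, Module.End.mul_apply]

theorem sg_B {a b : E} (h : B.Adj a b) (hb : B.L.PT * b = b) : A.sg a = b := by
  apply A.sg_eq
  have h1 := adj_transfer A B Φ hΦ h
  have h2 := PT_eq A B Φ hΦ
  rwa [h2, hb, ← h2] at h1

theorem pr_eN_B : A.st.Pr B.eN := ⟨B.eN_eN, sg_B A B Φ hΦ B.adj_eN B.PT_eN⟩

theorem pr_hy_B : A.st.Pr B.hy := by
  refine ⟨B.hy_hy, ?_⟩
  unfold Act.hy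
  rw [← PT_eq A B Φ hΦ, A.st.σ_sub, (pr_eN_B A B Φ hΦ).self]
  congr 1
  exact A.st.σ_P

theorem exists_phi [FiniteDimensional ℚ E] (hn : ∀ S, tS S (A.L.p n) = tS S (B.L.p n)) :
    ∃ φ, B.eN * φ * A.eN = φ ∧ A.sg φ * φ = A.eN ∧ φ * A.sg φ = B.eN := by
  have _ := A.semisimple
  have hPT := PT_eq A B Φ hΦ
  have hlo : ∀ S, tS S A.lo = tS S B.lo := by
    intro S
    have h1 := core1 A B Φ hΦ S
    have h2 := core2 A B Φ hΦ S
    rw [A.t_lo, B.t_lo, h1]
    rw [hn S] at h2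
    linarith
  obtain ⟨a, b, hab, hba⟩ := idem_equiv A.lo_lo B.lo_lo hlo
  obtain ⟨w, w0, w1, w2⟩ := St.hyp_iso (H := A.st) A.lo_lo B.lo_lo A.lo_hi A.hi_lo B.lo_hi B.hi_lo
    (A.sg_eq (by rw [A.PT_lo]; exact A.adj_lo)) (sg_B A B Φ hΦ B.adj_lo B.PT_hi) A.PT_lo hab hba
  rw [A.lo_add_hi, B.lo_add_hi] at w0
  rw [A.lo_add_hi] at w1
  rw [B.lo_add_hi] at w2
  obtain ⟨φ, f1, f2⟩ := St.cancel (H := A.st) (e := A.eN) (g := A.hy) (f := B.eN) (k := B.hy)
    (A.pr_of A.eN_eN A.PT_eN A.adj_eN) A.pr_hy (pr_hy_B A B Φ hΦ)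
    (by unfold Act.hy; show A.eN + (A.L.PT - A.eN) = A.L.PT; abel)
    (by unfold Act.hy; rw [← hPT]; show B.eN + (A.L.PT - B.eN) = A.L.PT; abel) w0 w1 w2 A.cay_hy
  have f2' : A.sg φ * φ = A.eN := f2
  refine ⟨φ, f1, f2', ?_⟩
  have g1 : B.eN * φ = φ := by rw [← f1]; simp only [← mul_assoc, B.eN_eN]
  have g2 : φ * A.eN = φ := by rw [← f1]; simp only [mul_assoc, A.eN_eN]
  have g3 : A.sg φ * B.eN = A.sg φ := by
    have h1 := A.st.σ_mul B.eN φ
    rw [g1, (pr_eN_B A B Φ hΦ).self] at h1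
    exact h1.symm
  set π := φ * A.sg φ with hπ
  have p1 : π * π = π := by
    calc φ * A.sg φ * (φ * A.sg φ) = φ * (A.sg φ * φ) * A.sg φ := by simp only [mul_assoc]
      _ = _ := by rw [f2', g2]
  have p2 : B.eN * π = π := by rw [hπ, ← mul_assoc, g1]
  have p3 : π * B.eN = π := by rw [hπ, mul_assoc, g3]
  have p4 : (B.eN - π) * (B.eN - π) = B.eN - π := by
    rw [mul_sub, sub_mul, sub_mul, B.eN_eN, p1, p2, p3]; abel
  have p5 : tS (⊤ : Submodule E E) (B.eN - π) = 0 := by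
    have h1 : tS (⊤ : Submodule E E) π = tS ⊤ A.eN := by rw [hπ, tS_mul, f2']
    have h2 : tS (⊤ : Submodule E E) A.eN = tS ⊤ B.eN := by
      unfold Act.eN
      rw [A.t_cj, B.t_cj, hn]
    rw [map_sub, h1, h2, sub_self]
  rw [tS_idem _ p4] at p5
  have p6 : LinearMap.range (Algebra.lsmul ℚ ℚ (⊤ : Submodule E E) (B.eN - π)) = ⊥ :=
    Submodule.finrank_eq_zero.1 (by exact_mod_cast p5)
  have p7 : (B.eN - π) * 1 = 0 := by
    have h1 : Algebra.lsmul ℚ ℚ (⊤ : Submodule E E) (B.eN - π) ⟨1, Submodule.mem_top⟩ = 0 :=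
      (Submodule.mem_bot ℚ).1 (p6 ▸ ⟨_, rfl⟩)
    exact congrArg Subtype.val h1
  rw [mul_one, sub_eq_zero] at p7
  exact p7.symm

/-- the map between the middle cohomology groups is an isometry -/
theorem F_iso [FiniteDimensional ℚ E] {φ : E} (f1 : B.eN * φ * A.eN = φ)
    (f2 : A.sg φ * φ = A.eN) (x y : X.R) (hy : A.ρ (A.L.p n) y = y) :
    F Y (B.ρ (B.s * φ) (Φ.φ (A.ρ A.s' x))) (B.ρ (B.s * φ) (Φ.φ (A.ρ A.s' y))) = F X x y := by
  have hPT := PT_eq A B Φ hΦ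
  have g1 : B.eN * φ = φ := by rw [← f1]; simp only [← mul_assoc, B.eN_eN]
  have g2 : A.L.PT * φ = φ := by
    rw [← g1, ← mul_assoc, hPT, B.PT_eN]
  have h1 : ∀ z, B.ρ (B.s * φ) (Φ.φ z) = B.ρ B.s (Φ.φ (A.ρ φ z)) := by
    intro z
    rw [map_mul, Module.End.mul_apply, hΦ]
  have h2 : ∀ z, A.ρ φ z = A.ρ A.L.PT (A.ρ φ z) := by
    intro z
    rw [← Module.End.mul_apply, ← map_mul, g2]
  rw [h1, h1, ← B.Bt_eq, h2, h2 (A.ρ A.s' y), ← Bt_phi A B Φ, ← h2, ← h2]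
  have h3 := A.adj_sg φ
  rw [g2] at h3
  rw [h3, ← Module.End.mul_apply, ← map_mul, f2, A.Bt_eq, ← Module.End.mul_apply, ← map_mul,
    A.s_s', map_one, Module.End.one_apply, ← Module.End.mul_apply, ← Module.End.mul_apply,
    ← map_mul, ← map_mul]
  have e : A.s * (A.eN * A.s') = A.L.p n := by
    unfold Act.eN Act.cj
    calc A.s * (A.s' * A.L.p n * A.s * A.s') = (A.s * A.s') * A.L.p n * (A.s * A.s') := by
          simp only [mul_assoc]
      _ = _ := by rw [A.s_s', one_mul, mul_one]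
  first
    | rw [e, hy]
    | rw [← mul_assoc] at e; rw [e, hy]

end two

end Pool.Agent.R941.OH
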